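import Pool.Agent.H86.T3D.Df
import Pool.Agent.H86.IK.Emb

/-!
Quadratic extensions: existence and the number of infinite places.
-/

set_option autoImplicit false
set_option linter.style.haveILetI false
open scoped Classical

open NumberField Polynomial H86IK

namespace H86D

theorem exists_QD {L : Type} [Field L] [NumberField L] {D : L} (hD : ¬ IsSquare D) :
    ∃ (B : Type) (_ : Field B) (_ : NumberField B) (_ : Algebra L B) (s : B) (σ : B ≃ₐ[L] B),
      QD D s σ := by
  have hirr : Irreducible (X ^ 2 - C D : L[X]) := by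
    rw [X_pow_sub_C_irreducible_iff_of_prime Nat.prime_two]
    intro b hb
    exact hD ⟨b, by rw [← hb, pow_two]⟩
  have hne : (X ^ 2 - C D : L[X]) ≠ 0 := hirr.ne_zero
  haveI : Fact (Irreducible (X ^ 2 - C D : L[X])) := ⟨hirr⟩
  have hfr : Module.finrank L (AdjoinRoot (X ^ 2 - C D : L[X])) = 2 := by
    rw [(AdjoinRoot.powerBasis hne).finrank, AdjoinRoot.powerBasis_dim, natDegree_X_pow_sub_C]
  haveI hfin : FiniteDimensional L (AdjoinRoot (X ^ 2 - C D : L[X])) :=
    Module.finite_of_finrank_pos (by rw [hfr]; norm_num)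
  haveI : CharZero (AdjoinRoot (X ^ 2 - C D : L[X])) :=
    charZero_of_injective_algebraMap (algebraMap L (AdjoinRoot (X ^ 2 - C D : L[X]))).injective
  haveI : FiniteDimensional ℚ (AdjoinRoot (X ^ 2 - C D : L[X])) :=
    FiniteDimensional.trans ℚ L _
  haveI : NumberField (AdjoinRoot (X ^ 2 - C D : L[X])) := ⟨⟩
  set s : AdjoinRoot (X ^ 2 - C D : L[X]) := AdjoinRoot.root _ with hs
  have hsq : s ^ 2 = algebraMap L _ D := by
    have h1 : aeval s (X ^ 2 - C D : L[X]) = 0 := by
      rw [hs, AdjoinRoot.aeval_eq, AdjoinRoot.mk_self]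
    rw [map_sub, map_pow, aeval_X, aeval_C] at h1
    exact sub_eq_zero.1 h1
  have hev : aeval (-s) (X ^ 2 - C D : L[X]) = 0 := by
    rw [map_sub, map_pow, aeval_X, aeval_C, neg_sq, hsq, sub_self]
  let τ : AdjoinRoot (X ^ 2 - C D : L[X]) →ₐ[L] AdjoinRoot (X ^ 2 - C D : L[X]) :=
    AdjoinRoot.liftAlgHom _ (Algebra.ofId L _) (-s) hev
  let σ : AdjoinRoot (X ^ 2 - C D : L[X]) ≃ₐ[L] AdjoinRoot (X ^ 2 - C D : L[X]) :=
    AlgEquiv.ofBijective τ (Algebra.IsAlgebraic.algHom_bijective τ)
  refine ⟨_, inferInstance, inferInstance, inferInstance, s, σ, hsq, ?_, hfr, ?_⟩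
  · change τ s = -s
    exact AdjoinRoot.liftAlgHom_root _ _ _ _
  · rintro rfl
    exact hD ⟨0, by ring⟩

section

variable {L B : Type} [Field L] [NumberField L] [Field B] [NumberField B] [Algebra L B]
  {D : L} {s : B} {σ : B ≃ₐ[L] B}

/-- the real embeddings of a quadratic extension -/
theorem real_ge (hQ : QD D s σ) :
    2 * Nat.card {ψ : L →+* ℝ // 0 < ψ D} ≤ Nat.card {ψ : B →+* ℝ // True} := by
  let X := Σ φ : {φ : L →+* ℝ // 0 < φ D},
    {ψ : B →+* ℂ // ψ.comp (algebraMap L B) = Complex.ofRealHom.comp φ.1}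
  have hX : Nat.card X = 2 * Nat.card {φ : L →+* ℝ // 0 < φ D} := by
    rw [Nat.card_sigma]
    simp only [card_ext]
    rw [Finset.sum_const, Finset.card_univ, smul_eq_mul, Nat.card_eq_fintype_card, hQ.rk,
      mul_comm]
  have htop : ∀ F : IntermediateField L B, s ∈ F → F = ⊤ := by
    intro F hs
    have hfin : FiniteDimensional L B := Module.finite_of_finrank_pos (by rw [hQ.rk]; norm_num)
    have h1 : Module.finrank L F * Module.finrank F B = 2 := by
      rw [Module.finrank_mul_finrank, hQ.rk]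
    have h2 : Module.finrank L F ≠ 1 := by
      intro h3
      rw [IntermediateField.finrank_eq_one_iff] at h3
      rw [h3, IntermediateField.mem_bot] at hs
      obtain ⟨x, hx⟩ := hs
      have h4 := hQ.neg
      rw [← hx, σ.commutes] at h4
      have h5 : (2 : B) * algebraMap L B x = 0 := by linear_combination h4
      rcases mul_eq_zero.1 h5 with h6 | h6
      · exact two_ne_zero h6
      · exact hQ.s0 (by rw [← hx, h6])
    have h3 : Module.finrank L F ∣ 2 := ⟨_, h1.symm⟩
    rcases (Nat.dvd_prime Nat.prime_two).1 h3 with h4 | h4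
    · exact absurd h4 h2
    · have h5 : Module.finrank F B = 1 := by
        rw [h4] at h1
        omega
      exact IntermediateField.finrank_eq_one_iff_eq_top.1 h5
  have hR : ∀ x : X, ComplexEmbedding.IsReal x.2.1 := by
    rintro ⟨⟨φ, hφ⟩, ⟨ψ, hψ⟩⟩
    change ComplexEmbedding.IsReal ψ
    have hL : ∀ y : L, (starRingEnd ℂ) (ψ (algebraMap L B y)) = ψ (algebraMap L B y) := by
      intro y
      have := RingHom.congr_fun hψ y
      rw [RingHom.comp_apply] at this
      rw [this]
      exact Complex.conj_ofReal _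
    have hs : (starRingEnd ℂ) (ψ s) = ψ s := by
      have h1 : (ψ s) ^ 2 = ((φ D : ℝ) : ℂ) := by
        rw [← map_pow, hQ.sq]
        exact RingHom.congr_fun hψ D
      have h2 : (ψ s) ^ 2 = ((Real.sqrt (φ D) : ℝ) : ℂ) ^ 2 := by
        rw [h1, ← Complex.ofReal_pow, Real.sq_sqrt hφ.le]
      rcases sq_eq_sq_iff_eq_or_eq_neg.1 h2 with h3 | h3
      · rw [h3]; exact Complex.conj_ofReal _
      · rw [h3, map_neg]
        congr 1
        exact Complex.conj_ofReal _
    let F : IntermediateField L B :=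
      { (RingHom.eqLocusField ((starRingEnd ℂ).comp ψ) ψ) with
        algebraMap_mem' := fun x => hL x }
    have hF : F = ⊤ := htop F hs
    rw [ComplexEmbedding.isReal_iff]
    ext x
    have hx : x ∈ F := by rw [hF]; trivial
    exact hx
  have hE : ∀ x : X, Complex.ofRealHom.comp (hR x).embedding = x.2.1 := by
    intro x
    ext y
    exact ComplexEmbedding.IsReal.coe_embedding_apply (hR x) y
  have hC : ∀ x : X, (hR x).embedding.comp (algebraMap L B) = x.1.1 := by
    intro x
    ext y
    have h1 := RingHom.congr_fun x.2.2 y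
    rw [RingHom.comp_apply, ← hE x, RingHom.comp_apply, RingHom.comp_apply] at h1
    exact Complex.ofReal_injective h1
  rw [← hX]
  refine Nat.card_le_card_of_injective (fun x : X => (⟨(hR x).embedding, trivial⟩ :
    {ψ : B →+* ℝ // True})) ?_
  intro x x' h
  have h1 : (hR x).embedding = (hR x').embedding := congrArg Subtype.val h
  have h2 : x.1.1 = x'.1.1 := by rw [← hC x, ← hC x', h1]
  have h3 : x.2.1 = x'.2.1 := by rw [← hE x, ← hE x', h1]
  obtain ⟨⟨φ, hφ⟩, ⟨ψ, hψ⟩⟩ := x
  obtain ⟨⟨φ', hφ'⟩, ⟨ψ', hψ'⟩⟩ := x'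
  simp only at h2 h3
  subst h2
  subst h3
  rfl

/-- real and non-real embeddings -/
theorem embed_total (L : Type) [Field L] [NumberField L] (P : (L →+* ℝ) → Prop) :
    Nat.card {ψ : L →+* ℝ // P ψ} + Nat.card {ψ : L →+* ℝ // ¬ P ψ} +
      Nat.card {ψ : L →+* ℂ // ¬ ComplexEmbedding.IsReal ψ} = Module.finrank ℚ L := by
  have h1 := card_places L P
  have h3 : Nat.card {ψ : L →+* ℂ // ¬ ComplexEmbedding.IsReal ψ} =
      2 * InfinitePlace.nrComplexPlaces L := by
    rw [Nat.card_eq_fintype_card, InfinitePlace.card_complex_embeddings]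
  have h4 := InfinitePlace.card_add_two_mul_card_eq_rank L
  have h5 := InfinitePlace.card_eq_nrRealPlaces_add_nrComplexPlaces L
  omega

/-- the infinite places of a quadratic extension -/
theorem inf_quad (hQ : QD D s σ) :
    Nat.card {ψ : L →+* ℝ // 0 < ψ D} + Module.finrank ℚ L ≤ Fintype.card (InfinitePlace B) := by
  have h1 := real_ge hQ
  have h2 := embed_total B (fun _ => True)
  have h3 := card_places B (fun _ => True)
  have hfr : Module.finrank ℚ B = Module.finrank ℚ L * 2 := by
    rw [← Module.finrank_mul_finrank ℚ L B, hQ.rk]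
  omega

end

section

variable {k L : Type} [Field k] [NumberField k] [Field L] [NumberField L] [Algebra k L]

/-- the embeddings of `L` when the real places of `k` stay real -/
theorem embed_le (hreal : ∀ ψ : L →+* ℂ,
      ComplexEmbedding.IsReal (ψ.comp (algebraMap k L)) → ComplexEmbedding.IsReal ψ)
    (P : (k →+* ℝ) → Prop) :
    Nat.card {ψ : L →+* ℝ // ¬ P (ψ.comp (algebraMap k L))} ≤
      Nat.card {φ : k →+* ℝ // ¬ P φ} * Module.finrank k L ∧
    Nat.card {ψ : L →+* ℂ // ¬ ComplexEmbedding.IsReal ψ} ≤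
      Nat.card {φ : k →+* ℂ // ¬ ComplexEmbedding.IsReal φ} * Module.finrank k L := by
  have h1 := card_real hreal P
  have h2 := card_real hreal (fun φ => ¬ P φ)
  have h3 := card_complex (k := k) (L := L)
  have h4 := embed_total k P
  have h5 := embed_total L (fun ψ => P (ψ.comp (algebraMap k L)))
  have h6 : Module.finrank ℚ L = Module.finrank ℚ k * Module.finrank k L :=
    (Module.finrank_mul_finrank ℚ k L).symm
  rw [← h4, add_mul, add_mul] at h6
  constructor <;> omega

end

end H86D
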