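import Pool.Agent.H86.T3D.ArbL
import Pool.Agent.H86.T3D.Qx

/-!
Growth of the three-Selmer group in the cyclotomic towers over a base field, three-isogenies with
arbitrary even character.
-/

set_option autoImplicit false
set_option linter.style.haveILetI false
open scoped Classical

open WithZero WeierstrassCurve IsDedekindDomain NumberField NumberField.Units Pool.Agent.H10
  Pool.Agent.H11 H5SW H55T3 H86IK H86T3

namespace H86D

open H86IG

section

variable {k L : Type} [Field k] [NumberField k] [Field L] [NumberField L] [Algebra k L]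

/-- transport of the bad condition to an extension unramified above three -/
theorem badW_of_below {D a b : k} (w : HeightOneSpectrum (𝓞 L)) (h : (3 : 𝓞 L) ∈ w.asIdeal)
    (h' : (3 : 𝓞 L) ∉ w.asIdeal ^ 2) (hb : BadW (H73IS.below k w) D a b) :
    BadW w (algebraMap k L D) (algebraMap k L a) (algebraMap k L b) := by
  have hm := fun x => val_eq3 (k := k) w h h' x
  rcases hb with ⟨h1, i, g1, g2⟩ | ⟨h1, i, g⟩
  · exact Or.inl ⟨by rw [hm]; exact h1, i, by rw [hm]; exact g1, by rw [hm]; exact g2⟩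
  · refine Or.inr ⟨by rw [hm]; exact h1, i, ?_⟩
    have e1 : (3 : L) * algebraMap k L a = algebraMap k L (3 * a) := by
      rw [map_mul, map_ofNat]
    have e2 : 9 * algebraMap k L b + 4 * algebraMap k L D * algebraMap k L a ^ 3 =
        algebraMap k L (9 * b + 4 * D * a ^ 3) := by
      rw [map_add, map_mul, map_mul, map_mul, map_pow, map_ofNat, map_ofNat]
    rw [e1, e2, hm, hm]
    exact g

/-- places above a place -/
theorem below_of_le {v : HeightOneSpectrum (𝓞 k)} {w : HeightOneSpectrum (𝓞 L)}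
    (h : v.asIdeal.map (algebraMap (𝓞 k) (𝓞 L)) ≤ w.asIdeal) : H73IS.below k w = v := by
  apply HeightOneSpectrum.ext
  have hm : v.asIdeal.IsMaximal := v.isMaximal
  refine (hm.eq_of_le (H73IS.below k w).isPrime.ne_top ?_).symm
  intro x hx
  rw [H73IS.mem_below]
  exact h (Ideal.mem_map_of_mem _ hx)

/-- a principal nonzero ideal has finitely many prime factors -/
theorem fin_bad {z : 𝓞 L} (hz0 : z ≠ 0) : {w : HeightOneSpectrum (𝓞 L) | z ∈ w.asIdeal}.Finite := by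
  have h0 : Ideal.span {z} ≠ 0 := by
    rw [Ne, Ideal.zero_eq_bot, Ideal.span_singleton_eq_bot]
    exact hz0
  refine (Ideal.finite_factors h0).subset ?_
  intro w hw
  exact Ideal.dvd_span_singleton.mpr hw

lemma rank_succ (K : Type) [Field K] [NumberField K] :
    rank K + 1 = Fintype.card (InfinitePlace K) := by
  rw [Units.rank]
  have : 0 < Fintype.card (InfinitePlace K) := Fintype.card_pos
  omega

/-- The case where `D` is not a square in `L`. -/
theorem growth_nsq {D a b : 𝓞 k} (hb0 : b ≠ 0) (hc0 : 9 * b + 4 * D * a ^ 3 ≠ 0)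
    (hD : ∀ v : HeightOneSpectrum (𝓞 k), (3 : 𝓞 k) ∈ v.asIdeal →
      v.valuation k (D : k) = 1 ∨ v.valuation k (D : k) = exp (-1 : ℤ))
    (S : Finset (HeightOneSpectrum (𝓞 k))) (hS3 : ∀ v ∈ S, (3 : 𝓞 k) ∈ v.asIdeal)
    (hS : ∀ v ∈ S, BadW v (D : k) (a : k) (b : k))
    (hunr : ∀ w : HeightOneSpectrum (𝓞 L), (3 : 𝓞 L) ∈ w.asIdeal → (3 : 𝓞 L) ∉ w.asIdeal ^ 2)
    (hreal : ∀ ψ : L →+* ℂ,
      ComplexEmbedding.IsReal (ψ.comp (algebraMap k L)) → ComplexEmbedding.IsReal ψ)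
    (hsq : ¬ IsSquare (algebraMap k L D))
    {V : WeierstrassCurve L} (h : Is3 V (algebraMap k L D) (algebraMap k L a) (algebraMap k L b))
    (P : Finset V.toAffine.Point) (hP : ∀ X : V.toAffine.Point, ∃ p ∈ P, ∃ S, X = p + 3 • S)
    (T : Finset (Coch L V))
    (hT : ∀ f, IsCocycle L V f → IsLocTriv L V f → IsCobound L V (fun σ => 3 • f σ) →
      ∃ t ∈ T, IsCobound L V (fun σ => f σ - t σ)) :
    (∏ v ∈ S, Ideal.absNorm v.asIdeal) ^ Module.finrank k L ≤
      (3 ^ (InfinitePlace.nrComplexPlaces k + Nat.card {φ : k →+* ℝ // ¬ 0 < φ (D : k)})) ^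
          Module.finrank k L *
        (9 ^ {w : HeightOneSpectrum (𝓞 L) |
          algebraMap (𝓞 k) (𝓞 L) (6 * D * b * (9 * b + 4 * D * a ^ 3)) ∈ w.asIdeal}.ncard *
          (9 * (P.card * T.card))) := by
  obtain ⟨B, _, _, _, s, σ, hQ⟩ := exists_QD hsq
  set D' : 𝓞 L := algebraMap (𝓞 k) (𝓞 L) D with hD'
  set a' : 𝓞 L := algebraMap (𝓞 k) (𝓞 L) a with ha'
  set b' : 𝓞 L := algebraMap (𝓞 k) (𝓞 L) b with hb'
  have hinj : Function.Injective (algebraMap (𝓞 k) (𝓞 L)) :=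
    FaithfulSMul.algebraMap_injective (𝓞 k) (𝓞 L)
  have eD : algebraMap k L D = (D' : L) := rfl
  have ea : algebraMap k L a = (a' : L) := rfl
  have eb : algebraMap k L b = (b' : L) := rfl
  have hD0 : D' ≠ 0 := fun h0 => h.hD (by rw [eD, h0]; rfl)
  have hb0' : b' ≠ 0 := by
    rw [hb', Ne, map_eq_zero_iff _ hinj]
    exact hb0
  have ec : 9 * b' + 4 * D' * a' ^ 3 = algebraMap (𝓞 k) (𝓞 L) (9 * b + 4 * D * a ^ 3) := by
    rw [map_add, map_mul, map_mul, map_mul, map_pow, map_ofNat, map_ofNat]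
  have hc0' : 9 * b' + 4 * D' * a' ^ 3 ≠ 0 := by
    rw [ec, Ne, map_eq_zero_iff _ hinj]
    exact hc0
  have ez : algebraMap (𝓞 k) (𝓞 L) (6 * D * b * (9 * b + 4 * D * a ^ 3)) =
      6 * D' * b' * (9 * b' + 4 * D' * a' ^ 3) := by
    rw [map_mul, map_mul, map_mul, ec, map_ofNat]
  rw [ez]
  have hfin := fin_bad (z := 6 * D' * b' * (9 * b' + 4 * D' * a' ^ 3))
    (mul_ne_zero (mul_ne_zero (mul_ne_zero (by norm_num) hD0) hb0') hc0')
  set 𝔅 := hfin.toFinset with h𝔅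
  have hmemB : ∀ w : HeightOneSpectrum (𝓞 L),
      w ∈ 𝔅 ↔ 6 * D' * b' * (9 * b' + 4 * D' * a' ^ 3) ∈ w.asIdeal := fun w => by
    rw [h𝔅, Set.Finite.mem_toFinset]; rfl
  rw [Set.ncard_eq_toFinset_card _ hfin]
  have hDw : ∀ w : HeightOneSpectrum (𝓞 L), (3 : 𝓞 L) ∈ w.asIdeal →
      w.valuation L (D' : L) = 1 ∨ w.valuation L (D' : L) = exp (-1 : ℤ) := by
    intro w hw
    rw [← eD, val_eq3 (k := k) w hw (hunr w hw)]
    apply hD
    rw [H73IS.mem_below, map_ofNat]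
    exact hw
  have h0 := growth_QD (D := D') (a := a') (b := b') hQ hb0' hc0' hunr hDw 𝔅 hmemB h P hP T hT
  have hn := norm_le_fin3 (K := k) (L := L) S hS3 (𝔅.filter fun w => (3 : 𝓞 L) ∈ w.asIdeal ∧
      ¬ BadW w (D' : L) (a' : L) (b' : L))
    (fun w hw => (Finset.mem_filter.mp hw).2.1)
    (fun w hw v hv hle => by
      obtain ⟨-, g1, g2⟩ := Finset.mem_filter.mp hw
      apply g2
      rw [← eD, ← ea, ← eb]
      apply badW_of_below w g1 (hunr w g1)
      rw [below_of_le hle]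
      exact hS v hv)
  rw [Finset.prod_filter] at hn
  have hr1 := rank_succ B
  have hr2 := rank_succ L
  have hr3 := inf_quad hQ
  obtain ⟨hr4, hr5⟩ := embed_le hreal (fun φ => 0 < φ (D : k))
  have hr6 := card_places L (fun ψ => 0 < ψ (algebraMap k L D))
  have hr7 : Nat.card {φ : k →+* ℂ // ¬ ComplexEmbedding.IsReal φ} =
      2 * InfinitePlace.nrComplexPlaces k := by
    rw [Nat.card_eq_fintype_card, InfinitePlace.card_complex_embeddings]
  set R := Nat.card {ψ : L →+* ℝ // 0 < ψ (algebraMap k L D)} with hR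
  set F := Module.finrank ℚ L with hF
  set d := Module.finrank k L with hd
  set A := Nat.card {φ : k →+* ℝ // ¬ 0 < φ (D : k)} with hA
  set c := InfinitePlace.nrComplexPlaces k with hc
  set Sd := (∏ v ∈ S, Ideal.absNorm v.asIdeal) ^ d with hSd
  set Φ := ∏ w ∈ 𝔅, (if (3 : 𝓞 L) ∈ w.asIdeal ∧ ¬ BadW w (D' : L) (a' : L) (b' : L) then
        Ideal.absNorm w.asIdeal else 1) with hΦ
  have hr8 : rank L + 1 ≤ R + (c + A) * d := by
    have hr4' : Nat.card {ψ : L →+* ℝ // ¬ 0 < ψ (algebraMap k L D)} ≤ A * d := hr4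
    rw [hr7] at hr5
    rw [add_mul]
    have : 2 * c * d = 2 * (c * d) := by ring
    omega
  have h8 : 0 < 3 ^ (R + F) := by positivity
  refine Nat.le_of_mul_le_mul_left ?_ h8
  calc 3 ^ (R + F) * Sd ≤ (3 * 3 ^ rank B) * Sd := by
        refine Nat.mul_le_mul_right _ ?_
        rw [← pow_succ', hr1]
        exact Nat.pow_le_pow_right (by norm_num) hr3
    _ ≤ (3 * (3 ^ (rank L + 1) * ((9 ^ 𝔅.card * Φ) * (3 * (P.card * T.card))))) * Sd :=
        Nat.mul_le_mul_right _ (Nat.mul_le_mul_left _ h0)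
    _ = 3 ^ (rank L + 1) * (Sd * Φ) * (9 ^ 𝔅.card * (9 * (P.card * T.card))) := by ring
    _ ≤ 3 ^ (R + (c + A) * d) * 3 ^ F * (9 ^ 𝔅.card * (9 * (P.card * T.card))) :=
        Nat.mul_le_mul_right _ (Nat.mul_le_mul (Nat.pow_le_pow_right (by norm_num) hr8) hn)
    _ = _ := by rw [pow_add, pow_add, pow_mul]; ring

/-- The case where `D` is a square in `L`. -/
theorem growth_sq {D a b : 𝓞 k} (hb0 : b ≠ 0) (hc0 : 9 * b + 4 * D * a ^ 3 ≠ 0)
    (S : Finset (HeightOneSpectrum (𝓞 k))) (hS3 : ∀ v ∈ S, (3 : 𝓞 k) ∈ v.asIdeal)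
    (hS : ∀ v ∈ S, BadW v (D : k) (a : k) (b : k))
    (hunr : ∀ w : HeightOneSpectrum (𝓞 L), (3 : 𝓞 L) ∈ w.asIdeal → (3 : 𝓞 L) ∉ w.asIdeal ^ 2)
    (hreal : ∀ ψ : L →+* ℂ,
      ComplexEmbedding.IsReal (ψ.comp (algebraMap k L)) → ComplexEmbedding.IsReal ψ)
    (hsq : IsSquare (algebraMap k L D))
    {V : WeierstrassCurve L} (h : Is3 V (algebraMap k L D) (algebraMap k L a) (algebraMap k L b))
    (P : Finset V.toAffine.Point) (hP : ∀ X : V.toAffine.Point, ∃ p ∈ P, ∃ S, X = p + 3 • S)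
    (T : Finset (Coch L V))
    (hT : ∀ f, IsCocycle L V f → IsLocTriv L V f → IsCobound L V (fun σ => 3 • f σ) →
      ∃ t ∈ T, IsCobound L V (fun σ => f σ - t σ)) :
    (∏ v ∈ S, Ideal.absNorm v.asIdeal) ^ Module.finrank k L ≤
      (3 ^ (InfinitePlace.nrComplexPlaces k + Nat.card {φ : k →+* ℝ // ¬ 0 < φ (D : k)})) ^
          Module.finrank k L *
        (9 ^ {w : HeightOneSpectrum (𝓞 L) |
          algebraMap (𝓞 k) (𝓞 L) (6 * D * b * (9 * b + 4 * D * a ^ 3)) ∈ w.asIdeal}.ncard *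
          (9 * (P.card * T.card))) := by
  obtain ⟨r, hr⟩ := hsq
  have hrI : _root_.IsIntegral ℤ r := by
    have h1 : _root_.IsIntegral ℤ (r ^ 2) := by
      rw [pow_two, ← hr]
      exact (algebraMap (𝓞 k) (𝓞 L) D).isIntegral_coe
    exact h1.of_pow (by norm_num)
  let δ : 𝓞 L := ⟨r, hrI⟩
  have hδ : (δ : L) = r := rfl
  have hδ2 : δ * δ = algebraMap (𝓞 k) (𝓞 L) D := by
    apply RingOfIntegers.ext
    change r * r = _
    rw [← hr]
    rfl
  have hinj : Function.Injective (algebraMap (𝓞 k) (𝓞 L)) :=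
    FaithfulSMul.algebraMap_injective (𝓞 k) (𝓞 L)
  have hr0 : r ≠ 0 := by
    rintro rfl
    exact h.hD (by rw [hr, mul_zero])
  have hδ0 : δ ≠ 0 := fun h0 => hr0 (by rw [← hδ, h0]; rfl)
  set a' : 𝓞 L := δ * algebraMap (𝓞 k) (𝓞 L) a with ha'
  set b' : 𝓞 L := δ * algebraMap (𝓞 k) (𝓞 L) b with hb'
  have ea : (a' : L) = r * algebraMap k L a := by
    change algebraMap (𝓞 L) L (δ * algebraMap (𝓞 k) (𝓞 L) a) = _
    rw [map_mul]
    rfl
  have eb : (b' : L) = r * algebraMap k L b := by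
    change algebraMap (𝓞 L) L (δ * algebraMap (𝓞 k) (𝓞 L) b) = _
    rw [map_mul]
    rfl
  have hb0' : b' ≠ 0 := mul_ne_zero hδ0 (by rw [Ne, map_eq_zero_iff _ hinj]; exact hb0)
  have ec : 9 * b' + 4 * a' ^ 3 = δ * algebraMap (𝓞 k) (𝓞 L) (9 * b + 4 * D * a ^ 3) := by
    rw [map_add, map_mul, map_mul, map_mul, map_pow, map_ofNat, map_ofNat, ← hδ2]
    ring
  have hc0' : 9 * b' + 4 * a' ^ 3 ≠ 0 := by
    rw [ec]
    exact mul_ne_zero hδ0 (by rw [Ne, map_eq_zero_iff _ hinj]; exact hc0)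
  have ez : algebraMap (𝓞 k) (𝓞 L) (6 * D * b * (9 * b + 4 * D * a ^ 3)) =
      6 * b' * (9 * b' + 4 * a' ^ 3) := by
    rw [ec, map_mul, map_mul, map_mul, map_ofNat, ← hδ2]
    ring
  rw [ez]
  have h' : Is3 V 1 (a' : L) (b' : L) := by
    refine ⟨h.a₁, ?_, h.a₃, ?_, ?_, one_ne_zero, ?_, ?_, h.two, h.three⟩
    · rw [h.a₂, hr, ea]; ring
    · rw [h.a₄, hr, ea, eb]; ring
    · rw [h.a₆, hr, eb]; ring
    · rw [eb]
      exact mul_ne_zero hr0 h.hb
    · have e1 : 9 * (b' : L) + 4 * 1 * (a' : L) ^ 3 = r * (9 * algebraMap k L b +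
          4 * algebraMap k L D * algebraMap k L a ^ 3) := by
        rw [ea, eb, hr]
        ring
      rw [e1]
      exact mul_ne_zero hr0 h.hc
  have h0 := growth_arbL (k := k) hb0' hc0' S hS3 (by
    rintro w h3 ⟨v0, hv0, hw⟩
    have hb := badW_of_below w h3 (hunr w h3) (by
      rw [below_of_le hw]
      exact hS v0 hv0)
    rcases hb with ⟨h1, i, g1, g2⟩ | ⟨h1, -⟩
    · have hr1 : w.valuation L r = 1 := by
        rw [hr, map_mul, ← pow_two] at h1
        exact sq_one h1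
      refine ⟨i, ?_, ?_⟩
      · rw [ii_val, ea, map_mul, hr1, one_mul]
        exact g1
      · rw [ii_val, eb, map_mul, hr1, one_mul]
        exact g2
    · exfalso
      rw [hr, map_mul] at h1
      have h2 : w.valuation L r ≠ 0 := (w.valuation L).ne_zero_iff.2 hr0
      rw [← exp_log h2, ← exp_add, exp_inj] at h1
      omega) hunr h' P hP T hT
  set β := {w : HeightOneSpectrum (𝓞 L) | 6 * b' * (9 * b' + 4 * a' ^ 3) ∈ w.asIdeal}.ncard
    with hβ
  set X := (∏ v ∈ S, Ideal.absNorm v.asIdeal) ^ Module.finrank k L with hX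
  have h1 := inf_ge hreal
  have h2 := rank_succ L
  have h3 : Module.finrank ℚ L = Module.finrank ℚ k * Module.finrank k L :=
    (Module.finrank_mul_finrank ℚ k L).symm
  have h4 : InfinitePlace.nrRealPlaces k + 2 * InfinitePlace.nrComplexPlaces k =
      Module.finrank ℚ k := InfinitePlace.card_add_two_mul_card_eq_rank k
  have h5 : Fintype.card (InfinitePlace k) =
      InfinitePlace.nrRealPlaces k + InfinitePlace.nrComplexPlaces k :=
    InfinitePlace.card_eq_nrRealPlaces_add_nrComplexPlaces k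
  have h6 : 3 ^ Module.finrank ℚ L =
      3 ^ (Fintype.card (InfinitePlace k) * Module.finrank k L) *
        (3 ^ InfinitePlace.nrComplexPlaces k) ^ Module.finrank k L := by
    rw [← pow_mul, ← pow_add, h3, ← h4, h5]
    congr 1
    ring
  have h7 : 3 ^ (Fintype.card (InfinitePlace k) * Module.finrank k L) ≤ 3 * 3 ^ rank L := by
    rw [← pow_succ', h2]
    exact Nat.pow_le_pow_right (by norm_num) h1
  have h8 : 0 < 3 ^ (Fintype.card (InfinitePlace k) * Module.finrank k L) := by positivity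
  have h9 : (3 ^ β : ℕ) ≤ 9 ^ β := Nat.pow_le_pow_left (by norm_num) _
  have h10 : (3 ^ InfinitePlace.nrComplexPlaces k : ℕ) ^ Module.finrank k L ≤
      (3 ^ (InfinitePlace.nrComplexPlaces k + Nat.card {φ : k →+* ℝ // ¬ 0 < φ (D : k)})) ^
          Module.finrank k L :=
    Nat.pow_le_pow_left (Nat.pow_le_pow_right (by norm_num) (Nat.le_add_right _ _)) _
  refine Nat.le_of_mul_le_mul_left ?_ h8
  calc 3 ^ (Fintype.card (InfinitePlace k) * Module.finrank k L) * X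
      ≤ (3 * 3 ^ rank L) * X := Nat.mul_le_mul_right _ h7
    _ = 3 * (X * 3 ^ rank L) := by ring
    _ ≤ 3 * (3 ^ Module.finrank ℚ L * (3 ^ β * (3 * (P.card * T.card)))) :=
        Nat.mul_le_mul_left _ h0
    _ = 3 ^ (Fintype.card (InfinitePlace k) * Module.finrank k L) *
        ((3 ^ InfinitePlace.nrComplexPlaces k) ^ Module.finrank k L *
          (3 ^ β * (9 * (P.card * T.card)))) := by rw [h6]; ring
    _ ≤ _ := Nat.mul_le_mul_left _ (Nat.mul_le_mul h10 (Nat.mul_le_mul_right _ h9))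

/-- Growth of the three-Selmer group, any `D`. -/
theorem growth_allD {D a b : 𝓞 k} (hb0 : b ≠ 0) (hc0 : 9 * b + 4 * D * a ^ 3 ≠ 0)
    (hD : ∀ v : HeightOneSpectrum (𝓞 k), (3 : 𝓞 k) ∈ v.asIdeal →
      v.valuation k (D : k) = 1 ∨ v.valuation k (D : k) = exp (-1 : ℤ))
    (S : Finset (HeightOneSpectrum (𝓞 k))) (hS3 : ∀ v ∈ S, (3 : 𝓞 k) ∈ v.asIdeal)
    (hS : ∀ v ∈ S, BadW v (D : k) (a : k) (b : k))
    (hunr : ∀ w : HeightOneSpectrum (𝓞 L), (3 : 𝓞 L) ∈ w.asIdeal → (3 : 𝓞 L) ∉ w.asIdeal ^ 2)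
    (hreal : ∀ ψ : L →+* ℂ,
      ComplexEmbedding.IsReal (ψ.comp (algebraMap k L)) → ComplexEmbedding.IsReal ψ)
    {V : WeierstrassCurve L} (h : Is3 V (algebraMap k L D) (algebraMap k L a) (algebraMap k L b))
    (P : Finset V.toAffine.Point) (hP : ∀ X : V.toAffine.Point, ∃ p ∈ P, ∃ S, X = p + 3 • S)
    (T : Finset (Coch L V))
    (hT : ∀ f, IsCocycle L V f → IsLocTriv L V f → IsCobound L V (fun σ => 3 • f σ) →
      ∃ t ∈ T, IsCobound L V (fun σ => f σ - t σ)) :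
    (∏ v ∈ S, Ideal.absNorm v.asIdeal) ^ Module.finrank k L ≤
      (3 ^ (InfinitePlace.nrComplexPlaces k + Nat.card {φ : k →+* ℝ // ¬ 0 < φ (D : k)})) ^
          Module.finrank k L *
        (9 ^ {w : HeightOneSpectrum (𝓞 L) |
          algebraMap (𝓞 k) (𝓞 L) (6 * D * b * (9 * b + 4 * D * a ^ 3)) ∈ w.asIdeal}.ncard *
          (9 * (P.card * T.card))) := by
  by_cases hsq : IsSquare (algebraMap k L D)
  · exact growth_sq hb0 hc0 S hS3 hS hunr hreal hsq h P hP T hT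
  · exact growth_nsq hb0 hc0 hD S hS3 hS hunr hreal hsq h P hP T hT

end

/-- Growth of the three-Selmer group in the fields `k L'`, any even character. -/
theorem growth_genD (p : ℕ) [Fact p.Prime] (hp2 : p ≠ 2) (hp3 : p ≠ 3) (k : Type) [Field k]
    [NumberField k] (hk : H68TK.Unr3 k) {D a b : 𝓞 k} (hD0 : D ≠ 0) (hb0 : b ≠ 0)
    (hc0 : 9 * b + 4 * D * a ^ 3 ≠ 0)
    (hD : ∀ v : HeightOneSpectrum (𝓞 k), (3 : 𝓞 k) ∈ v.asIdeal →
      v.valuation k (D : k) = 1 ∨ v.valuation k (D : k) = exp (-1 : ℤ))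
    (S : Finset (HeightOneSpectrum (𝓞 k))) (hS3 : ∀ v ∈ S, (3 : 𝓞 k) ∈ v.asIdeal)
    (hS : ∀ v ∈ S, BadW v (D : k) (a : k) (b : k)) :
    ∃ C : ℕ, ∀ (L' L : Type) [Field L'] [NumberField L'] [Field L] [NumberField L] [Algebra k L]
      (h : L' →+* L), IsR p L' → IntermediateField.adjoin k (Set.range h) = ⊤ →
      ∀ (E : WeierstrassCurve L),
      Is3 E (algebraMap k L D) (algebraMap k L a) (algebraMap k L b) →
      ∀ (P : Finset E.toAffine.Point) (T : Finset (Coch L E)),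
      (∀ X : E.toAffine.Point, ∃ p ∈ P, ∃ S, X = p + 3 • S) →
      (∀ f, IsCocycle L E f → IsLocTriv L E f → IsCobound L E (fun σ => 3 • f σ) →
        ∃ t ∈ T, IsCobound L E (fun σ => f σ - t σ)) →
      (∏ v ∈ S, Ideal.absNorm v.asIdeal) ^ Module.finrank k L ≤
        (3 ^ (InfinitePlace.nrComplexPlaces k + Nat.card {φ : k →+* ℝ // ¬ 0 < φ (D : k)})) ^
            Module.finrank k L * (C * (P.card * T.card)) := by
  set z : 𝓞 k := 6 * D * b * (9 * b + 4 * D * a ^ 3) with hz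
  have hz0 : z ≠ 0 := mul_ne_zero (mul_ne_zero (mul_ne_zero (by norm_num) hD0) hb0) hc0
  set M : ℤ := (Ideal.absNorm (Ideal.span {z}) : ℤ) with hM
  have hM0 : M ≠ 0 := by
    rw [hM]
    have h1 : Ideal.absNorm (Ideal.span {z}) ≠ 0 := by
      rw [Ne, Ideal.absNorm_eq_zero_iff, Ideal.span_singleton_eq_bot]
      exact hz0
    exact_mod_cast h1
  have hzM : z ∣ (M : 𝓞 k) := by
    have h1 := Ideal.absNorm_mem (Ideal.span {z})
    rw [Ideal.mem_span_singleton] at h1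
    rw [hM]
    exact_mod_cast h1
  obtain ⟨s, hs⟩ := bad_count (p := p) hp2 hM0
  refine ⟨9 ^ (Module.finrank ℚ k * s) * 9, ?_⟩
  intro L' L _ _ _ _ _ hL hR hgen E hE P T hP hT
  have hd := finrank_gen hL hgen
  letI := hL.toAlgebra
  haveI := hR.1
  refine (growth_allD hb0 hc0 hD S hS3 hS (H68TK.unr3_gen hp3 hk hL hR hgen) (real_gen hL hgen)
    hE P hP T hT).trans ?_
  refine Nat.mul_le_mul_left _ ?_
  rw [mul_assoc (9 ^ (Module.finrank ℚ k * s)) 9]
  refine Nat.mul_le_mul_right _ (Nat.pow_le_pow_right (n := 9) (by norm_num) ?_)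
  refine le_trans ?_ ((ncard_above (K := L') hM0).trans (Nat.mul_le_mul hd (hs L' hR)))
  refine Set.ncard_le_ncard ?_ (bad_fin (L := L) hM0)
  intro w hw
  change (M : 𝓞 L) ∈ w.asIdeal
  have h1 : algebraMap (𝓞 k) (𝓞 L) z ∈ w.asIdeal := hw
  obtain ⟨c, hc⟩ := hzM
  have h2 : (M : 𝓞 L) = algebraMap (𝓞 k) (𝓞 L) z * algebraMap (𝓞 k) (𝓞 L) c := by
    rw [← map_mul, ← hc, map_intCast]
  rw [h2]
  exact Ideal.mul_mem_right _ _ h1

end H86D
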