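import Pool.Agent.H86.T3D.Tp

/-!
Row Rf (about 220 lines): ramification above three in `B = L(s)`.

Setting: `w'` a place of `B` above the place `w` of `L`, `3 ∈ w`, `w.valuation L 3 = exp (-1)` (unramified). `V := w'.valuation B`; for `x ∈ L`: `V x = (w.valuation L x)^e`, `e` the ramification index (HeightOneSpectrum.valuation_liesOver; see val_eq3 in H86/T3G/Val3.lean), `e f ≤ 2`.
PROOF of unram_two (`w.valuation L D = 1`). Then `V s = 1`. If `3 ∈ w'^2` then `V 3 ≤ exp (-2)`, so `e ≥ 2`, `e = 2`, and all values of `V` on `L` are `exp` of even integers. Take a uniformizer `x ∈ 𝓞 B`, `V x = exp (-1)`; `x = y + z s` with `y = (x + σ x)/2`, `z = (x - σ x)/(2 s)` in `L` (fixed by `σ`), `V y ≤ 1`, `V z ≤ 1` (`V 2 = 1`, and `V (σ x) ≤ 1` as `σ x` is integral).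
 If `V z < 1` then `V z ≤ exp (-2)`, `V (z s) ≤ exp (-2)`, `V y = V (x - z s) < 1`, so `V y ≤ exp (-2)` and `V x ≤ exp (-2)`: contradiction. If `V z = 1` put `ρ := -y / z ∈ L`: `x = z (s - ρ)`, so `V (s - ρ) = exp (-1)`, `V (s + ρ) = V (2 s - (s - ρ)) = 1`, and `exp (-1) = V ((s - ρ)(s + ρ)) = V (D - ρ^2)` is an even value: contradiction.
PROOF of ram_two (`w.valuation L D = exp (-1)`). `V D = exp (-e)` and `V s ^ 2 = V D`, so `e` is even, `e = 2`: `V s = exp (-1)`, `V 3 = exp (-2)`. `f = 1` and `w'` is the only place above `w` (`e f g = 2`), so `sw σ w' = w'` and `N w' = N w`; the map `𝓞 L / w → 𝓞 B / w'` is injective between fields of the same finite order, so surjective: for integral `x ∈ 𝓞 B` there is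
 `y ∈ 𝓞 L` with `x - y ∈ w'`; `σ x - x = σ (x - y) - (x - y) ∈ w'` (`sw σ w' = w'`).
 (For `x ∈ B` with `V x ≤ 1`: `x` is congruent to an algebraic integer, H73IS.int_close.)
 Mathlib for `e f g = 2`: Ideal.sum_ramification_inertia, or for Galois extensions Ideal.ncard_primesOver_mul_ramificationIdxIn_mul_inertiaDegIn; sw_of_under may help: if `sw σ w' ≠ w'`, then `s ∈ w'` and `s ∈ sw σ w'` (`σ s = -s`), so `D = s^2` is divisible by `(w' * sw σ w')^2`, ... ).
PROOF of ram_struct: `κ` from exists_kappa for `w'` with `sw σ w' = w'` (rewrite: `obtain` a ring homomorphism `w'.adicCompletion B →+* w'.adicCompletion B`); `κ s = σ s = -s`; `κ ∘ κ = id` by kappa_unique (`σ (σ x) = x`: `σ` has order two); val; res: for `Valued.v x ≤ 1` take `y ∈ 𝓞 B` with `Valued.v (x - y) < 1` (exists_int_approx in H11/LocFin) and use the integral case.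
-/

set_option autoImplicit false
open scoped Classical

open WithZero WeierstrassCurve IsDedekindDomain NumberField Pool.Agent.H10 Pool.Agent.H11 H55T3 H86T3

namespace H86D

variable {L B : Type} [Field L] [NumberField L] [Field B] [NumberField B] [Algebra L B]

theorem Rf_dec {D : L} {s : B} {σ : B ≃ₐ[L] B} (hQ : QD D s σ) (x : B) :
    ∃ y z : L, x = algebraMap L B y + algebraMap L B z * s := by
  have h2 : (2 : B) ≠ 0 := two_ne_zero
  have hs : ∀ t : L, algebraMap L B t ≠ s := by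
    intro t ht
    have h := hQ.neg
    rw [← ht, σ.commutes] at h
    have h3 : algebraMap L B t = 0 := by
      have h4 : 2 * algebraMap L B t = 0 := by linear_combination h
      exact (mul_eq_zero.1 h4).resolve_left h2
    exact hQ.s0 (by rw [← ht, h3])
  have hli : LinearIndependent L ![(1 : B), s] := by
    rw [LinearIndependent.pair_iff]
    intro a b hab
    rw [Algebra.smul_def, Algebra.smul_def, mul_one] at hab
    have hb : b = 0 := by
      by_contra hb
      have hb' : algebraMap L B b ≠ 0 := (map_ne_zero _).2 hb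
      apply hs (-a / b)
      rw [map_div₀, map_neg, div_eq_iff hb']
      linear_combination -hab
    refine ⟨?_, hb⟩
    rw [hb, map_zero, zero_mul, add_zero] at hab
    exact (map_eq_zero _).1 hab
  have hsp := hli.span_eq_top_of_card_eq_finrank' (by rw [Fintype.card_fin, hQ.rk])
  have hx : x ∈ Submodule.span L (Set.range ![(1 : B), s]) := by rw [hsp]; trivial
  rw [Matrix.range_cons, Matrix.range_cons, Matrix.range_empty, Set.union_empty,
    Set.singleton_union, Submodule.mem_span_pair] at hx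
  obtain ⟨a, b, h⟩ := hx
  exact ⟨a, b, by rw [← h, Algebra.smul_def, Algebra.smul_def, mul_one]⟩

theorem Rf_sig {D : L} {s : B} {σ : B ≃ₐ[L] B} (hQ : QD D s σ) (y z : L) :
    σ (algebraMap L B y + algebraMap L B z * s) =
      algebraMap L B y + algebraMap L B (-z) * s := by
  rw [map_add, map_mul, σ.commutes, σ.commutes, hQ.neg, map_neg]
  ring

theorem Rf_pow (w : HeightOneSpectrum (𝓞 L)) (w' : HeightOneSpectrum (𝓞 B)) (hov : Over w w') :
    ∃ e : ℕ, ∀ x : L, w'.valuation B (algebraMap L B x) = w.valuation L x ^ e := by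
  have hb : H73IS.below L w' = w := by
    apply HeightOneSpectrum.ext
    have hmax : w.asIdeal.IsMaximal := w.isMaximal
    exact (hmax.eq_of_le (H73IS.below L w').isPrime.ne_top fun y hy => hov y hy).symm
  have : w'.asIdeal.LiesOver (H73IS.below L w').asIdeal := ⟨rfl⟩
  refine ⟨(H73IS.below L w').asIdeal.ramificationIdx' w'.asIdeal, fun x => ?_⟩
  rw [← HeightOneSpectrum.valuation_liesOver B (H73IS.below L w') w' x, hb]

theorem Rf_exp {w : HeightOneSpectrum (𝓞 L)} {w' : HeightOneSpectrum (𝓞 B)} {e : ℕ}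
    (he : ∀ x : L, w'.valuation B (algebraMap L B x) = w.valuation L x ^ e) {t : L} (ht : t ≠ 0) :
    ∃ n : ℤ, w'.valuation B (algebraMap L B t) = exp ((e : ℤ) * n) := by
  have h0 : w.valuation L t ≠ 0 := (Valuation.ne_zero_iff _).2 ht
  refine ⟨log (w.valuation L t), ?_⟩
  rw [he t]
  conv_lhs => rw [← exp_log h0, ← exp_nsmul]
  rw [nsmul_eq_mul]

theorem Rf_gap {w : HeightOneSpectrum (𝓞 L)} {w' : HeightOneSpectrum (𝓞 B)} {e : ℕ}
    (he : ∀ x : L, w'.valuation B (algebraMap L B x) = w.valuation L x ^ e) (he1 : e ≠ 1) {t : L}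
    (ht : w'.valuation B (algebraMap L B t) < 1) :
    w'.valuation B (algebraMap L B t) ≤ exp (-2 : ℤ) := by
  by_cases h0 : t = 0
  · rw [h0, map_zero, map_zero]
    exact zero_le
  obtain ⟨n, hn⟩ := Rf_exp he h0
  rw [hn, ← exp_zero, exp_lt_exp] at ht
  rw [hn, exp_le_exp]
  by_contra h
  have h1 : (e : ℤ) * n = -1 := by omega
  have h2 : (e : ℤ) ∣ 1 := ⟨-n, by linarith⟩
  have h3 : (e : ℤ) = 1 := Int.eq_one_of_dvd_one (Int.natCast_nonneg _) h2
  exact he1 (by exact_mod_cast h3)

theorem Rf_three {w : HeightOneSpectrum (𝓞 L)} {w' : HeightOneSpectrum (𝓞 B)} (hov : Over w w')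
    (h3 : w.valuation L 3 = exp (-1 : ℤ)) : w'.valuation B 3 < 1 := by
  have h := hov.valuation_le (x := 3) (k := 1) (by rw [h3, Nat.cast_one])
  rw [map_ofNat] at h
  refine lt_of_le_of_lt h ?_
  rw [← exp_zero, exp_lt_exp]
  norm_num

theorem Rf_two {w : HeightOneSpectrum (𝓞 L)} {w' : HeightOneSpectrum (𝓞 B)} (hov : Over w w')
    (h3 : w.valuation L 3 = exp (-1 : ℤ)) : w'.valuation B 2 = 1 := by
  have h := Rf_three hov h3
  have e1 : (2 : B) = 3 - 1 := by norm_num
  rw [e1]
  rw [← Valuation.map_one (w'.valuation B)] at h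
  rw [Valuation.map_sub_eq_of_lt_right _ h, Valuation.map_one]

theorem Rf_unif (w' : HeightOneSpectrum (𝓞 B)) : ∃ x : 𝓞 B,
    w'.valuation B (x : B) = exp (-1 : ℤ) := by
  obtain ⟨x, hx⟩ := w'.intValuation_exists_uniformizer
  exact ⟨x, by rw [← hx]; exact w'.valuation_of_algebraMap (K := B) x⟩

theorem Rf_one {D : L} {s : B} {σ : B ≃ₐ[L] B} (hQ : QD D s σ)
    {w : HeightOneSpectrum (𝓞 L)} {w' : HeightOneSpectrum (𝓞 B)} (hov : Over w w')
    (h3 : w.valuation L 3 = exp (-1 : ℤ)) (hD : w.valuation L D = 1) {e : ℕ}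
    (he : ∀ x : L, w'.valuation B (algebraMap L B x) = w.valuation L x ^ e) : e = 1 := by
  by_contra he1
  have h2 := Rf_two hov h3
  have hs : w'.valuation B s = 1 := by
    have h := he D
    rw [hD, one_pow, ← hQ.sq, map_pow] at h
    have h0 : w'.valuation B s ≠ 0 := (Valuation.ne_zero_iff _).2 hQ.s0
    rw [← exp_log h0, ← exp_nsmul, ← exp_zero, exp_inj, nsmul_eq_mul] at h
    have h4 : log (w'.valuation B s) = 0 := by
      push_cast at h
      omega
    rw [← exp_log h0, h4, exp_zero]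
  have hlt : exp (-1 : ℤ) < (1 : WithZero (Multiplicative ℤ)) := by
    rw [← exp_zero, exp_lt_exp]
    norm_num
  have hlt2 : exp (-2 : ℤ) < (exp (-1 : ℤ) : WithZero (Multiplicative ℤ)) := by
    rw [exp_lt_exp]
    norm_num
  obtain ⟨x, hx⟩ := Rf_unif w'
  have hσx : w'.valuation B (σ x) ≤ 1 :=
    w'.valuation_le_one (K := B) (RingOfIntegers.mapRingEquiv (σ : B ≃+* B) x)
  obtain ⟨y, z, hxy⟩ := Rf_dec hQ (x : B)
  have hσ := Rf_sig hQ y z
  rw [← hxy] at hσ
  have hz : w'.valuation B (algebraMap L B z) ≤ 1 := by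
    have h4 : (x : B) - σ x = 2 * algebraMap L B z * s := by
      rw [hσ, map_neg]
      linear_combination hxy
    have h5 : w'.valuation B ((x : B) - σ x) ≤ 1 :=
      (Valuation.map_sub _ _ _).trans (max_le (hx.le.trans hlt.le) hσx)
    rwa [h4, map_mul, map_mul, h2, hs, one_mul, mul_one] at h5
  rcases hz.lt_or_eq with hz1 | hz1
  · have hzs : w'.valuation B (algebraMap L B z * s) < 1 := by rwa [map_mul, hs, mul_one]
    have hy : w'.valuation B (algebraMap L B y) < 1 := by
      have h4 : algebraMap L B y = (x : B) - algebraMap L B z * s := by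
        linear_combination -hxy
      rw [h4]
      exact Valuation.map_sub_lt _ (hx.le.trans_lt hlt) hzs
    have h5 := Rf_gap he he1 hy
    have h6 := Rf_gap he he1 hz1
    have h7 : w'.valuation B (x : B) ≤ exp (-2 : ℤ) := by
      rw [hxy]
      refine (Valuation.map_add _ _ _).trans (max_le h5 ?_)
      rwa [map_mul, hs, mul_one]
    rw [hx] at h7
    exact absurd hlt2 (not_lt.2 h7)
  · have hz0 : algebraMap L B z ≠ 0 := by
      intro h
      rw [h, map_zero] at hz1
      exact zero_ne_one hz1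
    have hp : w'.valuation B (s + algebraMap L B (y / z)) = exp (-1 : ℤ) := by
      have h4 : (x : B) = algebraMap L B z * (s + algebraMap L B (y / z)) := by
        rw [map_div₀, hxy]
        field_simp
        ring
      rw [h4, map_mul, hz1, one_mul] at hx
      exact hx
    have h2s : w'.valuation B (2 * s) = 1 := by rw [map_mul, h2, hs, one_mul]
    have hm : w'.valuation B (s - algebraMap L B (y / z)) = 1 := by
      have h4 : s - algebraMap L B (y / z) = 2 * s - (s + algebraMap L B (y / z)) := by ring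
      rw [h4, Valuation.map_sub_eq_of_lt_left _ (by rw [hp, h2s]; exact hlt), h2s]
    have hD2 : w'.valuation B (algebraMap L B (D - (y / z) ^ 2)) = exp (-1 : ℤ) := by
      have h4 : algebraMap L B (D - (y / z) ^ 2) =
          (s + algebraMap L B (y / z)) * (s - algebraMap L B (y / z)) := by
        rw [map_sub, ← hQ.sq, map_pow]
        ring
      rw [h4, map_mul, hp, hm, mul_one]
    have h5 := Rf_gap he he1 (t := D - (y / z) ^ 2) (by rw [hD2]; exact hlt)
    rw [hD2] at h5
    exact absurd hlt2 (not_lt.2 h5)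

theorem Rf_ramS {D : L} {s : B} {σ : B ≃ₐ[L] B} (hQ : QD D s σ)
    {w : HeightOneSpectrum (𝓞 L)} {w' : HeightOneSpectrum (𝓞 B)} (hov : Over w w')
    (hD : w.valuation L D = exp (-1 : ℤ)) {e : ℕ}
    (he : ∀ x : L, w'.valuation B (algebraMap L B x) = w.valuation L x ^ e) :
    e = 2 ∧ w'.valuation B s = exp (-1 : ℤ) := by
  have hDe : w'.valuation B (algebraMap L B D) = exp (-(e : ℤ)) := by
    rw [he D, hD, ← exp_nsmul, nsmul_eq_mul, mul_neg, mul_one]
  have h0 : w'.valuation B s ≠ 0 := (Valuation.ne_zero_iff _).2 hQ.s0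
  have he0 : 1 ≤ e := by
    have h := hov.valuation_le (x := D) (k := 1) (by rw [hD, Nat.cast_one])
    rw [hDe, exp_le_exp] at h
    push_cast at h
    omega
  obtain ⟨m, hm⟩ : ∃ m : ℤ, w'.valuation B s = exp m := ⟨_, (exp_log h0).symm⟩
  have hme : 2 * m = -(e : ℤ) := by
    have h := hDe
    rw [← hQ.sq, map_pow, hm, ← exp_nsmul, exp_inj, nsmul_eq_mul] at h
    exact_mod_cast h
  obtain ⟨x, hx⟩ := Rf_unif w'
  obtain ⟨y, z, hxy⟩ := Rf_dec hQ (x : B)
  have hA : ∀ n : ℤ, (e : ℤ) * n ≠ -1 := by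
    intro n hn
    have h1 : (e : ℤ) = 2 * -m := by linarith
    rw [h1, mul_assoc] at hn
    omega
  have hB : ∀ n : ℤ, (e : ℤ) * n + m = -1 → m = -1 := by
    intro n hn
    have h1 : (e : ℤ) = 2 * -m := by linarith
    rw [h1] at hn
    have h2 : m ∣ 1 := ⟨2 * n - 1, by linarith⟩
    have h3 : 0 ≤ -m := by omega
    have h4 : -m = 1 := Int.eq_one_of_dvd_one h3 ((neg_dvd).2 h2)
    omega
  have hm1 : m = -1 := by
    by_cases hy0 : y = 0
    · have hz0 : z ≠ 0 := by
        intro hz0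
        rw [hxy, hy0, hz0, map_zero, zero_mul, add_zero, map_zero] at hx
        exact exp_ne_zero hx.symm
      obtain ⟨n, hn⟩ := Rf_exp he hz0
      rw [hxy, hy0, map_zero, zero_add, map_mul, hn, hm, ← exp_add, exp_inj] at hx
      exact hB n hx
    by_cases hz0 : z = 0
    · obtain ⟨n, hn⟩ := Rf_exp he hy0
      rw [hxy, hz0, map_zero, zero_mul, add_zero, hn, exp_inj] at hx
      exact absurd hx (hA n)
    obtain ⟨n, hn⟩ := Rf_exp he hy0
    obtain ⟨n', hn'⟩ := Rf_exp he hz0
    have hzs : w'.valuation B (algebraMap L B z * s) = exp ((e : ℤ) * n' + m) := by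
      rw [map_mul, hn', hm, ← exp_add]
    have hne : w'.valuation B (algebraMap L B y) ≠ w'.valuation B (algebraMap L B z * s) := by
      rw [hn, hzs, Ne, exp_inj]
      intro h
      have h1 : (e : ℤ) = 2 * -m := by linarith
      rw [h1] at h
      have h2 : m * (2 * n' - 2 * n - 1) = 0 := by linarith
      rcases mul_eq_zero.1 h2 with h3 | h3
      · omega
      · omega
    have hmax := Valuation.map_add_of_distinct_val _ hne
    rw [← hxy, hx, hn, hzs] at hmax
    rcases max_choice (exp ((e : ℤ) * n) : WithZero (Multiplicative ℤ)) (exp ((e : ℤ) * n' + m))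
      with h | h
    · rw [h, exp_inj] at hmax
      exact absurd hmax.symm (hA n)
    · rw [h, exp_inj] at hmax
      exact hB n' hmax.symm
  refine ⟨by omega, by rw [hm, hm1]⟩

theorem Rf_max {s : B} {w : HeightOneSpectrum (𝓞 L)} {w' : HeightOneSpectrum (𝓞 B)}
    (he : ∀ x : L, w'.valuation B (algebraMap L B x) = w.valuation L x ^ 2)
    (hs : w'.valuation B s = exp (-1 : ℤ)) (y z : L) :
    w'.valuation B (algebraMap L B y + algebraMap L B z * s) =
      max (w'.valuation B (algebraMap L B y)) (w'.valuation B (algebraMap L B z * s)) := by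
  by_cases hy0 : y = 0
  · rw [hy0, map_zero, map_zero, zero_add, max_eq_right zero_le]
  by_cases hz0 : z = 0
  · rw [hz0, map_zero, zero_mul, map_zero, add_zero, max_eq_left zero_le]
  obtain ⟨n, hn⟩ := Rf_exp he hy0
  obtain ⟨n', hn'⟩ := Rf_exp he hz0
  apply Valuation.map_add_of_distinct_val
  rw [hn, map_mul, hn', hs, ← exp_add, Ne, exp_inj]
  push_cast
  omega

theorem Rf_sinv {D : L} {s : B} {σ : B ≃ₐ[L] B} (hQ : QD D s σ)
    {w : HeightOneSpectrum (𝓞 L)} {w' : HeightOneSpectrum (𝓞 B)}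
    (he : ∀ x : L, w'.valuation B (algebraMap L B x) = w.valuation L x ^ 2)
    (hs : w'.valuation B s = exp (-1 : ℤ)) (x : B) :
    w'.valuation B (σ x) = w'.valuation B x := by
  obtain ⟨y, z, rfl⟩ := Rf_dec hQ x
  rw [Rf_sig hQ, Rf_max he hs, Rf_max he hs, map_neg, neg_mul, Valuation.map_neg]

theorem Rf_low {s : B} {w : HeightOneSpectrum (𝓞 L)} {w' : HeightOneSpectrum (𝓞 B)}
    (he : ∀ x : L, w'.valuation B (algebraMap L B x) = w.valuation L x ^ 2)
    (hs : w'.valuation B s = exp (-1 : ℤ)) {y z : L}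
    (h : w'.valuation B (algebraMap L B y + algebraMap L B z * s) ≤ 1) :
    w'.valuation B (algebraMap L B y) ≤ 1 ∧ w'.valuation B (algebraMap L B z * s) < 1 := by
  rw [Rf_max he hs, max_le_iff] at h
  refine ⟨h.1, ?_⟩
  by_cases hz0 : z = 0
  · rw [hz0, map_zero, zero_mul, map_zero]
    exact zero_lt_one
  obtain ⟨n', hn'⟩ := Rf_exp he hz0
  have h2 := h.2
  rw [map_mul, hn', hs, ← exp_add, ← exp_zero, exp_le_exp] at h2
  rw [map_mul, hn', hs, ← exp_add, ← exp_zero, exp_lt_exp]
  push_cast at h2 ⊢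
  omega

theorem Rf_res {D : L} {s : B} {σ : B ≃ₐ[L] B} (hQ : QD D s σ)
    {w : HeightOneSpectrum (𝓞 L)} {w' : HeightOneSpectrum (𝓞 B)}
    (he : ∀ x : L, w'.valuation B (algebraMap L B x) = w.valuation L x ^ 2)
    (hs : w'.valuation B s = exp (-1 : ℤ)) {x : B} (hx : w'.valuation B x ≤ 1) :
    w'.valuation B (σ x - x) < 1 := by
  obtain ⟨y, z, rfl⟩ := Rf_dec hQ x
  have h := (Rf_low he hs hx).2
  have h1 : σ (algebraMap L B y + algebraMap L B z * s) -
      (algebraMap L B y + algebraMap L B z * s) =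
      -(algebraMap L B z * s) - algebraMap L B z * s := by
    rw [Rf_sig hQ, map_neg]
    ring
  rw [h1]
  exact Valuation.map_sub_lt _ (by rwa [Valuation.map_neg]) h

theorem Rf_sw {D : L} {s : B} {σ : B ≃ₐ[L] B} (hQ : QD D s σ)
    {w : HeightOneSpectrum (𝓞 L)} {w' : HeightOneSpectrum (𝓞 B)}
    (he : ∀ x : L, w'.valuation B (algebraMap L B x) = w.valuation L x ^ 2)
    (hs : w'.valuation B s = exp (-1 : ℤ)) : sw σ w' = w' := by
  apply HeightOneSpectrum.ext
  ext x
  rw [mem_sw, ← w'.valuation_lt_one_iff_mem (K := B), ← w'.valuation_lt_one_iff_mem (K := B)]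
  change w'.valuation B (σ.symm (x : B)) < 1 ↔ w'.valuation B (x : B) < 1
  rw [← Rf_sinv hQ he hs (σ.symm (x : B)), σ.apply_symm_apply]

theorem Rf_norm {D : L} {s : B} {σ : B ≃ₐ[L] B} (hQ : QD D s σ)
    {w : HeightOneSpectrum (𝓞 L)} {w' : HeightOneSpectrum (𝓞 B)} (hov : Over w w')
    (he : ∀ x : L, w'.valuation B (algebraMap L B x) = w.valuation L x ^ 2)
    (hs : w'.valuation B s = exp (-1 : ℤ)) :
    Ideal.absNorm w'.asIdeal = Ideal.absNorm w.asIdeal := by
  have hle : w.asIdeal ≤ w'.asIdeal.comap (algebraMap (𝓞 L) (𝓞 B)) := fun x hx => hov x hx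
  let f : 𝓞 L ⧸ w.asIdeal →+* 𝓞 B ⧸ w'.asIdeal :=
    Ideal.quotientMap w'.asIdeal (algebraMap (𝓞 L) (𝓞 B)) hle
  have hinj : Function.Injective f := by
    have : w.asIdeal.IsMaximal := w.isMaximal
    have : w'.asIdeal.IsPrime := w'.isPrime
    let _ : Field (𝓞 L ⧸ w.asIdeal) := Ideal.Quotient.field w.asIdeal
    exact RingHom.injective f
  have hsur : Function.Surjective f := by
    intro q
    obtain ⟨x, rfl⟩ := Ideal.Quotient.mk_surjective q
    obtain ⟨y, z, hxy⟩ := Rf_dec hQ (x : B)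
    have hx : w'.valuation B (x : B) ≤ 1 := w'.valuation_le_one (K := B) x
    have hx' := hx
    rw [hxy] at hx'
    obtain ⟨h1, h2⟩ := Rf_low he hs hx'
    have h3 : w.valuation L y ≤ 1 := by
      rw [he y] at h1
      by_contra h
      rw [not_le] at h
      exact absurd h1 (not_le.2 (one_lt_pow' h two_ne_zero))
    obtain ⟨a, ha⟩ := H73IS.int_close w y h3
    refine ⟨Ideal.Quotient.mk _ a, ?_⟩
    rw [Ideal.quotientMap_mk, Ideal.Quotient.eq, ← w'.valuation_lt_one_iff_mem (K := B)]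
    have h4 : algebraMap L B a - (x : B) = -(algebraMap L B (y - a)) - algebraMap L B z * s := by
      rw [hxy, map_sub]
      ring
    change w'.valuation B (algebraMap L B a - (x : B)) < 1
    rw [h4]
    refine Valuation.map_sub_lt _ ?_ h2
    rw [Valuation.map_neg, he]
    exact pow_lt_one' ha two_ne_zero
  rw [Ideal.absNorm_apply, Ideal.absNorm_apply, Submodule.cardQuot_apply,
    Submodule.cardQuot_apply]
  exact (Nat.card_eq_of_bijective f ⟨hinj, hsur⟩).symm

theorem Rf_kap {D : L} {s : B} {σ : B ≃ₐ[L] B} (hQ : QD D s σ)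
    {w : HeightOneSpectrum (𝓞 L)} {w' : HeightOneSpectrum (𝓞 B)}
    (he : ∀ x : L, w'.valuation B (algebraMap L B x) = w.valuation L x ^ 2)
    (h3 : w.valuation L 3 = exp (-1 : ℤ)) (hs : w'.valuation B s = exp (-1 : ℤ)) :
    ∃ κ : w'.adicCompletion B →+* w'.adicCompletion B,
        Ram (Valued.v : Valuation (w'.adicCompletion B) (WithZero (Multiplicative ℤ)))
          (algebraMap B (w'.adicCompletion B) s) κ ∧
        ∀ x : B, κ (algebraMap B _ x) = algebraMap B _ (σ x) := by
  have hex := exists_kappa σ w'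
  rw [Rf_sw hQ he hs] at hex
  obtain ⟨κ, h1, h2⟩ := hex
  have hinv : κ.comp κ = RingHom.id _ := by
    apply kappa_unique w' w'
    · intro x
      rw [RingHom.comp_apply, RingHom.id_apply, h1, h1]
      obtain ⟨y, z, rfl⟩ := Rf_dec hQ x
      rw [Rf_sig hQ, Rf_sig hQ, neg_neg]
    · intro x
      rw [RingHom.comp_apply, h2, h2]
    · intro x
      rw [RingHom.id_apply]
  refine ⟨κ, ⟨?_, ?_, ?_, ?_, h2, ?_⟩, h1⟩
  · have h4 : (3 : w'.adicCompletion B) = algebraMap B _ (algebraMap L B 3) := by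
      rw [map_ofNat, map_ofNat]
    rw [h4, valued_alg, he, h3, ← exp_nsmul]
    rfl
  · rw [valued_alg, hs]
  · exact fun x => RingHom.congr_fun hinv x
  · rw [h1, hQ.neg, map_neg]
  · intro x hx
    obtain ⟨a, ha⟩ := exists_int_approx w' x hx 1 one_ne_zero
    set b : B := algebraMap (𝓞 B) B a with hb
    have hb1 : w'.valuation B b ≤ 1 := w'.valuation_le_one (K := B) a
    have h4 : κ x - x = κ (x - algebraMap B _ b) - (x - algebraMap B _ b) +
        algebraMap B _ (σ b - b) := by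
      rw [map_sub, map_sub, h1]
      ring
    rw [h4]
    refine Valuation.map_add_lt _ (Valuation.map_sub_lt _ ?_ ha) ?_
    · rw [h2]
      exact ha
    · rw [valued_alg]
      exact Rf_res hQ he hs hb1

theorem unram_two {D : L} {s : B} {σ : B ≃ₐ[L] B} (hQ : QD D s σ)
    (w : HeightOneSpectrum (𝓞 L)) (w' : HeightOneSpectrum (𝓞 B)) (hov : Over w w')
    (h3 : w.valuation L 3 = exp (-1 : ℤ)) (hD : w.valuation L D = 1) :
    (3 : 𝓞 B) ∉ w'.asIdeal ^ 2 ∧ ∀ x : L, w'.valuation B (algebraMap L B x) = w.valuation L x := by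
  obtain ⟨e, he⟩ := Rf_pow w w' hov
  have he1 := Rf_one hQ hov h3 hD he
  rw [he1] at he
  have hv : ∀ x : L, w'.valuation B (algebraMap L B x) = w.valuation L x := fun x => by
    rw [he x, pow_one]
  refine ⟨fun h => ?_, hv⟩
  rw [← w'.intValuation_le_pow_iff_mem, ← w'.valuation_of_algebraMap (K := B)] at h
  have h4 := hv 3
  rw [h3, map_ofNat] at h4
  change w'.valuation B (3 : B) ≤ exp (-((2 : ℕ) : ℤ)) at h
  rw [h4, exp_le_exp] at h
  norm_num at h

theorem ram_two {D : L} {s : B} {σ : B ≃ₐ[L] B} (hQ : QD D s σ)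
    (w : HeightOneSpectrum (𝓞 L)) (w' : HeightOneSpectrum (𝓞 B)) (hov : Over w w')
    (h3 : w.valuation L 3 = exp (-1 : ℤ)) (hD : w.valuation L D = exp (-1 : ℤ)) :
    sw σ w' = w' ∧ Ideal.absNorm w'.asIdeal = Ideal.absNorm w.asIdeal ∧
      (∀ x : L, w'.valuation B (algebraMap L B x) = w.valuation L x ^ 2) ∧
      ∃ κ : w'.adicCompletion B →+* w'.adicCompletion B,
        Ram (Valued.v : Valuation (w'.adicCompletion B) (WithZero (Multiplicative ℤ)))
          (algebraMap B (w'.adicCompletion B) s) κ ∧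
        ∀ x : B, κ (algebraMap B _ x) = algebraMap B _ (σ x) := by
  obtain ⟨e, he⟩ := Rf_pow w w' hov
  obtain ⟨he2, hs⟩ := Rf_ramS hQ hov hD he
  rw [he2] at he
  exact ⟨Rf_sw hQ he hs, Rf_norm hQ hov he hs, he, Rf_kap hQ he h3 hs⟩

end H86D
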