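import Pool.Agent.H86.T3D.Df
import Pool.Agent.H10.Comp

/-!
Row Tp (about 180 lines): transport by the automorphism.

PROOF of sw_val: `(sw σ w)` and `w`: for `x ∈ 𝓞 B`: `x ∈ (sw σ w)^n ↔ σ⁻¹ x ∈ w^n` (ideal comap by a ring isomorphism; powers: Ideal.comap/map of a ring equivalence commutes with powers, `Ideal.map_pow`), so `(sw σ w).valuation B x = w.valuation B (σ.symm x)` for integral `x` (intValuation_le_pow_iff_mem), then for all `x = n/d`.
 Hence `(sw σ w).valuation B (σ x) = w.valuation B x`.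
PROOF of exists_kappa: `adicLift w ((algebraMap B ((sw σ w).adicCompletion B)).comp σ) ..` (H10/Comp.lean; as `Over.map`, `Over.small` there: small by sw_val and valuedAdicCompletion_eq_valuation'). The formula: adicLift_algebraMap. Valuations: `Valued.v (κ x) = Valued.v x` for `x ∈ B` by sw_val; in general by density: for `x ≠ 0` there is `y ∈ B` with
 `Valued.v (x - y) < Valued.v x` (density of `B` in the completion), and `κ` is continuous (continuous_adicLift), so ... (or: the set of `x` with `Valued.v (κ x) = Valued.v x`: both sides are locally constant away from 0 (`Valued.locally_const`), `B` is dense.)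
PROOF of kappa_unique (two ring homomorphisms `w.adicCompletion B → F'` which agree on `B` and preserve the valuation are equal): they are continuous; `B` is dense; `F'` is Hausdorff (`DenseRange.equalizer`, density: the map `B → adicCompletion`; see UniformSpace.Completion.denseRange_coe, HeightOneSpectrum.denseRange_algebraMap or H10 / H11 (exists_int_approx in H11/LocFin)).
PROOF of locSol_map: apply the ring homomorphism. PROOF of locSol_neg_inv: if `d = t^3` then `d⁻¹ = (t⁻¹)^3`. If `d^2 v^3 - U^3 = d (6 a U v + 2 c)`: take `(U', v') = (v, U)`: `(d⁻¹)^2 U^3 - v^3 = d⁻¹ (6 (-a) v U + 2 (-c))` (multiply by `d^2`).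
PROOF of sw_of_under: the two places of `B` above a place of `L` are conjugate: `σ` generates `Gal(B/L)` (order two; `QD`: B/L is Galois of degree two, `σ ≠ 1`), transitivity of the Galois group on the primes above (`Ideal.exists_map_eq_of_isGalois` or similar; grep in Pool/Agent) : `w₂ = w₁` or `w₂ = sw σ w₁`.
-/

set_option autoImplicit false
open scoped Classical

open WithZero WeierstrassCurve IsDedekindDomain NumberField Pool.Agent.H10 Pool.Agent.H11 H55T3 H86T3

namespace H86D

section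

variable {L B : Type} [Field L] [NumberField L] [Field B] [NumberField B] [Algebra L B]

theorem Tp_mem (σ : B ≃ₐ[L] B) (w : HeightOneSpectrum (𝓞 B)) (y : 𝓞 B) (hy : y ∈ w.asIdeal) :
    (RingOfIntegers.mapRingEquiv (σ : B ≃+* B)) y ∈ (sw σ w).asIdeal := by
  rw [mem_sw]
  have h2 : (RingOfIntegers.mapRingEquiv (σ.symm : B ≃+* B))
      (RingOfIntegers.mapRingEquiv (σ : B ≃+* B) y) = y := by
    apply RingOfIntegers.ext
    change σ.symm (σ (y : B)) = y
    exact σ.symm_apply_apply _
  rw [h2]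
  exact hy

theorem sw_val (σ : B ≃ₐ[L] B) (w : HeightOneSpectrum (𝓞 B)) (x : B) :
    (sw σ w).valuation B (σ x) = w.valuation B x := by
  obtain ⟨w', h1, -⟩ := Pool.Agent.H10.exists_conj σ (sw σ w)
  have h2 : w = w' := by
    apply HeightOneSpectrum.ext
    refine w.isMaximal.eq_of_le w'.isPrime.ne_top ?_
    intro y hy
    have h3 := Tp_mem σ w y hy
    have h4 : (sw σ w).valuation B
        (((RingOfIntegers.mapRingEquiv (σ : B ≃+* B)) y : 𝓞 B) : B) < 1 :=
      (HeightOneSpectrum.valuation_lt_one_iff_mem (sw σ w) _).2 h3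
    have h5 : (((RingOfIntegers.mapRingEquiv (σ : B ≃+* B)) y : 𝓞 B) : B) = σ (y : B) := rfl
    rw [h5, h1] at h4
    exact (HeightOneSpectrum.valuation_lt_one_iff_mem w' _).1 h4
  rw [h1, ← h2]

theorem Tp_small (σ : B ≃ₐ[L] B) (w : HeightOneSpectrum (𝓞 B)) :
    ∀ U ∈ nhds (0 : (sw σ w).adicCompletion B), ∃ k : ℕ, ∀ x : B,
      w.valuation B x ≤ exp (-(k : ℤ)) →
      ((algebraMap B ((sw σ w).adicCompletion B)).comp (σ : B →+* B)) x ∈ U := by
  intro U hU
  rw [Valued.mem_nhds_zero] at hU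
  obtain ⟨γ, hγ⟩ := hU
  obtain ⟨k, hk⟩ := exists_exp_neg_natCast_lt
    (x := MonoidWithZeroHom.ValueGroup₀.embedding γ.1) (by simp)
  refine ⟨k, fun x hx => hγ ?_⟩
  change Valued.v.restrict _ < γ.1
  rw [Valuation.restrict_lt_iff_lt_embedding]
  refine lt_of_le_of_lt ?_ hk
  have h1 := (sw σ w).valuedAdicCompletion_eq_valuation' (K := B) (σ x)
  change Valued.v (algebraMap B ((sw σ w).adicCompletion B) (σ x)) = _ at h1
  change Valued.v (algebraMap B ((sw σ w).adicCompletion B) (σ x)) ≤ _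
  rw [h1, sw_val]
  exact hx

theorem Tp_open (w : HeightOneSpectrum (𝓞 B)) (t : w.adicCompletion B)
    {γ : WithZero (Multiplicative ℤ)} (hγ : γ ≠ 0) :
    IsOpen {y : w.adicCompletion B | Valued.v (y - t) < γ} := by
  have h1 : IsOpen {y : w.adicCompletion B | Valued.v y < γ} := by
    obtain ⟨u, hu⟩ := w.valuedAdicCompletion_surjective B γ
    have := Valued.isOpen_ball (w.adicCompletion B) (Valued.v.restrict u)
    simp_rw [Valuation.restrict_lt_iff] at this
    rwa [hu] at this
  exact h1.preimage (continuous_sub_right t)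

theorem Tp_lt {F : Type*} [Field F] (V : Valuation F (WithZero (Multiplicative ℤ))) {x y : F}
    (h : V (y - x) < V x) : V y = V x := by
  have h1 := Valuation.map_add_eq_of_lt_left V h
  rw [add_sub_cancel] at h1
  exact h1

theorem exists_kappa (σ : B ≃ₐ[L] B) (w : HeightOneSpectrum (𝓞 B)) :
    ∃ κ : w.adicCompletion B →+* (sw σ w).adicCompletion B,
      (∀ x : B, κ (algebraMap B _ x) = algebraMap B _ (σ x)) ∧
      ∀ x, (Valued.v (κ x) : WithZero (Multiplicative ℤ)) = Valued.v x := by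
  obtain ⟨κ, hκ⟩ : ∃ κ : w.adicCompletion B →+* (sw σ w).adicCompletion B,
    κ = adicLift w ((algebraMap B ((sw σ w).adicCompletion B)).comp (σ : B →+* B))
      (continuous_fromVal w _ (Tp_small σ w)) := ⟨_, rfl⟩
  have hc : Continuous κ := by
    rw [hκ]
    exact continuous_adicLift w _ _
  have hB : ∀ x : B, κ (algebraMap B _ x) = algebraMap B _ (σ x) := by
    intro x
    rw [hκ]
    exact adicLift_algebraMap w _ _ x
  refine ⟨κ, hB, ?_⟩
  intro x
  by_cases hx : x = 0
  · rw [hx, map_zero, map_zero, map_zero]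
  have hκx : κ x ≠ 0 := fun h => hx (κ.injective (by rw [h, map_zero]))
  have h1 : (Valued.v x : WithZero (Multiplicative ℤ)) ≠ 0 := (Valuation.ne_zero_iff _).mpr hx
  have h2 : (Valued.v (κ x) : WithZero (Multiplicative ℤ)) ≠ 0 := (Valuation.ne_zero_iff _).mpr hκx
  have ho1 := Tp_open w x h1
  have ho2 := (Tp_open (sw σ w) (κ x) h2).preimage hc
  have hd := HeightOneSpectrum.denseRange_algebraMap (K := B) w
  obtain ⟨y, hy1, hy2⟩ := hd.exists_mem_open (ho1.inter ho2)
    ⟨x, by
      constructor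
      · change Valued.v (x - x) < Valued.v x
        rw [sub_self, map_zero]
        exact zero_lt_iff.mpr h1
      · change Valued.v (κ x - κ x) < Valued.v (κ x)
        rw [sub_self, map_zero]
        exact zero_lt_iff.mpr h2⟩
  have e1 : (Valued.v (algebraMap B (w.adicCompletion B) y) : WithZero (Multiplicative ℤ)) =
      Valued.v x := Tp_lt _ hy1
  have e2 : (Valued.v (κ (algebraMap B (w.adicCompletion B) y)) : WithZero (Multiplicative ℤ)) =
      Valued.v (κ x) := Tp_lt _ hy2
  rw [← e1, ← e2, hB]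
  have h3 : (Valued.v (algebraMap B (w.adicCompletion B) y) : WithZero (Multiplicative ℤ)) =
      w.valuation B y := w.valuedAdicCompletion_eq_valuation' (K := B) y
  have h4 : (Valued.v (algebraMap B ((sw σ w).adicCompletion B) (σ y)) :
      WithZero (Multiplicative ℤ)) = (sw σ w).valuation B (σ y) :=
    (sw σ w).valuedAdicCompletion_eq_valuation' (K := B) (σ y)
  rw [h3, h4, sw_val]

theorem kappa_unique (w w' : HeightOneSpectrum (𝓞 B))
    (κ κ' : w.adicCompletion B →+* w'.adicCompletion B)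
    (h : ∀ x : B, κ (algebraMap B _ x) = κ' (algebraMap B _ x))
    (hv : ∀ x, (Valued.v (κ x) : WithZero (Multiplicative ℤ)) = Valued.v x)
    (hv' : ∀ x, (Valued.v (κ' x) : WithZero (Multiplicative ℤ)) = Valued.v x) : κ = κ' := by
  refine RingHom.ext fun x => ?_
  by_contra hne
  have h1 : (Valued.v (κ x - κ' x) : WithZero (Multiplicative ℤ)) ≠ 0 :=
    (Valuation.ne_zero_iff _).mpr (sub_ne_zero.mpr hne)
  have hd := HeightOneSpectrum.denseRange_algebraMap (K := B) w
  obtain ⟨y, hy⟩ := hd.exists_mem_open (Tp_open w x h1)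
    ⟨x, by
      change Valued.v (x - x) < _
      rw [sub_self, map_zero]
      exact zero_lt_iff.mpr h1⟩
  have hy' : (Valued.v (algebraMap B (w.adicCompletion B) y - x) : WithZero (Multiplicative ℤ)) <
    Valued.v (κ x - κ' x) := hy
  have e : κ x - κ' x = κ' (algebraMap B (w.adicCompletion B) y - x) -
      κ (algebraMap B (w.adicCompletion B) y - x) := by
    rw [map_sub, map_sub, h]
    ring
  have h2 : (Valued.v (κ x - κ' x) : WithZero (Multiplicative ℤ)) < Valued.v (κ x - κ' x) := by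
    conv_lhs => rw [e]
    apply Valuation.map_sub_lt
    · rw [hv']
      exact hy'
    · rw [hv]
      exact hy'
  exact lt_irrefl _ h2

theorem Tp_aut {D : L} {s : B} {σ : B ≃ₐ[L] B} (hQ : QD D s σ) :
    IsGalois L B ∧ ∀ g : B ≃ₐ[L] B, g = 1 ∨ g = σ := by
  have hfd : FiniteDimensional L B := Module.finite_of_finrank_pos (by rw [hQ.rk]; norm_num)
  have hσ : σ ≠ 1 := by
    intro h
    have h1 := hQ.neg
    rw [h, AlgEquiv.one_apply] at h1
    have h2 : (2 : B) * s = 0 := by linear_combination h1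
    rcases mul_eq_zero.1 h2 with h3 | h3
    · exact two_ne_zero h3
    · exact hQ.s0 h3
  have hcard : Nat.card (B ≃ₐ[L] B) = 2 := by
    apply le_antisymm
    · rw [Nat.card_eq_fintype_card, ← hQ.rk]
      exact AlgEquiv.card_le
    · have hnt : Nontrivial (B ≃ₐ[L] B) := ⟨σ, 1, hσ⟩
      exact Finite.one_lt_card
  refine ⟨IsGalois.of_card_aut_eq_finrank L B (by rw [hcard, hQ.rk]), ?_⟩
  intro g
  obtain ⟨τ, hτ, hu⟩ := (Nat.card_eq_two_iff' (1 : B ≃ₐ[L] B)).1 hcard
  by_cases hg : g = 1
  · exact Or.inl hg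
  · right
    rw [hu g hg, hu σ hσ]

theorem Tp_lies {w : HeightOneSpectrum (𝓞 L)} {w₁ : HeightOneSpectrum (𝓞 B)} (h1 : Over w w₁) :
    w₁.asIdeal.LiesOver w.asIdeal := by
  constructor
  refine w.isMaximal.eq_of_le (Ideal.comap_ne_top _ w₁.isPrime.ne_top) ?_
  intro x hx
  exact h1 x hx

open Pointwise in
theorem sw_of_under {D : L} {s : B} {σ : B ≃ₐ[L] B} (hQ : QD D s σ)
    (w : HeightOneSpectrum (𝓞 L)) (w₁ w₂ : HeightOneSpectrum (𝓞 B)) (h1 : Over w w₁)
    (h2 : Over w w₂) : w₂ = w₁ ∨ w₂ = sw σ w₁ := by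
  obtain ⟨hG, haut⟩ := Tp_aut hQ
  have hl1 := Tp_lies h1
  have hl2 := Tp_lies h2
  have p0 := w.isPrime
  have p1 := w₁.isPrime
  have p2 := w₂.isPrime
  obtain ⟨g, hg⟩ := Ideal.exists_smul_eq_of_isGaloisGroup w.asIdeal w₁.asIdeal w₂.asIdeal
    (B ≃ₐ[L] B)
  rcases haut g with rfl | rfl
  · left
    apply HeightOneSpectrum.ext
    rw [← hg, one_smul]
  · right
    apply HeightOneSpectrum.ext
    rw [← hg]
    ext y
    rw [Ideal.mem_pointwise_smul_iff_inv_smul_mem, mem_sw]
    exact Iff.rfl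

end

theorem locSol_map {F F' : Type*} [Field F] [Field F'] (κ : F →+* F') {s a c d : F}
    (H : LocSol s a c d) : LocSol (κ s) (κ a) (κ c) (κ d) := by
  rcases H with ⟨t, ht⟩ | ⟨U, W, h⟩
  · left
    exact ⟨κ t, by rw [ht, map_pow]⟩
  · right
    refine ⟨κ U, κ W, ?_⟩
    have h1 := congrArg κ h
    simp only [map_sub, map_mul, map_pow, map_add, map_ofNat] at h1
    exact h1

theorem Tp_inv {F : Type*} [Field F] {a c d : F} (hd : d ≠ 0) (H : LocSol 1 a c d) :
    LocSol 1 (-a) (-c) d⁻¹ := by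
  rcases H with ⟨t, ht⟩ | ⟨U, W, h⟩
  · left
    exact ⟨t⁻¹, by rw [ht, inv_pow]⟩
  · right
    refine ⟨W, U, ?_⟩
    field_simp
    linear_combination -h

theorem locSol_neg_inv {F : Type*} [Field F] {a c d : F} (hd : d ≠ 0) :
    LocSol 1 (-a) (-c) d⁻¹ ↔ LocSol 1 a c d := by
  refine ⟨fun H => ?_, Tp_inv hd⟩
  have h1 := Tp_inv (inv_ne_zero hd) H
  rwa [neg_neg, neg_neg, inv_inv] at h1

end H86D
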