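import Pool.Agent.H86.T3D.Rs

/-!
Row Cm (about 250 lines): the cocycle over `L` attached to an element of norm one of `B`. (Compare Pool/Agent/H86/T3G/Coc3.lean, exists_coc3.)

Notation: `Ω := AlgebraicClosure B`, also an algebraic closure of `L`; `E := V'.baseChange Ω`; `S := algebraMap B Ω s`, `Bb := algebraMap L Ω b`; `h_L := inv_up hV : Inv L E` (H10/Func5), `inv_bc B V' : Inv B E`; `E` is `Is3 E (D) (a) (b)` (images of `D, a, b` in `Ω`: Is3.bc and IsScalarTower) with `S^2 = D`, and also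
 `Is3 E 1 (S a) (S b)`; `ee 1 (S Bb) P = ee S Bb P` by definition (both `(y - S b)/(2 S b)`; unfold ee, cases on P, ring_nf / simp [mul_assoc, one_mul]).
PROOF. (1) exists_coc3 (H86/T3G/Coc3) over the number field `B` for `V'`, `Is3 V' 1 (s a) (s b)` (from `h : Is3 V D a b`, `s^2 = D`: the fields by direct computation, hc: `9 s b + 4 (s a)^3 = s (9 b + 4 D a^3) ≠ 0`), `d := u` (`u ≠ 0` from `hu`), gives `g : Coch B V'`, a root `r ∈ Ω`, `r^3 = u`,
 `Kr (g τ)`, `τ r = ee 1 (S b) (g τ) * r`, `g` cocycle and locally trivial over `B`.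
 (2) For `τ ∈ Ω ≃ₐ[L] Ω`: `τ S = S` or `τ S = -S` (`S^2 = D ∈ L`). If `τ S = S` then `τ` fixes the image of `B` (every element of `B` is `x + y s`, `x, y ∈ L`: from `σ`: `B/L` of degree two, `s ∉ L` since `σ s = -s ≠ s`; `{1, s}` is a basis), so `(τ r)^3 = r^3`. If `τ S = -S` then `τ (x + y S) = x - y S = σ (x + y s)`,
 so `τ u = σ u = u⁻¹` and `(r * τ r)^3 = 1`. Put `z τ := if τ S = S then τ r / r else (r * τ r)⁻¹`; `z τ ^ 3 = 1`; `F τ :=` the unique point with `Kr (F τ)`, `ee S Bb (F τ) = z τ` (ee_surj, ee_inj for `Is3 E D a b`, `S^2 = D`).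
 (3) `F` is a cocycle for `h_L` (`IsCoc (inv_up hV) F`): locally constant since it depends only on `(τ S, τ r)`; for `τ, ρ`: `ee S Bb (act τ P) = τ (ee S Bb P)` if `τ S = S` and `= (τ (ee S Bb P))⁻¹` if `τ S = -S` (ee_pm with φ = τ gives `ee (τ S) Bb (act τ P) = τ (ee S Bb P)`; and `ee (-S) Bb Q = (ee S Bb Q)⁻¹` for `Kr Q`: both are cube roots
 of unity and with `z = (y - S b)/(2 S b)` one has `(y + S b)/(-2 S b) = -1 - z = z⁻¹` (`z^2 + z + 1 = 0`; see Ke_negval, Ke_quad in H55/T3/Ke.lean), `Q = 0` trivial). So with `χ τ = 1` (resp. `-1`): `ee (F τ + act τ (F ρ)) = z τ * (τ (z ρ))^(χ τ)` and one checks `= z (τ ρ)` in the four cases: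
 (+,+): `(τ r / r) * τ (ρ r / r) = τ ρ r / r`. (+,-): `(τ r / r) * τ ((r * ρ r)⁻¹) = (r * τ ρ r)⁻¹`. (-,+): `(r τ r)⁻¹ * (τ (ρ r / r))⁻¹ = (r τ ρ r)⁻¹`. (-,-): `(r τ r)⁻¹ * (τ ((r ρ r)⁻¹))⁻¹ = (r τ r)⁻¹ * τ r * τ ρ r = τ ρ r / r`. Then ee_inj.
 (4) `f := trans (jj L B).symm (map_jj_symm hV) F` (H10/Func4): IsCocycle L V f (isCoc_trans, isCocycle_iff, as in isCocycle_cor). `resF hV f τ = F (τ.restrictScalars L)` (pm_pm, as in res_cor of H11/ConjSha). `Kr (f τ)` by kr_pm.
 (5) For `τ ∈ Ω ≃ₐ[B] Ω`: `τ S = S`, `ee 1 (S b) (resF hV f τ) = z τ = τ r / r`: the last claim; and `resF hV f = g` (same `ee`, ee_inj), so `resF hV f` is locally trivial and `f` is locally trivial by locTriv_of_res (`3 • f τ = 0`: kr_three).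
-/

set_option autoImplicit false
open scoped Classical

open WeierstrassCurve IsDedekindDomain NumberField Pool.Agent.H10 Pool.Agent.H11 H55T3 H86T3

namespace H86D

theorem Cm_one {k : Type*} [Field k] {W : WeierstrassCurve k} {D a b s : k} (h : Is3 W D a b)
    (hs : s ^ 2 = D) : Is3 W 1 (s * a) (s * b) where
  a₁ := h.a₁
  a₂ := by rw [h.a₂, ← hs]; ring
  a₃ := h.a₃
  a₄ := by rw [h.a₄, ← hs]; ring
  a₆ := by rw [h.a₆, ← hs]; ring
  hD := one_ne_zero
  hb := mul_ne_zero (Ke_s h hs) h.hb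
  hc := by
    have e : 9 * (s * b) + 4 * 1 * (s * a) ^ 3 = s * (9 * b + 4 * D * a ^ 3) := by
      rw [← hs]; ring
    rw [e]
    exact mul_ne_zero (Ke_s h hs) h.hc
  two := h.two
  three := h.three

theorem Cm_ee {k : Type*} [Field k] {W : WeierstrassCurve k} (s b : k) (P : W.toAffine.Point) :
    ee 1 (s * b) P = ee s b P := by
  rcases P with _ | ⟨x, y, n⟩
  · rfl
  · change (y - 1 * (s * b)) / (2 * 1 * (s * b)) = (y - s * b) / (2 * s * b)
    rw [one_mul, mul_one, mul_assoc]

theorem Cm_neg {k : Type*} [Field k] {W : WeierstrassCurve k} {D a b s : k} (h : Is3 W D a b)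
    (hs : s ^ 2 = D) {P : W.toAffine.Point} (hP : Kr P) : ee (-s) b P = (ee s b P)⁻¹ := by
  rw [← ee_neg h hs hP]
  rcases P with _ | ⟨x, y, n⟩
  · change (1 : k) = ee s b (-(0 : W.toAffine.Point))
    rw [neg_zero]
    rfl
  · obtain ⟨n', hn'⟩ := neg_some h.a₁ h.a₃ n
    rw [hn']
    change (y - -s * b) / (2 * -s * b) = (-y - s * b) / (2 * s * b)
    have h1 : 2 * s * b ≠ 0 := mul_ne_zero (mul_ne_zero h.two (Ke_s h hs)) h.hb
    have h2 : 2 * -s * b ≠ 0 := mul_ne_zero (mul_ne_zero h.two (neg_ne_zero.2 (Ke_s h hs))) h.hb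
    rw [div_eq_div_iff h2 h1]
    ring

theorem Cm_dec {L B : Type} [Field L] [NumberField L] [Field B] [NumberField B]
    [Algebra L B] {D : L} {s : B} {σ : B ≃ₐ[L] B} (hQ : QD D s σ) (y : B) :
    ∃ p q : L, y = algebraMap L B p + algebraMap L B q * s := by
  have hli : LinearIndependent L ![(1 : B), s] := by
    rw [LinearIndependent.pair_iff]
    intro p q h
    rw [Algebra.smul_def, Algebra.smul_def, mul_one] at h
    have h1 := congrArg σ h
    rw [map_add, map_mul, σ.commutes, σ.commutes, hQ.neg, map_zero] at h1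
    have h2 : (2 : B) * algebraMap L B p = 0 := by linear_combination h + h1
    have h3 : algebraMap L B p = 0 := (mul_eq_zero.1 h2).resolve_left two_ne_zero
    have h4 : algebraMap L B q * s = 0 := by rw [h3, zero_add] at h; exact h
    have h5 : algebraMap L B q = 0 := (mul_eq_zero.1 h4).resolve_right hQ.s0
    exact ⟨(map_eq_zero _).1 h3, (map_eq_zero _).1 h5⟩
  have h1 := hli.span_eq_top_of_card_eq_finrank' (by rw [Fintype.card_fin, hQ.rk])
  have h2 : y ∈ Submodule.span L (Set.range ![(1 : B), s]) := by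
    rw [h1]
    exact Submodule.mem_top
  rw [Matrix.range_cons, Matrix.range_cons, Matrix.range_empty, Set.union_empty,
    Set.singleton_union, Submodule.mem_span_pair] at h2
  obtain ⟨p, q, h3⟩ := h2
  refine ⟨p, q, ?_⟩
  rw [← h3, Algebra.smul_def, Algebra.smul_def, mul_one]

theorem Cm_fix {L B : Type} [Field L] [NumberField L] [Field B] [NumberField B]
    [Algebra L B] {D : L} {s : B} {σ : B ≃ₐ[L] B} (hQ : QD D s σ)
    {τ : AlgebraicClosure B ≃ₐ[L] AlgebraicClosure B}
    (hτ : τ (algebraMap B (AlgebraicClosure B) s) = algebraMap B (AlgebraicClosure B) s) (y : B) :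
    τ (algebraMap B (AlgebraicClosure B) y) = algebraMap B (AlgebraicClosure B) y := by
  obtain ⟨p, q, rfl⟩ := Cm_dec hQ y
  rw [map_add, map_mul, ← IsScalarTower.algebraMap_apply L B, ← IsScalarTower.algebraMap_apply L B,
    map_add, map_mul, τ.commutes, τ.commutes, hτ]

theorem Cm_flip {L B : Type} [Field L] [NumberField L] [Field B] [NumberField B]
    [Algebra L B] {D : L} {s : B} {σ : B ≃ₐ[L] B} (hQ : QD D s σ)
    {τ : AlgebraicClosure B ≃ₐ[L] AlgebraicClosure B}
    (hτ : τ (algebraMap B (AlgebraicClosure B) s) = -algebraMap B (AlgebraicClosure B) s) (y : B) :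
    τ (algebraMap B (AlgebraicClosure B) y) = algebraMap B (AlgebraicClosure B) (σ y) := by
  obtain ⟨p, q, rfl⟩ := Cm_dec hQ y
  rw [map_add, map_mul, ← IsScalarTower.algebraMap_apply L B, ← IsScalarTower.algebraMap_apply L B,
    map_add, map_mul, τ.commutes, τ.commutes, hτ, map_add, map_mul, σ.commutes, σ.commutes,
    hQ.neg, map_add, map_mul, map_neg, ← IsScalarTower.algebraMap_apply L B,
    ← IsScalarTower.algebraMap_apply L B]

theorem Cm_alt {L B : Type} [Field L] [NumberField L] [Field B] [NumberField B]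
    [Algebra L B] {D : L} {s : B} {σ : B ≃ₐ[L] B} (hQ : QD D s σ)
    (τ : AlgebraicClosure B ≃ₐ[L] AlgebraicClosure B) :
    τ (algebraMap B (AlgebraicClosure B) s) = algebraMap B (AlgebraicClosure B) s ∨
      τ (algebraMap B (AlgebraicClosure B) s) = -algebraMap B (AlgebraicClosure B) s := by
  apply sq_eq_sq_iff_eq_or_eq_neg.1
  rw [← map_pow, ← map_pow, hQ.sq, ← IsScalarTower.algebraMap_apply L B, τ.commutes]

/-- the cube root of unity attached to `τ` -/
noncomputable def Cm_z {L B : Type} [Field L] [Field B] [Algebra L B] (s : B)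
    (r : AlgebraicClosure B) (τ : AlgebraicClosure B ≃ₐ[L] AlgebraicClosure B) :
    AlgebraicClosure B :=
  if τ (algebraMap B (AlgebraicClosure B) s) = algebraMap B (AlgebraicClosure B) s then τ r / r
  else (r * τ r)⁻¹

theorem Cm_z_cube {L B : Type} [Field L] [NumberField L] [Field B] [NumberField B]
    [Algebra L B] {D : L} {s : B} {σ : B ≃ₐ[L] B} (hQ : QD D s σ) {u : B}
    (hu : u * σ u = 1) {r : AlgebraicClosure B} (hr : r ≠ 0)
    (hr3 : r ^ 3 = algebraMap B (AlgebraicClosure B) u)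
    (τ : AlgebraicClosure B ≃ₐ[L] AlgebraicClosure B) : Cm_z s r τ ^ 3 = 1 := by
  unfold Cm_z
  split_ifs with h
  · rw [div_pow, ← map_pow, hr3, Cm_fix hQ h, ← hr3, div_self (pow_ne_zero 3 hr)]
  · have h' := (Cm_alt hQ τ).resolve_left h
    rw [inv_pow, mul_pow, ← map_pow, hr3, Cm_flip hQ h', ← map_mul, hu, map_one, inv_one]

theorem Cm_z_mul {L B : Type} [Field L] [NumberField L] [Field B] [NumberField B]
    [Algebra L B] {D : L} {s : B} {σ : B ≃ₐ[L] B} (hQ : QD D s σ)
    {r : AlgebraicClosure B} (hr : r ≠ 0)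
    (τ ρ : AlgebraicClosure B ≃ₐ[L] AlgebraicClosure B) : Cm_z s r (τ * ρ) = Cm_z s r τ *
      (if τ (algebraMap B (AlgebraicClosure B) s) = algebraMap B (AlgebraicClosure B) s then
        τ (Cm_z s r ρ) else (τ (Cm_z s r ρ))⁻¹) := by
  have hS : algebraMap B (AlgebraicClosure B) s ≠ 0 :=
    (map_ne_zero_iff _ (algebraMap B (AlgebraicClosure B)).injective).2 hQ.s0
  have hne : -algebraMap B (AlgebraicClosure B) s ≠ algebraMap B (AlgebraicClosure B) s := by
    intro h
    have h2 : (2 : AlgebraicClosure B) * algebraMap B (AlgebraicClosure B) s = 0 := by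
      linear_combination -h
    exact hS ((mul_eq_zero.1 h2).resolve_left two_ne_zero)
  have hτr : τ r ≠ 0 := (map_ne_zero_iff τ τ.injective).2 hr
  have hρr : ρ r ≠ 0 := (map_ne_zero_iff ρ ρ.injective).2 hr
  have hτρr : τ (ρ r) ≠ 0 := (map_ne_zero_iff τ τ.injective).2 hρr
  unfold Cm_z
  rw [AlgEquiv.mul_apply, AlgEquiv.mul_apply]
  rcases Cm_alt hQ τ with h1 | h1
  · rcases Cm_alt hQ ρ with h2 | h2
    · rw [h2, h1, if_pos rfl, if_pos rfl, if_pos rfl, if_pos rfl, map_div₀]
      field_simp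
    · rw [h2, map_neg, h1, if_neg hne, if_pos rfl, if_pos rfl, if_neg hne, map_inv₀, map_mul]
      field_simp
  · rcases Cm_alt hQ ρ with h2 | h2
    · rw [h2, h1, if_neg hne, if_neg hne, if_neg hne, if_pos rfl, map_div₀]
      field_simp
    · rw [h2, map_neg, h1, neg_neg, if_pos rfl, if_neg hne, if_neg hne, if_neg hne, map_inv₀,
        map_mul, inv_inv]
      field_simp

theorem Cm_act {L B : Type} [Field L] [NumberField L] [Field B] [NumberField B]
    [Algebra L B] {D a b : L} {s : B} {σ : B ≃ₐ[L] B} (hQ : QD D s σ) {V : WeierstrassCurve L}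
    {V' : WeierstrassCurve B} (hV : V.map (algebraMap L B) = V') (h : Is3 V D a b)
    (τ : AlgebraicClosure B ≃ₐ[L] AlgebraicClosure B)
    {P : (V'.baseChange (AlgebraicClosure B)).toAffine.Point} (hP : Kr P) :
    ee (algebraMap B (AlgebraicClosure B) s)
      (algebraMap B (AlgebraicClosure B) (algebraMap L B b)) (act (inv_up hV) τ P) =
    if τ (algebraMap B (AlgebraicClosure B) s) = algebraMap B (AlgebraicClosure B) s then
      τ (ee (algebraMap B (AlgebraicClosure B) s)
        (algebraMap B (AlgebraicClosure B) (algebraMap L B b)) P)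
    else (τ (ee (algebraMap B (AlgebraicClosure B) s)
        (algebraMap B (AlgebraicClosure B) (algebraMap L B b)) P))⁻¹ := by
  have hE := (h.up hV).bc (AlgebraicClosure B)
  have hs : (algebraMap B (AlgebraicClosure B) s) ^ 2 =
      algebraMap B (AlgebraicClosure B) (algebraMap L B D) := by rw [← map_pow, hQ.sq]
  have h1 := ee_pm (s := algebraMap B (AlgebraicClosure B) s)
    (b := algebraMap B (AlgebraicClosure B) (algebraMap L B b))
    (φ := (τ : AlgebraicClosure B →+* AlgebraicClosure B)) (inv_up hV τ) P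
  have h3 : (τ : AlgebraicClosure B →+* AlgebraicClosure B)
      (algebraMap B (AlgebraicClosure B) (algebraMap L B b)) =
      algebraMap B (AlgebraicClosure B) (algebraMap L B b) := by
    rw [← IsScalarTower.algebraMap_apply L B]
    exact τ.commutes b
  rw [h3] at h1
  have h1' : ee (τ (algebraMap B (AlgebraicClosure B) s))
      (algebraMap B (AlgebraicClosure B) (algebraMap L B b)) (act (inv_up hV) τ P) =
      τ (ee (algebraMap B (AlgebraicClosure B) s)
        (algebraMap B (AlgebraicClosure B) (algebraMap L B b)) P) := h1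
  have hk : Kr (act (inv_up hV) τ P) := (kr_pm _ _).2 hP
  split_ifs with h4
  · rw [h4] at h1'
    exact h1'
  · rw [(Cm_alt hQ τ).resolve_left h4, Cm_neg hE hs hk] at h1'
    rw [← h1', inv_inv]

theorem coc_minus {L B : Type} [Field L] [NumberField L] [Field B] [NumberField B]
    [Algebra L B] {D a b : L} {s : B} {σ : B ≃ₐ[L] B} (hQ : QD D s σ) {V : WeierstrassCurve L}
    {V' : WeierstrassCurve B} (hV : V.map (algebraMap L B) = V') (h : Is3 V D a b) {u : B}
    (hu : u * σ u = 1) (hfin : FS s a b u) :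
    ∃ (f : Coch L V) (r : AlgebraicClosure B), IsCocycle L V f ∧ IsLocTriv L V f ∧ r ≠ 0 ∧
      r ^ 3 = algebraMap B (AlgebraicClosure B) u ∧ (∀ τ, Kr (f τ)) ∧
      ∀ τ : AlgebraicClosure B ≃ₐ[B] AlgebraicClosure B,
        τ r = ee 1 (algebraMap B (AlgebraicClosure B) (s * algebraMap L B b)) (resF hV f τ) *
          r := by
  have hu0 : u ≠ 0 := left_ne_zero_of_mul_eq_one hu
  have h1 : Is3 V' 1 (s * algebraMap L B a) (s * algebraMap L B b) := Cm_one (h.up hV) hQ.sq
  obtain ⟨g, r, hgc, hgl, hr, hr3, hg⟩ := exists_coc3 h1 hu0 hfin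
  have hE := (h.up hV).bc (AlgebraicClosure B)
  have hs : (algebraMap B (AlgebraicClosure B) s) ^ 2 =
      algebraMap B (AlgebraicClosure B) (algebraMap L B D) := by rw [← map_pow, hQ.sq]
  have hG : ∀ z : AlgebraicClosure B, ∃ P : (V'.baseChange (AlgebraicClosure B)).toAffine.Point,
      z ^ 3 = 1 → Kr P ∧ ee (algebraMap B (AlgebraicClosure B) s)
        (algebraMap B (AlgebraicClosure B) (algebraMap L B b)) P = z := by
    intro z
    by_cases hz : z ^ 3 = 1
    · obtain ⟨P, h1, h2⟩ := ee_surj hE hs hz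
      exact ⟨P, fun _ => ⟨h1, h2⟩⟩
    · exact ⟨0, fun h => absurd h hz⟩
  choose G hG using hG
  have hz := fun τ : AlgebraicClosure B ≃ₐ[L] AlgebraicClosure B => Cm_z_cube hQ hu hr hr3 τ
  have hF : IsCoc (inv_up hV) (fun τ : AlgebraicClosure B ≃ₐ[L] AlgebraicClosure B =>
      G (Cm_z s r τ)) := by
    constructor
    · rw [lc_iff]
      intro σ₀
      refine ⟨{algebraMap B (AlgebraicClosure B) s, r}, fun τ hτ => ?_⟩
      have e1 := hτ (algebraMap B (AlgebraicClosure B) s) (by simp)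
      have e2 := hτ r (by simp)
      have e3 : Cm_z s r τ = Cm_z s r σ₀ := by
        unfold Cm_z
        rw [e1, e2]
      rw [e3]
    · intro τ ρ
      have hk : Kr (act (inv_up hV) τ (G (Cm_z s r ρ))) := (kr_pm _ _).2 (hG _ (hz ρ)).1
      refine ee_inj hE hs (hG _ (hz (τ * ρ))).1 (kr_add hE (hG _ (hz τ)).1 hk) ?_
      rw [ee_add hE hs (hG _ (hz τ)).1 hk, Cm_act hQ hV h τ (hG _ (hz ρ)).1, (hG _ (hz (τ * ρ))).2,
        (hG _ (hz τ)).2, (hG _ (hz ρ)).2]
      exact Cm_z_mul hQ hr τ ρ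
  set F := fun τ : AlgebraicClosure B ≃ₐ[L] AlgebraicClosure B => G (Cm_z s r τ) with hFd
  set f : Coch L V := Pool.Agent.H10.trans (jj L B).symm (map_jj_symm hV) F with hf
  have hfc : IsCocycle L V f := by
    rw [Pool.Agent.H10.isCocycle_iff]
    exact isCoc_trans (jj L B).symm (map_jj_symm hV) (h := inv_up hV) hF
  have hfk : ∀ τ, Kr (f τ) := by
    intro τ
    rw [hf]
    unfold Pool.Agent.H10.trans
    exact (kr_pm _ _).2 (hG _ (hz _)).1
  have hres : ∀ τ, resF hV f τ = F (τ.restrictScalars L) := by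
    intro τ
    rw [hf]
    unfold resF Pool.Agent.H10.trans
    rw [pm_pm]
    have h4 : ((jj L B).symm.trans (((jj L B).trans (τ.restrictScalars L)).trans
        (jj L B).symm)).trans (jj L B).symm.symm = τ.restrictScalars L := by
      ext y
      simp
    rw [h4]
    apply pm_eq_self
    intro y
    exact (jj L B).apply_symm_apply y
  have hee : ∀ τ : AlgebraicClosure B ≃ₐ[B] AlgebraicClosure B,
      ee 1 (algebraMap B (AlgebraicClosure B) (s * algebraMap L B b)) (resF hV f τ) =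
        τ r / r := by
    intro τ
    rw [map_mul, Cm_ee, hres τ, hFd]
    rw [(hG _ (hz (τ.restrictScalars L))).2]
    unfold Cm_z
    exact if_pos (τ.commutes s)
  have hlast : ∀ τ : AlgebraicClosure B ≃ₐ[B] AlgebraicClosure B,
      τ r = ee 1 (algebraMap B (AlgebraicClosure B) (s * algebraMap L B b)) (resF hV f τ) *
          r := by
    intro τ
    rw [hee τ, div_mul_cancel₀ _ hr]
  have hrk : ∀ τ, Kr (resF hV f τ) := by
    intro τ
    rw [hres τ]
    exact (hG _ (hz _)).1
  have hE1 : Is3 (V'.baseChange (AlgebraicClosure B)) 1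
      (algebraMap B (AlgebraicClosure B) (s * algebraMap L B a))
      (algebraMap B (AlgebraicClosure B) (s * algebraMap L B b)) := by
    have h2 := h1.bc (AlgebraicClosure B)
    rwa [map_one] at h2
  have hgf : resF hV f = g := by
    funext τ
    refine ee_inj hE1 (one_pow 2) (hrk τ) (hg τ).1 ?_
    apply mul_right_cancel₀ hr
    rw [← hlast τ, ← (hg τ).2]
  refine ⟨f, r, hfc, ?_, hr, hr3, hfk, hlast⟩
  refine locTriv_of_res hQ.rk hV hfc (fun τ => ?_) ?_
  · exact kr_three (h.bc (AlgebraicClosure L)) (hfk τ)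
  · rw [hgf]
    exact hgl

end H86D
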