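import Pool.Agent.H86.T3G.Gen3
import Pool.Agent.H10.Func7

/-!
Growth half of the dichotomy for three-isogenies, twisted case (definitions, no row).
`B = L(s)`, `s ^ 2 = D`, `σ s = -s`. Over `B` the curve `V` with parameters `D, a, b` has the
parameters `1, s a, s b`.
-/

set_option autoImplicit false
set_option linter.unusedFintypeInType false
open scoped Classical

open WithZero IsDedekindDomain NumberField Pool.Agent.H10 Pool.Agent.H11 H55T3 H86T3

namespace H86D

/-- `B` is the quadratic extension of `L` generated by a square root `s` of `D`. -/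
structure QD {L B : Type} [Field L] [Field B] [Algebra L B] (D : L) (s : B)
    (σ : B ≃ₐ[L] B) : Prop where
  sq : s ^ 2 = algebraMap L B D
  neg : σ s = -s
  rk : Module.finrank L B = 2
  D0 : D ≠ 0

section

variable {L B : Type} [Field L] [Field B] [Algebra L B] {D : L} {s : B} {σ : B ≃ₐ[L] B}

lemma QD.s0 (h : QD D s σ) : s ≠ 0 := by
  intro h0
  have h1 := h.sq
  rw [h0] at h1
  exact h.D0 ((map_eq_zero (algebraMap L B)).1 (by rw [← h1]; ring))

end

/-- `u / σ u`, an element of norm one -/
def mm {L B : Type} [Field L] [Field B] [Algebra L B] (σ : B ≃ₐ[L] B) (x : B) : B := x / σ x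

/-- the image under an automorphism of a place -/
noncomputable def sw {L B : Type} [Field L] [NumberField L] [Field B] [NumberField B] [Algebra L B]
    (σ : B ≃ₐ[L] B) (w : HeightOneSpectrum (𝓞 B)) : HeightOneSpectrum (𝓞 B) where
  asIdeal := w.asIdeal.comap (RingOfIntegers.mapRingEquiv (σ.symm : B ≃+* B) : 𝓞 B →+* 𝓞 B)
  isPrime := Ideal.comap_isPrime _ _
  ne_bot := by
    intro h0
    apply w.ne_bot
    rw [eq_bot_iff]
    intro x hx
    have h1 : RingOfIntegers.mapRingEquiv (σ : B ≃+* B) x ∈ w.asIdeal.comap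
        (RingOfIntegers.mapRingEquiv (σ.symm : B ≃+* B) : 𝓞 B →+* 𝓞 B) := by
      rw [Ideal.mem_comap]
      have h2 : (RingOfIntegers.mapRingEquiv (σ.symm : B ≃+* B) : 𝓞 B →+* 𝓞 B)
          (RingOfIntegers.mapRingEquiv (σ : B ≃+* B) x) = x := by
        apply RingOfIntegers.ext
        change σ.symm (σ (x : B)) = x
        exact σ.symm_apply_apply _
      rw [h2]
      exact hx
    rw [h0, Ideal.mem_bot] at h1
    rw [Ideal.mem_bot]
    exact (map_eq_zero_iff _ (RingOfIntegers.mapRingEquiv (σ : B ≃+* B)).injective).1 h1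

lemma mem_sw {L B : Type} [Field L] [NumberField L] [Field B] [NumberField B] [Algebra L B]
    {σ : B ≃ₐ[L] B} {w : HeightOneSpectrum (𝓞 B)} {x : 𝓞 B} :
    x ∈ (sw σ w).asIdeal ↔ (RingOfIntegers.mapRingEquiv (σ.symm : B ≃+* B)) x ∈ w.asIdeal :=
  Iff.rfl

/-- the local condition over `B` for the class of `d` -/
def FS {L B : Type} [Field L] [Field B] [NumberField B] [Algebra L B] (s : B) (a b : L)
    (d : B) : Prop :=
  FinSol3 B 1 (s * algebraMap L B a)
    (9 * (s * algebraMap L B b) + 4 * (s * algebraMap L B a) ^ 3) d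

/-- After scaling, one of `α`, `c` is a unit and the other is integral. -/
def BadR {F : Type*} [Field F] (V : Valuation F (WithZero (Multiplicative ℤ))) (α c : F) : Prop :=
  ∃ i : ℕ, (V α ≤ exp (-(i : ℤ)) ∧ V c = exp (-(3 * (i : ℤ)))) ∨
    (V α = exp (-(i : ℤ)) ∧ V c ≤ exp (-(3 * (i : ℤ))))

/-- A ramified quadratic situation above three: `s` is a uniformizer, `ι` an involution which is
trivial on the residue field. -/
structure Ram {F : Type*} [Field F] (V : Valuation F (WithZero (Multiplicative ℤ))) (s : F)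
    (ι : F →+* F) : Prop where
  three : V 3 = exp (-2 : ℤ)
  unif : V s = exp (-1 : ℤ)
  inv : ∀ x, ι (ι x) = x
  neg : ι s = -s
  val : ∀ x, V (ι x) = V x
  res : ∀ x, V x ≤ 1 → V (ι x - x) < 1

end H86D
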