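import Pool.Agent.H86.T3D.Rb
import Pool.Agent.H86.T3D.Tp
import Pool.Agent.H86.T3G.Mul

/-!
Row Rc (about 250 lines): pigeonhole in the ramified case, bad curve.

Setting: `α, c` integral and fixed by `ι`, one of them a unit. The curve over `F`: parameters `1, a', b'` with `6 a' = 2 s α`, that is `a' = s α / 3`, and `9 b' + 4 a'^3 = s c` (`b' := (s c - 4 a'^3)/9`). In the statement: `a'`, `b'` with `3 * a' = s * α` and `9 * b' + 4 * a' ^ 3 = s * c`.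
PROOF. (1) Points: let `η` be a unit, `x := η⁻¹^2`, `m := α x + c`, `X := s^2 m^2 η^6`, `V X < 1`; `y'^2 = 1 + X` has a solution with `V (y' - 1) < 1` (Hens3 with g0 = -X, g1 = 2, g2 = 1, g3 = 0; `V 2 = 1`), even `V (y' - 1) ≤ V X ≤ exp (-2)`; `y := η⁻¹^3 y'`: `y^2 = x^3 + s^2 m^2`. `d := y + s m`: `V d = 1`, `d^2 - x^3 = 2 s m d`, so `(U, v) = (x, 1)` solves
 `d^2 v^3 - U^3 = d * 1 * (6 a' U v + 2 (s c))` (`6 a' = 2 s α`): LocSol 1 a' (s c) d. And `d = η⁻¹^3 (y' + s m η^3) = η⁻¹^3 (1 + s t)`, `t = m η^3 + (y' - 1)/s`, `V (t - (α η + c η^3)) < 1` (`m η^3 = α η + c η^3`).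
 (2) `e := d / ι d`: LocSol 1 a' (s c) e: apply `ι`: LocSol 1 (ι a') (ι (s c)) (ι d) (locSol_map) and `ι a' = -a'` (`3 a' = s α`, `ι α = α`), `ι (s c) = - s c`, so LocSol 1 a' (s c) (ι d)⁻¹ (locSol_neg_inv), and locSol_mul. `e * ι e = 1`. `e = (η⁻¹/ι η⁻¹)^3 (1 + s t)/(1 - s ι t) = z^3 (1 + s t')`, `V (t' - 2 t) < 1`.
 (3) `M := {m ∈ k | ∃ e z t, e * ι e = 1, V z = 1, V t ≤ 1, e = z^3 (1 + s t), ρ t = m, LocSol 1 a' (s c) e}`: additive subgroup (products, inverses; locSol_mul, locSol_inv; `(1 + s t)(1 + s t') = 1 + s (t + t' + s t t')`; `0`: e = 1). It contains `2 (ρ α x + ρ c x^3)` for all `x ∈ k` (x = 0: e = 1; otherwise lift `x` to a unit `η`).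
 index_three (H86/T3G/Ix3.lean; CharP k 3) with `A = 2 ρ α`, `B = 2 ρ c` (not both zero), `Γ = 0`: of four elements of `k` two are congruent modulo `M`; so `k ⧸ M` has at most three elements.
 (4) Ten elements `u i` (norm one), `u i = z_i^3 (1 + s t_i)` (exists_t): the classes of `ρ (t_i)` in `k ⧸ M` take at most three values, so four of them (an injection `φ : Fin 4 → Fin 10`) have the same class; for `j : Fin 4` choose `e_j` as in the definition of `M` with `ρ t(e_j) = ρ (t_(φ j) - t_(φ 0))`, `f_j := u (φ j) / (u (φ 0) e_j)` has norm one and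
 `f_j = z^3 (1 + s t)` with `V t < 1`: all congruent to 0: four_cube: `j ≠ l` with `f_j / f_l` a cube, so `u (φ j)/u (φ l) = (e_j / e_l) * cube`: LocSol (locSol_div, locSol_mul_cube).
PROOF of ram_bad' (scaling): `BadR V' α c`..: here with `V` of the base field; `r := 3⁻¹ ^ i`, replace `(α, c, a', b')` by `(r α, r^3 c, r a', r^3 b')`; `V 3 = exp (-2)`: the hypothesis gives `V (r α) ≤ 1, V (r^3 c) = 1` or `V (r α) = 1, V (r^3 c) ≤ 1`; locSol_scale.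
-/

set_option autoImplicit false
open scoped Classical

open WithZero H55T3 H86T3

namespace H86D

variable {F : Type*} [Field F] [CharZero F] {V : Valuation F (WithZero (Multiplicative ℤ))}
  {k : Type*} [Field k] [Finite k] {ρ : V.integer →+* k} {s : F} {ι : F →+* F}

section

omit [CharZero F] [Finite k]

lemma Rc_s1 (hR : Ram V s ι) : V s < 1 := by
  rw [hR.unif]
  exact Pool.Agent.H10.exp_neg_lt_one

lemma Rc_s0 (hR : Ram V s ι) : s ≠ 0 := by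
  intro h
  have h1 := hR.unif
  rw [h, map_zero] at h1
  exact exp_ne_zero h1.symm

lemma Rc_st (hR : Ram V s ι) {t : F} (ht : V t ≤ 1) : V (s * t) < 1 := by
  rw [map_mul]
  exact (mul_le_of_le_one_right' ht).trans_lt (Rc_s1 hR)

lemma Rc_unit {x : F} (hx : V x < 1) : V (1 + x) = 1 := by
  have h := Valuation.map_add_eq_of_lt_left V (x := 1) (y := x) (by rw [map_one]; exact hx)
  rw [h, map_one]

lemma Rc_u (hR : Ram V s ι) {t : F} (ht : V t ≤ 1) : V (1 + s * t) = 1 := Rc_unit (Rc_st hR ht)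

lemma Rc_u0 (hR : Ram V s ι) {t : F} (ht : V t ≤ 1) : 1 + s * t ≠ 0 :=
  Pool.Agent.H10.ne_zero_of_V (Rc_u hR ht)

lemma Rc_2 (hR : Ram V s ι) : V 2 = 1 := by
  have h3 : V (3 : F) < 1 := by
    rw [hR.three, ← exp_zero, exp_lt_exp]
    norm_num
  have h4 : V (1 + (-3) : F) = 1 := Rc_unit (by rw [Valuation.map_neg]; exact h3)
  have h5 : (1 + (-3) : F) = -2 := by norm_num
  rwa [h5, Valuation.map_neg] at h4

lemma Rc_norm (hR : Ram V s ι) {e : F} (he : e * ι e = 1) : V e = 1 := by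
  have h1 : V e ^ 2 = 1 := by
    have h2 := congrArg V he
    rw [map_mul, hR.val, map_one] at h2
    rw [pow_two]
    exact h2
  rcases lt_trichotomy (V e) 1 with h | h | h
  · have := pow_lt_one₀ zero_le h (n := 2) (by norm_num)
    rw [h1] at this
    exact absurd this (lt_irrefl _)
  · exact h
  · have := one_lt_pow₀ h (n := 2) (by norm_num)
    rw [h1] at this
    exact absurd this (lt_irrefl _)

lemma Rc_rho (hρ : ∀ x : V.integer, ρ x = 0 ↔ V x < 1) {x y : F} (hx : V x ≤ 1) (hy : V y ≤ 1) :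
    ρ ⟨x, hx⟩ = ρ ⟨y, hy⟩ ↔ V (x - y) < 1 := by
  rw [← sub_eq_zero, ← map_sub, hρ]
  exact Iff.rfl

lemma Rc_char (hR : Ram V s ι) (hρ : ∀ x : V.integer, ρ x = 0 ↔ V x < 1) : CharP k 3 := by
  have h : ρ 3 = 0 := by
    rw [hρ]
    have h1 : (((3 : V.integer) : F)) = 3 := rfl
    rw [h1, hR.three, ← exp_zero, exp_lt_exp]
    norm_num
  rw [map_ofNat] at h
  rw [CharP.charP_iff_prime_eq_zero Nat.prime_three]
  exact_mod_cast h

lemma Rc_add {x y : F} (hx : V x ≤ 1) (hy : V y ≤ 1) : V (x + y) ≤ 1 :=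
  (Valuation.map_add V x y).trans (max_le hx hy)

lemma Rc_addl {x y : F} (hx : V x < 1) (hy : V y < 1) : V (x + y) < 1 :=
  Valuation.map_add_lt V hx hy

lemma Rc_mul {x y : F} (hx : V x ≤ 1) (hy : V y ≤ 1) : V (x * y) ≤ 1 := by
  rw [map_mul]
  exact mul_le_one' hx hy

/-- the residues `m` of the elements of norm one which are soluble -/
def Rc_P (V : Valuation F (WithZero (Multiplicative ℤ))) (ρ : V.integer →+* k) (s : F) (ι : F →+* F)
    (a c : F) (m : k) : Prop :=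
  ∃ e z t : F, ∃ ht : V t ≤ 1, e * ι e = 1 ∧ V z = 1 ∧ e = z ^ 3 * (1 + s * t) ∧
    ρ ⟨t, ht⟩ = m ∧ LocSol 1 a c e

/-- a point of the curve -/
lemma Rc_pt (hV : Hens3 V) (hR : Ram V s ι) {a' b' α c η : F}
    (ha : 3 * a' = s * α) (hc : 9 * b' + 4 * a' ^ 3 = s * c)
    (h1 : V α ≤ 1) (h2 : V c ≤ 1) (hη : V η = 1) :
    ∃ d t : F, V d = 1 ∧ V t ≤ 1 ∧ d = η⁻¹ ^ 3 * (1 + s * t) ∧
      V (t - (α * η + c * η ^ 3)) < 1 ∧ LocSol 1 a' (9 * b' + 4 * a' ^ 3) d := by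
  have hη0 : η ≠ 0 := Pool.Agent.H10.ne_zero_of_V hη
  obtain ⟨g, hg⟩ : ∃ g : F, g = η⁻¹ := ⟨_, rfl⟩
  have hgη : g * η = 1 := by rw [hg]; exact inv_mul_cancel₀ hη0
  have hgV : V g = 1 := by rw [hg, map_inv₀, hη, inv_one]
  obtain ⟨m, hm⟩ : ∃ m : F, m = α * g ^ 2 + c := ⟨_, rfl⟩
  have hmV : V m ≤ 1 := by
    rw [hm]
    refine Rc_add ?_ h2
    rw [map_mul, map_pow, hgV, one_pow, mul_one]
    exact h1
  obtain ⟨p, hp⟩ : ∃ p : F, p = m * η ^ 3 := ⟨_, rfl⟩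
  have hpV : V p ≤ 1 := by
    rw [hp, map_mul, map_pow, hη, one_pow, mul_one]
    exact hmV
  have hpe : p = α * η + c * η ^ 3 := by
    rw [hp, hm]
    linear_combination (α * η * (g * η + 1)) * hgη
  have hX : V (s ^ 2 * p ^ 2) < 1 := by
    have e1 : s ^ 2 * p ^ 2 = s * (s * p ^ 2) := by ring
    rw [e1]
    refine Rc_st hR ?_
    refine Rc_mul (Rc_s1 hR).le ?_
    rw [map_pow]
    exact pow_le_one' hpV 2
  obtain ⟨w, hw, hw2⟩ := hV (-(s ^ 2 * p ^ 2)) 2 1 0 (by rw [Valuation.map_neg]; exact hX)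
    (Rc_2 hR) (by rw [map_one]) (by rw [map_zero]; exact zero_le)
  have h2w : V (2 + w) = 1 := by
    have h := Valuation.map_add_eq_of_lt_left V (x := 2) (y := w) (by rw [Rc_2 hR]; exact hw)
    rw [h, Rc_2 hR]
  have h2w0 : 2 + w ≠ 0 := Pool.Agent.H10.ne_zero_of_V h2w
  obtain ⟨q, hq⟩ : ∃ q : F, q = p ^ 2 / (2 + w) := ⟨_, rfl⟩
  have hqV : V q ≤ 1 := by
    rw [hq, map_div₀, h2w, div_one, map_pow]
    exact pow_le_one' hpV 2
  have hwq : w = s ^ 2 * q := by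
    rw [hq]
    field_simp
    linear_combination hw2
  have htV : V (p + s * q) ≤ 1 := Rc_add hpV (Rc_st hR hqV).le
  obtain ⟨d, hd⟩ : ∃ d : F, d = g ^ 3 * (1 + s * (p + s * q)) := ⟨_, rfl⟩
  refine ⟨d, p + s * q, ?_, htV, ?_, ?_, ?_⟩
  · rw [hd, map_mul, map_pow, hgV, one_pow, one_mul]
    exact Rc_u hR htV
  · rw [hd, hg]
  · have e1 : p + s * q - (α * η + c * η ^ 3) = s * q := by
      rw [hpe]
      ring
    rw [e1]
    exact Rc_st hR hqV
  · right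
    refine ⟨g ^ 2, 1, ?_⟩
    rw [hc]
    have hgp : g ^ 3 * p = m := by
      rw [hp]
      linear_combination m * (g ^ 2 * η ^ 2 + g * η + 1) * hgη
    have hdy : d = g ^ 3 * (1 + w) + s * m := by
      rw [hd, hwq, ← hgp]
      ring
    have hy : (g ^ 3 * (1 + w)) ^ 2 = (g ^ 2) ^ 3 + s ^ 2 * m ^ 2 := by
      rw [← hgp]
      linear_combination (g ^ 6) * hw2
    rw [hdy, hm]
    rw [hm] at hy
    linear_combination hy - 2 * (g ^ 3 * (1 + w) + s * (α * g ^ 2 + c)) * g ^ 2 * ha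

end

section

omit [Finite k]

lemma Rc_elt (hV : Hens3 V) (hR : Ram V s ι) {a' b' α c η : F} (hb : b' ≠ 0) (hc0 : c ≠ 0)
    (ha : 3 * a' = s * α) (hc : 9 * b' + 4 * a' ^ 3 = s * c) (hα : ι α = α) (hcι : ι c = c)
    (h1 : V α ≤ 1) (h2 : V c ≤ 1) (hη : V η = 1) :
    ∃ e z t : F, V t ≤ 1 ∧ e * ι e = 1 ∧ V z = 1 ∧ e = z ^ 3 * (1 + s * t) ∧
      V (t - 2 * (α * η + c * η ^ 3)) < 1 ∧ LocSol 1 a' (9 * b' + 4 * a' ^ 3) e := by
  obtain ⟨d, t, hd, ht, hdt, htη, hL⟩ := Rc_pt (ι := ι) hV hR ha hc h1 h2 hη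
  have hd0 : d ≠ 0 := Pool.Agent.H10.ne_zero_of_V hd
  have hιd0 : ι d ≠ 0 := (map_ne_zero ι).2 hd0
  have hη0 : η ≠ 0 := Pool.Agent.H10.ne_zero_of_V hη
  have hιη0 : ι η ≠ 0 := (map_ne_zero ι).2 hη0
  have h20 : (2 : F) ≠ 0 := two_ne_zero
  have h30 : (3 : F) ≠ 0 := three_ne_zero
  have hcc : 9 * b' + 4 * a' ^ 3 ≠ 0 := by
    rw [hc]
    exact mul_ne_zero (Rc_s0 hR) hc0
  have hιa : ι a' = -a' := by
    have e1 := congrArg ι ha
    rw [map_mul, map_mul, map_ofNat, hR.neg, hα] at e1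
    have e2 : (3 : F) * (ι a' + a') = 0 := by linear_combination e1 + ha
    rcases mul_eq_zero.1 e2 with h | h
    · exact absurd h h30
    · linear_combination h
  have hιc : ι (9 * b' + 4 * a' ^ 3) = -(9 * b' + 4 * a' ^ 3) := by
    rw [hc, map_mul, hR.neg, hcι]
    ring
  have hL2 : LocSol 1 a' (9 * b' + 4 * a' ^ 3) (ι d)⁻¹ := by
    have e1 := locSol_map ι hL
    rw [map_one, hιa, hιc] at e1
    have e2 := (locSol_neg_inv (a := a') (c := 9 * b' + 4 * a' ^ 3) (inv_ne_zero hιd0)).1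
    rw [inv_inv] at e2
    exact e2 e1
  have hL3 := locSol_mul h20 h30 hb hcc hd0 (inv_ne_zero hιd0) hL hL2
  have hιt : V (ι t) ≤ 1 := by
    rw [hR.val]
    exact ht
  obtain ⟨y, hy⟩ : ∃ y : F, y = 1 + s * -(ι t) := ⟨_, rfl⟩
  have hu : V y = 1 := by
    rw [hy]
    exact Rc_u hR (by rw [Valuation.map_neg]; exact hιt)
  have hu0 := Pool.Agent.H10.ne_zero_of_V hu
  have hιdt : ι d = (ι η)⁻¹ ^ 3 * y := by
    rw [hdt, map_mul, map_pow, map_inv₀, map_add, map_one, map_mul, hR.neg, hy]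
    ring
  obtain ⟨n, hn⟩ : ∃ n : F, n = t + ι t := ⟨_, rfl⟩
  have hkey : V (n / y - 2 * t) < 1 := by
    have e1 : n / y - 2 * t = ((ι t - t) + s * (2 * t * ι t)) / y := by
      rw [hn]
      field_simp
      rw [hy]
      ring
    rw [e1, map_div₀, hu, div_one]
    refine Rc_addl (hR.res t ht) (Rc_st hR (Rc_mul (Rc_mul ?_ ht) hιt))
    exact (Rc_2 hR).le
  refine ⟨d * (ι d)⁻¹, η⁻¹ / (ι η)⁻¹, n / y, ?_, ?_, ?_, ?_, ?_, hL3⟩
  · rw [map_div₀, hu, div_one, hn]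
    exact Rc_add ht hιt
  · rw [map_mul, map_inv₀, hR.inv]
    field_simp
  · rw [map_div₀, map_inv₀, map_inv₀, hR.val, hη]
    simp
  · rw [hιdt]
    nth_rewrite 1 [hdt]
    have hq : 1 + s * (n / y) = (1 + s * t) / y := by
      rw [hn]
      field_simp
      rw [hy]
      ring
    rw [hq]
    field_simp
  · have e1 : n / y - 2 * (α * η + c * η ^ 3) =
        (n / y - 2 * t) + 2 * (t - (α * η + c * η ^ 3)) := by ring
    rw [e1]
    refine Rc_addl hkey ?_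
    rw [map_mul, Rc_2 hR, one_mul]
    exact htη

lemma Rc_M (hR : Ram V s ι) (hρ : ∀ x : V.integer, ρ x = 0 ↔ V x < 1) {a' b' : F} (hb : b' ≠ 0)
    (hc : 9 * b' + 4 * a' ^ 3 ≠ 0) :
    ∃ M : AddSubgroup k, ∀ m, m ∈ M ↔ Rc_P V ρ s ι a' (9 * b' + 4 * a' ^ 3) m := by
  refine ⟨{ carrier := {m | Rc_P V ρ s ι a' (9 * b' + 4 * a' ^ 3) m}
            zero_mem' := ?_
            add_mem' := ?_
            neg_mem' := ?_ }, fun m => Iff.rfl⟩
  · rintro m m' ⟨e, z, t, ht, h1, h2, h3, h4, h5⟩ ⟨e', z', t', ht', h1', h2', h3', h4', h5'⟩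
    have he0 := Pool.Agent.H10.ne_zero_of_V (Rc_norm hR h1)
    have he0' := Pool.Agent.H10.ne_zero_of_V (Rc_norm hR h1')
    have hst : V (s * (t * t')) < 1 := Rc_st hR (Rc_mul ht ht')
    refine ⟨e * e', z * z', t + t' + s * (t * t'), Rc_add (Rc_add ht ht') hst.le, ?_, ?_, ?_, ?_, ?_⟩
    · rw [map_mul]
      linear_combination (e' * ι e') * h1 + h1'
    · rw [map_mul, h2, h2', one_mul]
    · rw [h3, h3']
      ring
    · rw [← h4, ← h4', ← map_add]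
      show _ = ρ ⟨t + t', Rc_add ht ht'⟩
      rw [Rc_rho hρ]
      have e1 : t + t' + s * (t * t') - (t + t') = s * (t * t') := by ring
      rw [e1]
      exact hst
    · exact locSol_mul two_ne_zero three_ne_zero hb hc he0 he0' h5 h5'
  · refine ⟨1, 1, 0, by rw [map_zero]; exact zero_le, ?_, ?_, ?_, ?_, ?_⟩
    · rw [map_one, one_mul]
    · rw [map_one]
    · ring
    · exact map_zero ρ
    · exact Or.inl ⟨1, by ring⟩
  · rintro m ⟨e, z, t, ht, h1, h2, h3, h4, h5⟩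
    have he0 := Pool.Agent.H10.ne_zero_of_V (Rc_norm hR h1)
    have hz0 := Pool.Agent.H10.ne_zero_of_V h2
    have hu := Rc_u hR ht
    have hu0 := Rc_u0 hR ht
    have hnt : V (-t) ≤ 1 := by
      rw [Valuation.map_neg]
      exact ht
    refine ⟨e⁻¹, z⁻¹, -t / (1 + s * t), ?_, ?_, ?_, ?_, ?_, ?_⟩
    · rw [map_div₀, hu, div_one]
      exact hnt
    · rw [map_inv₀, ← mul_inv, h1, inv_one]
    · rw [map_inv₀, h2, inv_one]
    · have hq : 1 + s * (-t / (1 + s * t)) = (1 + s * t)⁻¹ := by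
        field_simp
        ring
      rw [hq, h3, mul_inv, inv_pow]
    · rw [← h4, ← map_neg]
      show _ = ρ ⟨-t, hnt⟩
      rw [Rc_rho hρ]
      have e1 : -t / (1 + s * t) - -t = s * (t * t) / (1 + s * t) := by
        rw [eq_div_iff hu0, sub_mul, div_mul_cancel₀ _ hu0]
        ring
      rw [e1, map_div₀, hu, div_one]
      exact Rc_st hR (Rc_mul ht ht)
    · exact locSol_inv two_ne_zero three_ne_zero hb hc he0 h5

lemma Rc_mem (hV : Hens3 V) (hR : Ram V s ι) (hρs : Function.Surjective ρ)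
    (hρ : ∀ x : V.integer, ρ x = 0 ↔ V x < 1) {a' b' α c : F} (hb : b' ≠ 0) (hc0 : c ≠ 0)
    (ha : 3 * a' = s * α) (hc : 9 * b' + 4 * a' ^ 3 = s * c) (hα : ι α = α) (hcι : ι c = c)
    (h1 : V α ≤ 1) (h2 : V c ≤ 1) {M : AddSubgroup k}
    (hM : ∀ m, m ∈ M ↔ Rc_P V ρ s ι a' (9 * b' + 4 * a' ^ 3) m) (x : k) :
    2 * ρ ⟨α, h1⟩ * x + 2 * ρ ⟨c, h2⟩ * x ^ 3 ∈ M := by
  rcases eq_or_ne x 0 with rfl | hx
  · have e1 : 2 * ρ ⟨α, h1⟩ * (0 : k) + 2 * ρ ⟨c, h2⟩ * 0 ^ 3 = 0 := by ring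
    rw [e1]
    exact M.zero_mem
  · obtain ⟨⟨η, hη1⟩, rfl⟩ := hρs x
    have hη1' : V η ≤ 1 := hη1
    have hη : V η = 1 := by
      refine le_antisymm hη1' (not_lt.1 fun h => hx ?_)
      rw [hρ]
      exact h
    obtain ⟨e, z, t, ht, g1, g2, g3, g4, g5⟩ := Rc_elt hV hR hb hc0 ha hc hα hcι h1 h2 hη
    rw [hM]
    refine ⟨e, z, t, ht, g1, g2, g3, ?_, g5⟩
    have e2 : 2 * ρ ⟨α, h1⟩ * ρ ⟨η, hη1⟩ + 2 * ρ ⟨c, h2⟩ * ρ ⟨η, hη1⟩ ^ 3 =
        ρ (2 * (⟨α, h1⟩ * ⟨η, hη1⟩ + ⟨c, h2⟩ * ⟨η, hη1⟩ ^ 3)) := by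
      rw [map_mul, map_add, map_mul, map_mul, map_pow, map_ofNat]
      ring
    rw [e2, ← sub_eq_zero, ← map_sub, hρ]
    exact g4

end

lemma Rc_card (M : AddSubgroup k) (h : ∀ h : Fin 4 → k, ∃ i j, i ≠ j ∧ h i - h j ∈ M) (r : Fin 10 → k) :
    ∃ φ : Fin 4 → Fin 10, Function.Injective φ ∧ ∀ j, r (φ j) - r (φ 0) ∈ M := by
  have := Fintype.ofFinite (k ⧸ M)
  have h3 : Fintype.card (k ⧸ M) ≤ 3 := by
    by_contra hlt
    have h4 : Fintype.card (Fin 4) ≤ Fintype.card (k ⧸ M) := by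
      rw [Fintype.card_fin]
      omega
    obtain ⟨f⟩ := Function.Embedding.nonempty_of_card_le h4
    choose g hg using fun i => QuotientAddGroup.mk_surjective (s := M) (f i)
    obtain ⟨i, j, hij, hm⟩ := h g
    apply hij
    apply f.injective
    rw [← hg i, ← hg j]
    symm
    rw [QuotientAddGroup.eq, neg_add_eq_sub]
    exact hm
  obtain ⟨y, -, hy⟩ := Finset.exists_lt_card_fiber_of_mul_lt_card_of_maps_to
    (s := (Finset.univ : Finset (Fin 10))) (t := (Finset.univ : Finset (k ⧸ M)))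
    (f := fun i => (r i : k ⧸ M)) (n := 3) (fun _ _ => Finset.mem_univ _) (by
      rw [Finset.card_univ, Finset.card_univ, Fintype.card_fin]
      omega)
  obtain ⟨S, hS⟩ : ∃ S : Finset (Fin 10), S = Finset.univ.filter fun i => (r i : k ⧸ M) = y := ⟨_, rfl⟩
  rw [← hS] at hy
  have hy' : 4 ≤ S.card := hy
  refine ⟨fun j => S.orderEmbOfCardLe hy' j, (S.orderEmbOfCardLe hy').injective, fun j => ?_⟩
  have hm : ∀ j, (r (S.orderEmbOfCardLe hy' j) : k ⧸ M) = y := fun j => by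
    have h6 := S.orderEmbOfCardLe_mem hy' j
    nth_rewrite 1 [hS] at h6
    exact (Finset.mem_filter.1 h6).2
  have e3 : ((r (S.orderEmbOfCardLe hy' 0) : k) : k ⧸ M) = (r (S.orderEmbOfCardLe hy' j) : k) := by
    rw [hm, hm]
  rw [QuotientAddGroup.eq, neg_add_eq_sub] at e3
  exact e3

theorem ram_bad (hV : Hens3 V) (hR : Ram V s ι) (hρs : Function.Surjective ρ)
    (hρ : ∀ x : V.integer, ρ x = 0 ↔ V x < 1) {a' b' α c : F} (hb : b' ≠ 0) (hc0 : c ≠ 0)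
    (ha : 3 * a' = s * α) (hc : 9 * b' + 4 * a' ^ 3 = s * c) (hα : ι α = α) (hcι : ι c = c)
    (h1 : V α ≤ 1) (h2 : V c ≤ 1) (h3 : V α = 1 ∨ V c = 1) (u : Fin 10 → F)
    (hu : ∀ i, u i * ι (u i) = 1) :
    ∃ i j, i ≠ j ∧ LocSol 1 a' (9 * b' + 4 * a' ^ 3) (u i / u j) := by
  have hch : CharP k 3 := Rc_char hR hρ
  have hcc : 9 * b' + 4 * a' ^ 3 ≠ 0 := by
    rw [hc]
    exact mul_ne_zero (Rc_s0 hR) hc0
  obtain ⟨M, hM⟩ := Rc_M (ι := ι) hR hρ hb hcc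
  have h20 : (2 : k) ≠ 0 := by
    intro h0
    have h3' : (3 : k) = 0 := by exact_mod_cast CharP.cast_eq_zero k 3
    have h1' : (1 : k) = 0 := by linear_combination h3' - h0
    exact one_ne_zero h1'
  have hne : ∀ {x : F} (hx : V x ≤ 1), V x = 1 → 2 * ρ ⟨x, hx⟩ ≠ 0 := by
    intro x hx hx1 h0
    rcases mul_eq_zero.1 h0 with h | h
    · exact h20 h
    · rw [hρ] at h
      have h' : V x < 1 := h
      rw [hx1] at h'
      exact lt_irrefl _ h'
  have hAB : 2 * ρ ⟨α, h1⟩ ≠ 0 ∨ 2 * ρ ⟨c, h2⟩ ≠ 0 := by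
    rcases h3 with h | h
    · exact Or.inl (hne h1 h)
    · exact Or.inr (hne h2 h)
  have hix : ∀ h : Fin 4 → k, ∃ i j, i ≠ j ∧ h i - h j ∈ M := fun h =>
    index_three M (Γ := 0) hAB (fun x _ => Rc_mem hV hR hρs hρ hb hc0 ha hc hα hcι h1 h2 hM x) h
  have huV : ∀ i, V (u i) = 1 := fun i => Rc_norm hR (hu i)
  choose z t hz ht e using fun i => exists_t hR hρs hρ (huV i)
  obtain ⟨φ, hφ, hφM⟩ := Rc_card M hix (fun i => ρ ⟨t i, ht i⟩)
  choose E Z T hT g1 g2 g3 g4 g5 using fun j => (hM _).1 (hφM j)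
  have hu0 : ∀ i, u i ≠ 0 := fun i => Pool.Agent.H10.ne_zero_of_V (huV i)
  have hz0 : ∀ i, z i ≠ 0 := fun i => Pool.Agent.H10.ne_zero_of_V (hz i)
  have hE0 : ∀ j, E j ≠ 0 := fun j => Pool.Agent.H10.ne_zero_of_V (Rc_norm hR (g1 j))
  have hZ0 : ∀ j, Z j ≠ 0 := fun j => Pool.Agent.H10.ne_zero_of_V (g2 j)
  have hw : ∀ j, V ((1 + s * t (φ 0)) * (1 + s * T j)) = 1 := fun j => by
    rw [map_mul, Rc_u hR (ht _), Rc_u hR (hT _), one_mul]
  have hsmall : ∀ j, V ((t (φ j) - t (φ 0) - T j - s * (t (φ 0) * T j)) /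
      ((1 + s * t (φ 0)) * (1 + s * T j))) < 1 := by
    intro j
    rw [map_div₀, hw j, div_one]
    have e1 : V (t (φ j) - t (φ 0) - T j) < 1 := by
      have e2 := (g4 j).symm
      rw [← sub_eq_zero, ← map_sub, ← map_sub, hρ] at e2
      exact e2
    have e3 : V (-(s * (t (φ 0) * T j))) < 1 := by
      rw [Valuation.map_neg]
      exact Rc_st hR (Rc_mul (ht _) (hT j))
    rw [sub_eq_add_neg]
    exact Rc_addl e1 e3
  obtain ⟨i, j, hij, x, hx⟩ := four_cube hV hR hρs hρ (fun j => u (φ j) / (u (φ 0) * E j))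
    (fun j => z (φ j) / (z (φ 0) * Z j))
    (fun j => (t (φ j) - t (φ 0) - T j - s * (t (φ 0) * T j)) / ((1 + s * t (φ 0)) * (1 + s * T j)))
    (fun j => by
      have q1 := hu (φ j)
      have q2 := hu (φ 0)
      have q3 := g1 j
      have q4 : ι (u (φ 0)) ≠ 0 := (map_ne_zero ι).2 (hu0 _)
      have q5 : ι (E j) ≠ 0 := (map_ne_zero ι).2 (hE0 _)
      have q6 := hu0 (φ 0)
      have q7 := hE0 j
      show u (φ j) / (u (φ 0) * E j) * ι (u (φ j) / (u (φ 0) * E j)) = 1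
      rw [map_div₀, map_mul, div_mul_div_comm, q1]
      have q8 : u (φ 0) * E j * (ι (u (φ 0)) * ι (E j)) = 1 := by
        linear_combination (E j * ι (E j)) * q2 + q3
      rw [q8, div_one])
    (fun j => by
      show V (z (φ j) / (z (φ 0) * Z j)) = 1
      rw [map_div₀, map_mul, hz, hz, g2, one_mul, div_one])
    (fun j => (hsmall j).le)
    (fun j => by
      have q1 := Rc_u0 hR (ht (φ 0))
      have q2 := Rc_u0 hR (hT j)
      have q3 := hz0 (φ 0)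
      have q4 := hZ0 j
      have q5 : 1 + s * ((t (φ j) - t (φ 0) - T j - s * (t (φ 0) * T j)) /
          ((1 + s * t (φ 0)) * (1 + s * T j))) =
          (1 + s * t (φ j)) / ((1 + s * t (φ 0)) * (1 + s * T j)) := by
        rw [eq_div_iff (mul_ne_zero q1 q2), add_mul, mul_assoc s, div_mul_cancel₀ _ (mul_ne_zero q1 q2)]
        ring
      show u (φ j) / (u (φ 0) * E j) = (z (φ j) / (z (φ 0) * Z j)) ^ 3 * _
      rw [q5, e (φ j), e (φ 0), g3 j, div_pow, mul_pow, div_mul_div_comm]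
      congr 1
      ring)
    (fun i j => by
      rw [sub_eq_add_neg]
      refine Rc_addl (hsmall i) ?_
      rw [Valuation.map_neg]
      exact hsmall j)
  refine ⟨φ i, φ j, fun h => hij (hφ h), ?_⟩
  have q6 := hu0 (φ 0)
  have q7 := hE0 j
  have q8 := hu0 (φ j)
  have q9 := hE0 i
  have hx' : u (φ i) / (u (φ 0) * E i) / (u (φ j) / (u (φ 0) * E j)) = x ^ 3 := hx
  have hx0 : x ≠ 0 := by
    rintro rfl
    rw [zero_pow (by norm_num)] at hx'
    exact div_ne_zero (div_ne_zero (hu0 _) (mul_ne_zero q6 q9)) (div_ne_zero q8 (mul_ne_zero q6 q7)) hx'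
  have e1 : u (φ i) / u (φ j) = E i / E j * x ^ 3 := by
    rw [← hx']
    field_simp
  rw [e1]
  exact locSol_mul_cube hx0 (locSol_div two_ne_zero three_ne_zero hb hcc q9 q7 (g5 i) (g5 j))

theorem ram_bad' (hV : Hens3 V) (hR : Ram V s ι) (hρs : Function.Surjective ρ)
    (hρ : ∀ x : V.integer, ρ x = 0 ↔ V x < 1) {a' b' α c : F} (hb : b' ≠ 0) (hc0 : c ≠ 0)
    (ha : 3 * a' = s * α) (hc : 9 * b' + 4 * a' ^ 3 = s * c) (hα : ι α = α) (hcι : ι c = c)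
    {i : ℕ} (h : (V α ≤ exp (-(2 * (i : ℤ))) ∧ V c = exp (-(6 * (i : ℤ)))) ∨
      (V α = exp (-(2 * (i : ℤ))) ∧ V c ≤ exp (-(6 * (i : ℤ))))) (u : Fin 10 → F)
    (hu : ∀ i, u i * ι (u i) = 1) :
    ∃ i j, i ≠ j ∧ LocSol 1 a' (9 * b' + 4 * a' ^ 3) (u i / u j) := by
  have h30 : (3 : F) ≠ 0 := three_ne_zero
  obtain ⟨r, hr⟩ : ∃ r : F, r = (3⁻¹ : F) ^ i := ⟨_, rfl⟩
  have hr0 : r ≠ 0 := by
    rw [hr]
    exact pow_ne_zero _ (inv_ne_zero h30)
  have hrι : ι r = r := by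
    rw [hr, map_pow, map_inv₀, map_ofNat]
  have hrV : V r = exp (2 * (i : ℤ)) := by
    rw [hr, map_pow, map_inv₀, hR.three, ← exp_neg, ← exp_nsmul]
    congr 1
    simp only [neg_neg, nsmul_eq_mul]
    ring
  have hr3V : V (r ^ 3) = exp (6 * (i : ℤ)) := by
    rw [map_pow, hrV, ← exp_nsmul]
    congr 1
    simp only [nsmul_eq_mul, Nat.cast_ofNat]
    ring
  have m1 : (exp (2 * (i : ℤ)) : WithZero (Multiplicative ℤ)) * exp (-(2 * (i : ℤ))) = 1 := by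
    rw [← exp_add, add_neg_cancel, exp_zero]
  have m3 : (exp (6 * (i : ℤ)) : WithZero (Multiplicative ℤ)) * exp (-(6 * (i : ℤ))) = 1 := by
    rw [← exp_add, add_neg_cancel, exp_zero]
  have hA : (V (r * α) ≤ 1 ∧ V (r ^ 3 * c) = 1) ∨ (V (r * α) = 1 ∧ V (r ^ 3 * c) ≤ 1) := by
    rw [map_mul, map_mul, hrV, hr3V]
    rcases h with ⟨p, q⟩ | ⟨p, q⟩
    · left
      refine ⟨?_, by rw [q, m3]⟩
      rw [← m1]
      exact mul_le_mul' le_rfl p
    · right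
      refine ⟨by rw [p, m1], ?_⟩
      rw [← m3]
      exact mul_le_mul' le_rfl q
  have e1 : 9 * (r ^ 3 * b') + 4 * (r * a') ^ 3 = r ^ 3 * (9 * b' + 4 * a' ^ 3) := by ring
  obtain ⟨i', j', hij, hL⟩ := ram_bad hV hR hρs hρ (a' := r * a') (b' := r ^ 3 * b') (α := r * α)
    (c := r ^ 3 * c) (mul_ne_zero (pow_ne_zero _ hr0) hb) (mul_ne_zero (pow_ne_zero _ hr0) hc0)
    (by linear_combination r * ha) (by rw [e1, hc]; ring) (by rw [map_mul, hrι, hα])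
    (by rw [map_mul, map_pow, hrι, hcι]) (by rcases hA with h | h; exacts [h.1, h.1.le])
    (by rcases hA with h | h; exacts [h.2.le, h.2]) (by rcases hA with h | h; exacts [Or.inr h.2, Or.inl h.1])
    u hu
  refine ⟨i', j', hij, ?_⟩
  rw [e1, locSol_scale hr0] at hL
  exact hL

end H86D
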