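import Pool.Agent.H86.T3D.Df

/-!
Row Um (about 200 lines): units of norm one modulo cubes.

PROOF. `X := Fin (rank B) → Fin 3`, `|X| = 3 ^ rank B`. Equivalence relation on `X`: `e ~ e'` iff `mm σ (u3 B e) / mm σ (u3 B e')` is a cube in `B`. Each class has at most `3 ^ (rank L + 1)` elements: fix `e₀`; for `e ~ e₀` put `y := u3 B e / u3 B e₀` (a unit): `mm σ y = y / σ y = x^3`. `N := y * σ y`, a unit of `𝓞 L` (norm; `y * σ y` is fixed by `σ` so lies in `L`,
 integral, with integral inverse: or `Algebra.norm`/`RingOfIntegers.norm`), `y^2 = N x^3`, so `y = y^4 / y^3 = N^2 (x^2 / y)^3`. By Dirichlet `N = ζ * u3 L e' * z^3` with `ζ` in the torsion of `(𝓞 L)ˣ` (exponents modulo 3; exist_unique_eq_mul_prod, see u3_inj in H86/T3G/Un3.lean), and `ζ = ω^j * (cube)`, `j ∈ Fin 3`, for a generator `ω` of the torsion group (cyclic).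
 The map `e ↦ (e', j)` is injective on the class: if `e₁, e₂` have the same `(e', j)` then `N₁ / N₂` is a cube, `y₁ / y₂ = u3 B e₁ / u3 B e₂` is a cube in `B`, so the cube of a unit (cube_unit) and `e₁ = e₂` (u3_inj). So each class has at most `3 ^ rank L * 3` elements, and a system of representatives (Quotient.out, finite) has `m` elements
 with `3 ^ rank B ≤ m * 3 ^ (rank L + 1)`; number it by `Fin m`.
-/

set_option autoImplicit false
open scoped Classical

open WeierstrassCurve IsDedekindDomain NumberField NumberField.Units Pool.Agent.H10 Pool.Agent.H11 H55T3 H86T3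

namespace H86D

lemma Um_norm {L B : Type} [Field L] [NumberField L] [Field B] [NumberField B]
    [Algebra L B] {D : L} {s : B} {σ : B ≃ₐ[L] B} (hQ : QD D s σ) (y : B) :
    ∃ n : L, algebraMap L B n = y * σ y := by
  have hli : LinearIndependent L ![(1 : B), s] := by
    rw [LinearIndependent.pair_iff]
    intro a b hab
    have h1 : σ (a • (1 : B) + b • s) = 0 := by rw [hab, map_zero]
    rw [Algebra.smul_def, Algebra.smul_def, map_add, map_mul, map_mul, σ.commutes, σ.commutes,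
      map_one, hQ.neg, ← Algebra.smul_def, ← Algebra.smul_def] at h1
    have h2 : (2 * a) • (1 : B) = 0 := by
      have h3 : (2 * a) • (1 : B) = (a • (1 : B) + b • s) + (a • (1 : B) + b • -s) := by
        rw [smul_neg, two_mul, add_smul]
        ring
      rw [h3, hab, h1, add_zero]
    have ha : a = 0 := by
      rcases smul_eq_zero.1 h2 with h3 | h3
      · exact (mul_eq_zero.1 h3).resolve_left two_ne_zero
      · exact absurd h3 one_ne_zero
    refine ⟨ha, ?_⟩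
    rw [ha, zero_smul, zero_add] at hab
    exact (smul_eq_zero.1 hab).resolve_right hQ.s0
  have hsp := hli.span_eq_top_of_card_eq_finrank' (by rw [Fintype.card_fin, hQ.rk])
  have hy : y ∈ Submodule.span L (Set.range ![(1 : B), s]) := by
    rw [hsp]
    exact Submodule.mem_top
  obtain ⟨c, hc⟩ := (Submodule.mem_span_range_iff_exists_fun L).1 hy
  rw [Fin.sum_univ_two] at hc
  change c 0 • (1 : B) + c 1 • s = y at hc
  refine ⟨c 0 ^ 2 - c 1 ^ 2 * D, ?_⟩
  rw [← hc, Algebra.smul_def, Algebra.smul_def, map_add, map_mul, map_mul, σ.commutes,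
    σ.commutes, map_one, hQ.neg, map_sub, map_mul, map_pow, map_pow, ← hQ.sq]
  ring

lemma Um_unit {L B : Type} [Field L] [NumberField L] [Field B] [NumberField B]
    [Algebra L B] {D : L} {s : B} {σ : B ≃ₐ[L] B} (hQ : QD D s σ) (u : (𝓞 B)ˣ) :
    ∃ N : (𝓞 L)ˣ, algebraMap L B ((N : 𝓞 L) : L) = ((u : 𝓞 B) : B) * σ ((u : 𝓞 B) : B) := by
  have hint : ∀ v : 𝓞 B, ∃ n : 𝓞 L, algebraMap L B (n : L) = (v : B) * σ (v : B) := by
    intro v
    obtain ⟨n, hn⟩ := Um_norm hQ (v : B)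
    have h1 : IsIntegral ℤ (algebraMap L B n) := by
      rw [hn]
      have h2 : IsIntegral ℤ (v : B) := RingOfIntegers.isIntegral_coe v
      exact h2.mul (h2.map (σ.toAlgHom.restrictScalars ℤ))
    have h3 : IsIntegral ℤ n := (isIntegral_algebraMap_iff (algebraMap L B).injective).1 h1
    exact ⟨⟨n, h3⟩, hn⟩
  obtain ⟨n, hn⟩ := hint (u : 𝓞 B)
  obtain ⟨n', hn'⟩ := hint ((u⁻¹ : (𝓞 B)ˣ) : 𝓞 B)
  have h1 : ((u : 𝓞 B) : B) * (((u⁻¹ : (𝓞 B)ˣ) : 𝓞 B) : B) = 1 := by
    have h2 : (u : 𝓞 B) * ((u⁻¹ : (𝓞 B)ˣ) : 𝓞 B) = 1 := u.mul_inv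
    have h3 := congrArg (fun z : 𝓞 B => (z : B)) h2
    exact h3
  have h4 : n * n' = 1 := by
    apply RingOfIntegers.ext
    apply (algebraMap L B).injective
    change algebraMap L B ((n : L) * (n' : L)) = algebraMap L B 1
    rw [map_mul, hn, hn', map_one]
    calc _ = (((u : 𝓞 B) : B) * (((u⁻¹ : (𝓞 B)ˣ) : 𝓞 B) : B)) *
          σ (((u : 𝓞 B) : B) * (((u⁻¹ : (𝓞 B)ˣ) : 𝓞 B) : B)) := by rw [map_mul]; ring
      _ = 1 := by rw [h1, map_one, mul_one]
  exact ⟨⟨n, n', h4, by rw [mul_comm]; exact h4⟩, hn⟩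

lemma Um_class (L : Type) [Field L] [NumberField L] :
    ∃ c : (𝓞 L)ˣ → (Fin (rank L) → ZMod 3) × ZMod 3, ∀ x y, c x = c y → ∃ z, x = y * z ^ 3 := by
  have h := fun x : (𝓞 L)ˣ => (exist_unique_eq_mul_prod L x).exists
  choose p hp using h
  obtain ⟨g, hg⟩ := IsCyclic.exists_generator (α := torsion L)
  have hk : ∀ ζ : torsion L, ∃ k : ℤ, g ^ k = ζ := fun ζ => Subgroup.mem_zpowers_iff.1 (hg ζ)
  choose k hk using hk
  refine ⟨fun x => (fun i => ((p x).2 i : ZMod 3), (k (p x).1 : ZMod 3)), fun x y hxy => ?_⟩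
  have h1 : ∀ i, ∃ m : ℤ, (p x).2 i = (p y).2 i + 3 * m := by
    intro i
    have h2 := congrFun (congrArg Prod.fst hxy) i
    change ((p x).2 i : ZMod 3) = ((p y).2 i : ZMod 3) at h2
    have h3 := ((ZMod.intCast_eq_intCast_iff_dvd_sub _ _ 3).1 h2.symm)
    obtain ⟨m, hm⟩ := h3
    exact ⟨m, by push_cast at hm; linarith⟩
  have h2 : ∃ m : ℤ, k (p x).1 = k (p y).1 + 3 * m := by
    have h2 := congrArg Prod.snd hxy
    change (k (p x).1 : ZMod 3) = (k (p y).1 : ZMod 3) at h2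
    have h3 := ((ZMod.intCast_eq_intCast_iff_dvd_sub _ _ 3).1 h2.symm)
    obtain ⟨m, hm⟩ := h3
    exact ⟨m, by push_cast at hm; linarith⟩
  choose m hm using h1
  obtain ⟨m', hm'⟩ := h2
  refine ⟨((g ^ m' : torsion L) : (𝓞 L)ˣ) * ∏ i, fundSystem L i ^ m i, ?_⟩
  have hx := hp x
  have hy := hp y
  rw [hx, hy, mul_pow, ← Finset.prod_pow]
  have e1 : ((p x).1 : (𝓞 L)ˣ) = ((p y).1 : (𝓞 L)ˣ) * ((g ^ m' : torsion L) : (𝓞 L)ˣ) ^ 3 := by
    rw [← hk (p x).1, ← hk (p y).1, hm', zpow_add, mul_comm (3 : ℤ), zpow_mul]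
    rfl
  have e2 : ∏ i, fundSystem L i ^ ((p x).2 i) =
      (∏ i, fundSystem L i ^ ((p y).2 i)) * ∏ i, (fundSystem L i ^ m i) ^ 3 := by
    rw [← Finset.prod_mul_distrib]
    refine Finset.prod_congr rfl fun i _ => ?_
    rw [hm i, zpow_add, mul_comm (3 : ℤ), zpow_mul]
    rfl
  rw [e1, e2]
  exact mul_mul_mul_comm _ _ _ _

lemma Um_mul {L B : Type} [Field L] [Field B] [Algebra L B] (σ : B ≃ₐ[L] B) (x y : B) :
    mm σ (x * y) = mm σ x * mm σ y := by
  unfold mm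
  rw [map_mul, mul_div_mul_comm]

lemma Um_ne {L B : Type} [Field L] [Field B] [Algebra L B] (σ : B ≃ₐ[L] B) {x : B} (hx : x ≠ 0) :
    mm σ x ≠ 0 := div_ne_zero hx ((map_ne_zero σ).2 hx)

theorem exists_minus {L B : Type} [Field L] [NumberField L] [Field B] [NumberField B]
    [Algebra L B] {D : L} {s : B} {σ : B ≃ₐ[L] B} (hQ : QD D s σ) :
    ∃ (m : ℕ) (v : Fin m → (𝓞 B)ˣ), 3 ^ rank B ≤ m * 3 ^ (rank L + 1) ∧
      ∀ i j, (∃ x : B, mm σ ((v i : 𝓞 B) : B) / mm σ ((v j : 𝓞 B) : B) = x ^ 3) → i = j := by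
  have hne : ∀ u : (𝓞 B)ˣ, ((u : 𝓞 B) : B) ≠ 0 := fun u => coe_ne_zero u
  have hmne : ∀ u : (𝓞 B)ˣ, mm σ ((u : 𝓞 B) : B) ≠ 0 := fun u => Um_ne σ (hne u)
  let r : Setoid (Fin (rank B) → Fin 3) :=
    { r := fun e e' => ∃ x : B, mm σ ((u3 B e : 𝓞 B) : B) / mm σ ((u3 B e' : 𝓞 B) : B) = x ^ 3
      iseqv := ⟨fun e => ⟨1, by rw [div_self (hmne _), one_pow]⟩,
        fun {e e'} h => by
          obtain ⟨x, hx⟩ := h
          exact ⟨x⁻¹, by rw [inv_pow, ← hx, inv_div]⟩,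
        fun {e e' e''} h h' => by
          obtain ⟨x, hx⟩ := h
          obtain ⟨x', hx'⟩ := h'
          exact ⟨x * x', by rw [mul_pow, ← hx, ← hx', div_mul_div_cancel₀ (hmne _)]⟩⟩ }
  choose N hN using fun u : (𝓞 B)ˣ => Um_unit hQ u
  obtain ⟨c, hc⟩ := Um_class L
  let n : ℕ := Fintype.card (Quotient r)
  let v : Fin n → (𝓞 B)ˣ := fun i => u3 B ((Fintype.equivFin (Quotient r)).symm i).out
  refine ⟨n, v, ?_, ?_⟩
  · let F : (Fin (rank B) → Fin 3) → Quotient r × ((Fin (rank L) → ZMod 3) × ZMod 3) :=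
      fun e => (⟦e⟧, c (N (u3 B e / u3 B (⟦e⟧ : Quotient r).out)))
    have hinj : Function.Injective F := by
      intro e₁ e₂ h
      have hq : (⟦e₁⟧ : Quotient r) = ⟦e₂⟧ := congrArg Prod.fst h
      have hcc : c (N (u3 B e₁ / u3 B (⟦e₁⟧ : Quotient r).out)) =
          c (N (u3 B e₂ / u3 B (⟦e₂⟧ : Quotient r).out)) := congrArg Prod.snd h
      have r1 : r.r e₁ (⟦e₁⟧ : Quotient r).out := Quotient.exact (Quotient.out_eq _).symm
      have r2 : r.r e₂ (⟦e₁⟧ : Quotient r).out := by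
        rw [hq]
        exact Quotient.exact (Quotient.out_eq _).symm
      rw [← hq] at hcc
      set e₀ := (⟦e₁⟧ : Quotient r).out with he₀
      obtain ⟨z, hz⟩ := hc _ _ hcc
      obtain ⟨x₁, hx₁⟩ := r1
      obtain ⟨x₂, hx₂⟩ := r2
      have key : ∀ (e : Fin (rank B) → Fin 3) (x : B),
          mm σ ((u3 B e : 𝓞 B) : B) / mm σ ((u3 B e₀ : 𝓞 B) : B) = x ^ 3 →
          (((u3 B e : 𝓞 B) : B) / ((u3 B e₀ : 𝓞 B) : B)) ^ 2 =
            algebraMap L B ((N (u3 B e / u3 B e₀) : 𝓞 L) : L) * x ^ 3 := by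
        intro e x hx
        have hdiv : (((u3 B e / u3 B e₀ : (𝓞 B)ˣ) : 𝓞 B) : B) =
            ((u3 B e : 𝓞 B) : B) / ((u3 B e₀ : 𝓞 B) : B) := by
          rw [eq_div_iff (hne _)]
          have h2 : ((u3 B e / u3 B e₀ : (𝓞 B)ˣ) : 𝓞 B) * (u3 B e₀ : 𝓞 B) = (u3 B e : 𝓞 B) := by
            rw [← Units.val_mul, div_mul_cancel]
          exact congrArg (fun z : 𝓞 B => (z : B)) h2
        rw [hN, hdiv, ← hx]
        unfold mm
        have a1 := hne (u3 B e)
        have a2 := hne (u3 B e₀)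
        have a3 : σ ((u3 B e : 𝓞 B) : B) ≠ 0 := (map_ne_zero σ).2 a1
        have a4 : σ ((u3 B e₀ : 𝓞 B) : B) ≠ 0 := (map_ne_zero σ).2 a2
        rw [map_div₀]
        field_simp
      have k1 := key e₁ x₁ hx₁
      have k2 := key e₂ x₂ hx₂
      have hz' : algebraMap L B ((N (u3 B e₁ / u3 B e₀) : 𝓞 L) : L) =
          algebraMap L B ((N (u3 B e₂ / u3 B e₀) : 𝓞 L) : L) *
            (algebraMap L B ((z : 𝓞 L) : L)) ^ 3 := by
        rw [hz, ← map_pow, ← map_mul]
        rfl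
      have n0 := hne (u3 B e₀)
      have n1 := hne (u3 B e₁)
      have n2 := hne (u3 B e₂)
      have hx20 : x₂ ≠ 0 := by
        intro h0
        rw [h0] at hx₂
        have := div_ne_zero (hmne (u3 B e₂)) (hmne (u3 B e₀))
        exact this (by rw [hx₂]; ring)
      have hN20 : algebraMap L B ((N (u3 B e₂ / u3 B e₀) : 𝓞 L) : L) ≠ 0 := by
        rw [map_ne_zero]
        exact coe_ne_zero _
      set a := ((u3 B e₁ : 𝓞 B) : B) with ha
      set b := ((u3 B e₂ : 𝓞 B) : B) with hb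
      set d := ((u3 B e₀ : 𝓞 B) : B) with hd
      set w := algebraMap L B ((z : 𝓞 L) : L) with hw
      have hab : (a / b) ^ 2 = (w * x₁ / x₂) ^ 3 := by
        have h1 : (a / b) ^ 2 = (a / d) ^ 2 / (b / d) ^ 2 := by
          field_simp
        rw [h1, k1, k2, hz']
        field_simp
      have hcube : a / b = ((w * x₁ / x₂) ^ 2 / (a / b)) ^ 3 := by
        have h0 : a / b ≠ 0 := div_ne_zero n1 n2
        rw [div_pow, eq_div_iff (pow_ne_zero 3 h0), ← pow_mul, mul_comm 2 3, pow_mul, ← hab]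
        ring
      have hdiv : (((u3 B e₁ / u3 B e₂ : (𝓞 B)ˣ) : 𝓞 B) : B) = a / b := by
        rw [eq_div_iff n2]
        have h2 : ((u3 B e₁ / u3 B e₂ : (𝓞 B)ˣ) : 𝓞 B) * (u3 B e₂ : 𝓞 B) = (u3 B e₁ : 𝓞 B) := by
          rw [← Units.val_mul, div_mul_cancel]
        exact congrArg (fun z : 𝓞 B => (z : B)) h2
      obtain ⟨y, hy⟩ := cube_unit (hdiv.trans hcube)
      refine u3_inj (x := y) ?_
      rw [← hy, mul_div_cancel]
    have hcard := Fintype.card_le_of_injective F hinj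
    rw [Fintype.card_prod, Fintype.card_prod, Fintype.card_fun, Fintype.card_fun, Fintype.card_fin,
      Fintype.card_fin, Fintype.card_fin, ZMod.card] at hcard
    rw [pow_succ]
    exact hcard
  · intro i j hij
    have h1 : (((Fintype.equivFin (Quotient r)).symm i : Quotient r)) =
        (Fintype.equivFin (Quotient r)).symm j := by
      rw [← Quotient.out_eq ((Fintype.equivFin (Quotient r)).symm i),
        ← Quotient.out_eq ((Fintype.equivFin (Quotient r)).symm j)]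
      exact Quotient.sound hij
    exact (Fintype.equivFin (Quotient r)).symm.injective h1

end H86D
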