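import Pool.Agent.H86.T3D.Tp

/-!
Row Uw (about 220 lines): pigeonhole at the places above three where `B/L` is unramified.

Setting: `w` a place of `L`, `w'` a place of `B` above it, `3 ∈ w'`, `3 ∉ w'^2` (so `V 3 = exp (-1)` in the completion at `w'`, H86T3.V3), `q = N w`, `q' = N w'`.
PROOF. Case `q' = q`: cube_pigeon_wild (H86/T3G/Kap.lean) as in `unit_wild3` (H86/T3G/Plc3.lean) for the elements `mm σ (u i)` (valuation one: `u i`, `σ (u i)` are units of `𝓞 B`; valuation at `w'` of a unit is one).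
 Case `q' ≠ q`: `efg = 2` for `w'` over `w`, so `N w' = q^f`, `f ≤ 2`, `f = 2` and `w'` is the only place above `w` (Mathlib: Ideal.sum_ramification_inertia, Ideal.absNorm as a power: `Ideal.absNorm_eq_pow_inertiaDeg'`/`Ideal.absNorm_relNorm`; or elementary: `𝓞 B / w'` is an `𝓞 L / w`-vector space of dimension `≤ 2`), so `sw σ w' = w'` and `q' = q^2`,
  and `w'.valuation B (σ x) = w'.valuation B x` (sw_val). Let `k := 𝓞 B / w'` (finite field of characteristic three), `σ̄` the induced automorphism. For a unit `u`, `m := mm σ u`, `m * σ m = 1`. Choose `z ∈ 𝓞 B` with `z^3 ≡ m mod w'` (cubing is bijective on `k`; `m` is an algebraic integer: `σ u` is a unit), `m = z^3 (1 + 3 h)` with `h ∈ B`, `w'.valuation h ≤ 1`.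
  Then `1 = m σ m = (z σ z)^3 (1 + 3 h)(1 + 3 σ h)`; `c := 1/(z σ z)`: `c^3 = (1 + 3 h)(1 + 3 σ h) ≡ 1 mod 3`, so `c ≡ 1` modulo the maximal ideal (`(c - 1)^3 ≡ c^3 - 1`), `c = 1 + 3 c'`, `c^3 ≡ 1 mod 9` and `h + σ h ≡ 0` modulo the maximal ideal: the class `h̄ ∈ k` satisfies `σ̄ h̄ = - h̄`. (`h̄`: `h` is congruent to an algebraic integer: H73IS.int_close.)
  The group `k⁻ := {x ∈ k | σ̄ x = -x}` has at most `q` elements: `k⁻ ∩ k⁺ = 0` (`2 ≠ 0` in `k`), where `k⁺ := {σ̄ x = x}` contains the image of `𝓞 L / w` (`q` elements), so `|k⁻| * q ≤ |k| = q^2` (the map `k⁻ × k⁺ → k` is injective).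
  Among `q + 1` units two have the same `h̄`: cube_of_congr (H86/T3G/Kap.lean) in the completion at `w'` gives that `m_i / m_j = (z_i / z_j)^3 (1 + 3 h_i)/(1 + 3 h_j)` is a cube.
-/

set_option autoImplicit false
open scoped Classical

open WithZero WeierstrassCurve IsDedekindDomain NumberField Pool.Agent.H10 Pool.Agent.H11 H55T3 H86T3

namespace H86D

section

variable {L B : Type} [Field L] [NumberField L] [Field B] [NumberField B] [Algebra L B]
  {D : L} {s : B} {σ : B ≃ₐ[L] B}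

private theorem Uw_rep (hQ : QD D s σ) (y : B) :
    ∃ a b : L, y = algebraMap L B a + algebraMap L B b * s := by
  have h2 : (2 : B) ≠ 0 := two_ne_zero
  have hli : LinearIndependent L ![(1 : B), s] := by
    rw [LinearIndependent.pair_iff]
    intro a b h
    rw [Algebra.smul_def, Algebra.smul_def, mul_one] at h
    have h' := congrArg σ h
    rw [map_add, map_mul, AlgEquiv.commutes, AlgEquiv.commutes, hQ.neg, map_zero] at h'
    have h3 : algebraMap L B a = 0 := by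
      have h5 : 2 * algebraMap L B a = 0 := by linear_combination h + h'
      exact (mul_eq_zero.1 h5).resolve_left h2
    have h4 : algebraMap L B b = 0 := by
      rw [h3, zero_add] at h
      exact (mul_eq_zero.1 h).resolve_right hQ.s0
    exact ⟨(map_eq_zero _).1 h3, (map_eq_zero _).1 h4⟩
  have htop := hli.span_eq_top_of_card_eq_finrank' (by rw [Fintype.card_fin, hQ.rk])
  have hy : y ∈ Submodule.span L (Set.range ![(1 : B), s]) := by rw [htop]; trivial
  rw [Matrix.range_cons_cons_empty, Submodule.mem_span_pair] at hy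
  obtain ⟨a, b, h⟩ := hy
  exact ⟨a, b, by rw [← h, Algebra.smul_def, Algebra.smul_def, mul_one]⟩

private theorem Uw_invol (hQ : QD D s σ) (y : B) : σ (σ y) = y := by
  obtain ⟨a, b, rfl⟩ := Uw_rep hQ y
  simp only [map_add, map_mul, AlgEquiv.commutes, hQ.neg, map_neg, neg_neg]

private noncomputable abbrev Uw_g (σ : B ≃ₐ[L] B) : 𝓞 B ≃+* 𝓞 B :=
  RingOfIntegers.mapRingEquiv (σ : B ≃+* B)

private theorem Uw_tr (hQ : QD D s σ) (y : 𝓞 B) :
    ∃ t : 𝓞 L, algebraMap (𝓞 L) (𝓞 B) t = y + Uw_g σ y := by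
  obtain ⟨a, b, h⟩ := Uw_rep hQ (y : B)
  have e : ((y + Uw_g σ y : 𝓞 B) : B) = algebraMap L B (2 * a) := by
    change (y : B) + σ (y : B) = _
    rw [h, map_add, map_mul, AlgEquiv.commutes, AlgEquiv.commutes, hQ.neg, map_mul, map_ofNat]
    ring
  have hi : _root_.IsIntegral ℤ (2 * a) := by
    have h1 : _root_.IsIntegral ℤ ((y + Uw_g σ y : 𝓞 B) : B) := RingOfIntegers.isIntegral_coe _
    rw [e] at h1
    exact (isIntegral_algebraMap_iff (algebraMap L B).injective).1 h1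
  refine ⟨⟨2 * a, hi⟩, ?_⟩
  apply RingOfIntegers.ext
  rw [e]
  rfl

private theorem Uw_mem (hQ : QD D s σ) {w : HeightOneSpectrum (𝓞 B)} {x : 𝓞 B} :
    x ∈ (sw σ w).asIdeal ↔ Uw_g σ x ∈ w.asIdeal := by
  rw [mem_sw]
  have e : (RingOfIntegers.mapRingEquiv (σ.symm : B ≃+* B)) x = Uw_g σ x := by
    apply RingOfIntegers.ext
    change σ.symm (x : B) = σ (x : B)
    rw [AlgEquiv.symm_apply_eq, Uw_invol hQ]
  rw [e]

private theorem Uw_split (hQ : QD D s σ) {w : HeightOneSpectrum (𝓞 L)}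
    {w' : HeightOneSpectrum (𝓞 B)} (hov : Over w w') (hne : sw σ w' ≠ w') :
    Ideal.absNorm w'.asIdeal ≤ Ideal.absNorm w.asIdeal := by
  have hle : w.asIdeal ≤ w'.asIdeal.comap (algebraMap (𝓞 L) (𝓞 B)) := fun y hy => hov y hy
  have : Finite (𝓞 L ⧸ w.asIdeal) := w.asIdeal.finiteQuotientOfFreeOfNeBot w.ne_bot
  have hsurj : Function.Surjective
      (Ideal.quotientMap w'.asIdeal (algebraMap (𝓞 L) (𝓞 B)) hle) := by
    intro q
    obtain ⟨x, rfl⟩ := Ideal.Quotient.mk_surjective q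
    have hm1 : w'.asIdeal.IsMaximal := w'.isMaximal
    have hm2 : (sw σ w').asIdeal.IsMaximal := (sw σ w').isMaximal
    have hco : w'.asIdeal ⊔ (sw σ w').asIdeal = ⊤ := Ideal.IsMaximal.coprime_of_ne hm1 hm2
      (fun h => hne (HeightOneSpectrum.ext h.symm))
    have h1 : (1 : 𝓞 B) ∈ w'.asIdeal ⊔ (sw σ w').asIdeal := by rw [hco]; trivial
    obtain ⟨a, ha, b, hb, hab⟩ := Submodule.mem_sup.1 h1
    obtain ⟨t, ht⟩ := Uw_tr hQ (b * x)
    refine ⟨Ideal.Quotient.mk _ t, ?_⟩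
    rw [Ideal.quotientMap_mk, Ideal.Quotient.mk_eq_mk_iff_sub_mem, ht]
    have e : b * x + Uw_g σ (b * x) - x = Uw_g σ (b * x) - a * x := by
      linear_combination x * hab
    rw [e]
    exact Ideal.sub_mem _ ((Uw_mem hQ).1 (Ideal.mul_mem_right _ _ hb))
      (Ideal.mul_mem_right _ _ ha)
  change Nat.card (𝓞 B ⧸ w'.asIdeal) ≤ Nat.card (𝓞 L ⧸ w.asIdeal)
  exact Nat.card_le_card_of_surjective _ hsurj

private theorem Uw_line (hQ : QD D s σ) {w' : HeightOneSpectrum (𝓞 B)}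
    (h3 : (3 : 𝓞 B) ∈ w'.asIdeal) (hsw : sw σ w' = w') :
    ∃ x₀ : 𝓞 B, ∀ y : 𝓞 B, y + Uw_g σ y ∈ w'.asIdeal →
      ∃ a : 𝓞 L, y - algebraMap (𝓞 L) (𝓞 B) a * x₀ ∈ w'.asIdeal := by
  have hg : ∀ x : 𝓞 B, x ∈ w'.asIdeal → Uw_g σ x ∈ w'.asIdeal := by
    intro x hx
    rw [← Uw_mem hQ, hsw]
    exact hx
  by_cases hex : ∃ x₀ : 𝓞 B, x₀ + Uw_g σ x₀ ∈ w'.asIdeal ∧ x₀ ∉ w'.asIdeal
  · obtain ⟨x₀, h1, h2⟩ := hex
    refine ⟨x₀, fun y hy => ?_⟩
    obtain ⟨r, i, hi, hr⟩ := Ideal.IsMaximal.exists_inv w'.isMaximal h2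
    have ht : y * r * x₀ - y ∈ w'.asIdeal := by
      have e : y * r * x₀ - y = -(y * i) := by linear_combination y * hr
      rw [e]
      exact Ideal.neg_mem_iff _ |>.2 (Ideal.mul_mem_left _ _ hi)
    obtain ⟨t, htd⟩ : ∃ t, t = y * r := ⟨_, rfl⟩
    rw [← htd] at ht
    have hgt := hg _ ht
    rw [map_sub, map_mul] at hgt
    have hk : (t - Uw_g σ t) * x₀ ∈ w'.asIdeal := by
      have e : (t - Uw_g σ t) * x₀ = (t * x₀ - y) - Uw_g σ t * (x₀ + Uw_g σ x₀) +
          (Uw_g σ t * Uw_g σ x₀ - Uw_g σ y) + (y + Uw_g σ y) := by ring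
      rw [e]
      exact Ideal.add_mem _ (Ideal.add_mem _ (Ideal.sub_mem _ ht (Ideal.mul_mem_left _ _ h1))
        hgt) hy
    obtain ⟨c, hc⟩ := Uw_tr hQ t
    refine ⟨2 * c, ?_⟩
    rw [map_mul, map_ofNat, hc]
    have e : y - 2 * (t + Uw_g σ t) * x₀ =
        -(t * x₀ - y) - 3 * (t * x₀) + 2 * ((t - Uw_g σ t) * x₀) := by ring
    rw [e]
    exact Ideal.add_mem _ (Ideal.sub_mem _ (Ideal.neg_mem_iff _ |>.2 ht)
      (Ideal.mul_mem_right _ _ h3)) (Ideal.mul_mem_left _ _ hk)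
  · refine ⟨0, fun y hy => ⟨0, ?_⟩⟩
    have h1 : y ∈ w'.asIdeal := by
      by_contra hy'
      exact hex ⟨y, hy, hy'⟩
    simpa using h1

end

private theorem Uw_anti {F : Type*} [Field F] {V : Valuation F (WithZero (Multiplicative ℤ))}
    {τ : F →+* F} (hτ : ∀ x, V (τ x) = V x) (h3 : V 3 = exp (-1 : ℤ)) {m z h : F}
    (hz : V z = 1) (hh : V h ≤ 1) (hm : m = z ^ 3 * (1 + 3 * h)) (hn : m * τ m = 1) :
    V (h + τ h) < 1 := by
  have h30 : (3 : F) ≠ 0 := Kap_three_ne h3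
  have hz0 := ne_zero_of_V hz
  obtain ⟨c, hc⟩ : ∃ c, c = z * τ z := ⟨_, rfl⟩
  have hVc : V c = 1 := by rw [hc, map_mul, hτ, hz, one_mul]
  have hh' : V (τ h) ≤ 1 := by rw [hτ]; exact hh
  obtain ⟨g, hgd⟩ : ∃ g, g = h + τ h + 3 * (h * τ h) := ⟨_, rfl⟩
  have hVg : V g ≤ 1 := by
    rw [hgd]
    refine (V.map_add _ _).trans (max_le ((V.map_add _ _).trans (max_le hh hh')) ?_)
    refine (Kap_three_mul h3 ?_).le
    rw [map_mul]
    exact mul_le_one' hh hh'
  have hrel : c ^ 3 * (1 + 3 * g) = 1 := by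
    have e1 : m * τ m = c ^ 3 * (1 + 3 * g) := by
      rw [hm, hc, hgd, map_mul, map_pow, map_add, map_one, map_mul, map_ofNat]
      ring
    rw [← e1, hn]
  have h1 : V (c ^ 3 - 1) < 1 := by
    have e1 : c ^ 3 - 1 = -(3 * (g * c ^ 3)) := by linear_combination hrel
    rw [e1, Valuation.map_neg]
    apply Kap_three_mul h3
    rw [map_mul, map_pow, hVc, one_pow, mul_one]
    exact hVg
  have hc1 : V (c - 1) ≤ 1 := (V.map_sub _ _).trans (max_le hVc.le (by rw [map_one]))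
  have h2 : V ((c - 1) ^ 3) < 1 := by
    have e1 : (c - 1) ^ 3 = (c ^ 3 - 1) - 3 * (c * (c - 1)) := by ring
    rw [e1]
    refine (V.map_sub _ _).trans_lt (max_lt h1 (Kap_three_mul h3 ?_))
    rw [map_mul, hVc, one_mul]
    exact hc1
  have h4 : V (c - 1) < 1 := by
    by_contra h5
    have h6 : V (c - 1) = 1 := le_antisymm hc1 (not_lt.1 h5)
    rw [map_pow, h6, one_pow] at h2
    exact lt_irrefl _ h2
  obtain ⟨d, hd⟩ : ∃ d, d = (c - 1) / 3 := ⟨_, rfl⟩
  have hVd : V d ≤ 1 := by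
    rw [hd, map_div₀, h3, div_le_one₀ (zero_lt_iff.mpr exp_ne_zero)]
    exact le_exp_neg_one h4
  have hcd : c = 1 + 3 * d := by
    rw [hd]
    field_simp
    ring
  have h5 : g * c ^ 3 = -(3 * (c * d + 3 * d ^ 3)) := by
    have e1 : 3 * (g * c ^ 3) = 3 * -(3 * (c * d + 3 * d ^ 3)) := by
      have e2 : c ^ 3 - 1 = 3 * (3 * (c * d + 3 * d ^ 3)) := by
        have e3 : c ^ 3 - 1 = (c - 1) ^ 3 + 3 * c * (c - 1) := by ring
        have e4 : c - 1 = 3 * d := by rw [hcd]; ring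
        rw [e3, e4]
        ring
      linear_combination hrel - e2
    exact mul_left_cancel₀ h30 e1
  have h6 : V g < 1 := by
    have e1 : V g = V (g * c ^ 3) := by rw [map_mul, map_pow, hVc, one_pow, mul_one]
    rw [e1, h5, Valuation.map_neg]
    apply Kap_three_mul h3
    refine (V.map_add _ _).trans (max_le ?_ (Kap_three_mul h3 ?_).le)
    · rw [map_mul, hVc, one_mul]
      exact hVd
    · rw [map_pow]
      exact pow_le_one₀ zero_le hVd
  have e1 : h + τ h = g - 3 * (h * τ h) := by rw [hgd]; ring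
  rw [e1]
  refine (V.map_sub _ _).trans_lt (max_lt h6 (Kap_three_mul h3 ?_))
  rw [map_mul]
  exact mul_le_one' hh hh'

theorem wild_minus {L B : Type} [Field L] [NumberField L] [Field B] [NumberField B]
    [Algebra L B] {D : L} {s : B} {σ : B ≃ₐ[L] B} (hQ : QD D s σ)
    (w : HeightOneSpectrum (𝓞 L)) (w' : HeightOneSpectrum (𝓞 B)) (hov : Over w w')
    (h3 : (3 : 𝓞 B) ∈ w'.asIdeal) (h3' : (3 : 𝓞 B) ∉ w'.asIdeal ^ 2)
    (u : Fin (Ideal.absNorm w.asIdeal + 1) → (𝓞 B)ˣ) :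
    ∃ i j, i ≠ j ∧ ∃ t : w'.adicCompletion B,
      algebraMap B (w'.adicCompletion B)
        (mm σ ((u i : 𝓞 B) : B) / mm σ ((u j : 𝓞 B) : B)) = t ^ 3 := by
  have hV3 : w'.valuation B 3 = exp (-1 : ℤ) := H68TK.val_three_of_unram h3 h3'
  have hu : ∀ i, w'.valuation B ((u i : 𝓞 B) : B) = 1 := fun i => unit_val (u i) w'
  have hσu : ∀ i, w'.valuation B (σ ((u i : 𝓞 B) : B)) = 1 := by
    intro i
    have h1 := unit_val (Units.map (Uw_g σ : 𝓞 B →* 𝓞 B) (u i)) w'
    exact h1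
  have hm : ∀ i, w'.valuation B (mm σ ((u i : 𝓞 B) : B)) = 1 := by
    intro i
    rw [mm, map_div₀, hu, hσu, div_one]
  by_cases hsw : sw σ w' = w'
  · have hσV : ∀ x, w'.valuation B (σ x) = w'.valuation B x := by
      intro x
      have h1 := sw_val σ w' x
      rwa [hsw] at h1
    obtain ⟨x₀, hx₀⟩ := Uw_line hQ h3 hsw
    have key : ∀ i, ∃ (z h : B) (a : 𝓞 L), w'.valuation B z = 1 ∧ w'.valuation B h ≤ 1 ∧
        mm σ ((u i : 𝓞 B) : B) = z ^ 3 * (1 + 3 * h) ∧
        w'.valuation B (h - ((algebraMap (𝓞 L) (𝓞 B) a * x₀ : 𝓞 B) : B)) < 1 := by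
      intro i
      obtain ⟨m₀, hm₀⟩ : ∃ m₀ : 𝓞 B, (m₀ : B) = mm σ ((u i : 𝓞 B) : B) := by
        refine ⟨((u i / Units.map (Uw_g σ : 𝓞 B →* 𝓞 B) (u i) : (𝓞 B)ˣ) : 𝓞 B), ?_⟩
        have h1 : ((u i / Units.map (Uw_g σ : 𝓞 B →* 𝓞 B) (u i) : (𝓞 B)ˣ) : 𝓞 B) *
            Uw_g σ (u i : 𝓞 B) = (u i : 𝓞 B) := by
          have h2 := congrArg Units.val
            (div_mul_cancel (u i) (Units.map (Uw_g σ : 𝓞 B →* 𝓞 B) (u i)))
          exact h2
        have h2 := congrArg (algebraMap (𝓞 B) B) h1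
        rw [map_mul] at h2
        rw [mm, eq_div_iff (ne_zero_of_V (hσu i))]
        exact h2
      have hmax : w'.asIdeal.IsMaximal := w'.isMaximal
      let _ : Field (𝓞 B ⧸ w'.asIdeal) := Ideal.Quotient.field w'.asIdeal
      have hfin : Finite (𝓞 B ⧸ w'.asIdeal) := w'.asIdeal.finiteQuotientOfFreeOfNeBot w'.ne_bot
      have h3q : (3 : 𝓞 B ⧸ w'.asIdeal) = 0 := Ideal.Quotient.eq_zero_iff_mem.mpr h3
      have hch : CharP (𝓞 B ⧸ w'.asIdeal) 3 := by
        rw [CharP.charP_iff_prime_eq_zero Nat.prime_three]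
        exact_mod_cast h3q
      have hp : Fact (Nat.Prime 3) := ⟨Nat.prime_three⟩
      obtain ⟨r, hr⟩ := surjective_frobenius (𝓞 B ⧸ w'.asIdeal) 3 (Ideal.Quotient.mk _ m₀)
      obtain ⟨z, rfl⟩ := Ideal.Quotient.mk_surjective r
      have hzm : m₀ - z ^ 3 ∈ w'.asIdeal := by
        rw [← Ideal.Quotient.mk_eq_mk_iff_sub_mem, ← hr, frobenius_def, map_pow]
      have hd : w'.valuation B (mm σ ((u i : 𝓞 B) : B) - (z : B) ^ 3) < 1 := by
        have h1 := (w'.valuation_lt_one_iff_mem (K := B) _).2 hzm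
        rw [← hm₀]
        exact h1
      have hzv : w'.valuation B (z : B) = 1 := by
        have hz1 : w'.valuation B (z : B) ≤ 1 := w'.valuation_le_one z
        refine le_antisymm hz1 (not_lt.mp fun h => ?_)
        have h1 : w'.valuation B ((mm σ ((u i : 𝓞 B) : B) - (z : B) ^ 3) + (z : B) ^ 3) < 1 :=
          Valuation.map_add_lt _ hd (V_pow_lt h (by norm_num))
        rw [sub_add_cancel, hm i] at h1
        exact lt_irrefl _ h1
      have hz0 := ne_zero_of_V hzv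
      obtain ⟨h, hh⟩ : ∃ h : B, h = (mm σ ((u i : 𝓞 B) : B) - (z : B) ^ 3) / (3 * (z : B) ^ 3) :=
        ⟨_, rfl⟩
      have hhv : w'.valuation B h ≤ 1 := by
        rw [hh, map_div₀, map_mul, map_pow, hzv, one_pow, mul_one, hV3,
          div_le_one₀ (zero_lt_iff.mpr exp_ne_zero)]
        exact le_exp_neg_one hd
      have hmh : mm σ ((u i : 𝓞 B) : B) = (z : B) ^ 3 * (1 + 3 * h) := by
        rw [hh]
        field_simp
        ring
      have hn : mm σ ((u i : 𝓞 B) : B) * (σ : B →+* B) (mm σ ((u i : 𝓞 B) : B)) = 1 := by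
        change mm σ ((u i : 𝓞 B) : B) * σ (mm σ ((u i : 𝓞 B) : B)) = 1
        rw [mm, map_div₀, Uw_invol hQ]
        have e1 := ne_zero_of_V (hσu i)
        have e2 := ne_zero_of_V (hu i)
        field_simp
      have hanti : w'.valuation B (h + σ h) < 1 :=
        Uw_anti (τ := (σ : B →+* B)) (fun x => hσV x) hV3 hzv hhv hmh hn
      obtain ⟨y, hy⟩ := H73IS.int_close w' h hhv
      have hyy : y + Uw_g σ y ∈ w'.asIdeal := by
        rw [← w'.valuation_lt_one_iff_mem (K := B)]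
        change w'.valuation B ((y : B) + σ (y : B)) < 1
        have e1 : (y : B) + σ (y : B) = (h + σ h) - ((h - (y : B)) + σ (h - (y : B))) := by
          rw [map_sub]
          ring
        rw [e1]
        refine Valuation.map_sub_lt _ hanti (Valuation.map_add_lt _ hy ?_)
        rw [hσV]
        exact hy
      obtain ⟨a, ha⟩ := hx₀ y hyy
      refine ⟨(z : B), h, a, hzv, hhv, hmh, ?_⟩
      have h5 := (w'.valuation_lt_one_iff_mem (K := B) _).2 ha
      have e1 : h - ((algebraMap (𝓞 L) (𝓞 B) a * x₀ : 𝓞 B) : B) = (h - (y : B)) +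
          ((y : B) - ((algebraMap (𝓞 L) (𝓞 B) a * x₀ : 𝓞 B) : B)) := by ring
      rw [e1]
      exact Valuation.map_add_lt _ hy h5
    choose z h a hz hh hmz ha using key
    have : Finite (𝓞 L ⧸ w.asIdeal) := w.asIdeal.finiteQuotientOfFreeOfNeBot w.ne_bot
    obtain ⟨i, j, hij, haij⟩ : ∃ i j, i ≠ j ∧
        Ideal.Quotient.mk w.asIdeal (a i) = Ideal.Quotient.mk w.asIdeal (a j) := by
      by_contra hcon
      have hinj : Function.Injective (fun i => Ideal.Quotient.mk w.asIdeal (a i)) := by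
        intro i j hij
        by_contra hne
        exact hcon ⟨i, j, hne, hij⟩
      have h1 := Nat.card_le_card_of_injective _ hinj
      rw [Nat.card_fin] at h1
      have h2 : Ideal.absNorm w.asIdeal = Nat.card (𝓞 L ⧸ w.asIdeal) := rfl
      omega
    rw [Ideal.Quotient.mk_eq_mk_iff_sub_mem] at haij
    have hd : w'.valuation B (h i - h j) < 1 := by
      have h1 : algebraMap (𝓞 L) (𝓞 B) (a i) * x₀ - algebraMap (𝓞 L) (𝓞 B) (a j) * x₀ ∈
          w'.asIdeal := by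
        rw [← sub_mul, ← map_sub]
        exact Ideal.mul_mem_right _ _ (hov _ haij)
      have h2 := (w'.valuation_lt_one_iff_mem (K := B) _).2 h1
      have e1 : h i - h j = (h i - ((algebraMap (𝓞 L) (𝓞 B) (a i) * x₀ : 𝓞 B) : B)) +
          (((algebraMap (𝓞 L) (𝓞 B) (a i) * x₀ : 𝓞 B) : B) -
            ((algebraMap (𝓞 L) (𝓞 B) (a j) * x₀ : 𝓞 B) : B)) -
          (h j - ((algebraMap (𝓞 L) (𝓞 B) (a j) * x₀ : 𝓞 B) : B)) := by ring
      rw [e1]
      exact Valuation.map_sub_lt _ (Valuation.map_add_lt _ (ha i) h2) (ha j)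
    have hal : ∀ x : B, (Valued.v (algebraMap B (w'.adicCompletion B) x) :
        WithZero (Multiplicative ℤ)) = w'.valuation B x := fun x => valued_algebraMap w' x
    obtain ⟨t, ht1, ht⟩ := cube_of_congr (ad_hens w') (V3 w' h3 h3')
      (h := algebraMap B (w'.adicCompletion B) (h i))
      (h' := algebraMap B (w'.adicCompletion B) (h j))
      (by rw [hal]; exact hh i) (by rw [hal]; exact hh j) (by rw [← map_sub, hal]; exact hd)
    refine ⟨i, j, hij, algebraMap B _ (z i) * t / algebraMap B _ (z j), ?_⟩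
    have e1 : algebraMap B (w'.adicCompletion B) (mm σ ((u i : 𝓞 B) : B)) =
        algebraMap B _ (z i) ^ 3 * (1 + 3 * algebraMap B _ (h i)) := by
      rw [hmz i, map_mul, map_pow, map_add, map_one, map_mul, map_ofNat]
    have e2 : algebraMap B (w'.adicCompletion B) (mm σ ((u j : 𝓞 B) : B)) =
        algebraMap B _ (z j) ^ 3 * (1 + 3 * algebraMap B _ (h j)) := by
      rw [hmz j, map_mul, map_pow, map_add, map_one, map_mul, map_ofNat]
    have hzj : algebraMap B (w'.adicCompletion B) (z j) ≠ 0 :=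
      ne_zero_of_V (V := Valued.v) (by rw [hal]; exact hz j)
    have hmj : algebraMap B (w'.adicCompletion B) (mm σ ((u j : 𝓞 B) : B)) ≠ 0 :=
      ne_zero_of_V (V := Valued.v) (by rw [hal]; exact hm j)
    have h4 : 1 + 3 * algebraMap B (w'.adicCompletion B) (h j) ≠ 0 := by
      intro h5
      apply hmj
      rw [e2, h5, mul_zero]
    rw [map_div₀, e1, e2, ht]
    field_simp
  · obtain ⟨k, _, _, ρ, hρs, hρ⟩ := exists_resid w'
    have hk := H86IK.card_resid w' hρs hρ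
    obtain ⟨i, j, hij, t, ht⟩ := cube_pigeon_wild (ad_hens w') (V3 w' h3 h3') hρs hρ
      (by rw [hk, Fintype.card_fin]; exact Nat.lt_succ_of_le (Uw_split hQ hov hsw))
      (fun i => algebraMap B (w'.adicCompletion B) (mm σ ((u i : 𝓞 B) : B)))
      (fun i => by rw [valued_algebraMap]; exact hm i)
    exact ⟨i, j, hij, t, by rw [map_div₀]; exact ht⟩

end H86D
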