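import Pool.Agent.H86.T3D.Km
import Pool.Agent.H86.T3D.Um
import Pool.Agent.H86.T3D.Uw
import Pool.Agent.H86.T3D.Rf
import Pool.Agent.H86.T3D.Rc

/-!
Growth of the three-Selmer group, twisted case (assembly).
-/

set_option autoImplicit false
set_option linter.style.haveILetI false
open scoped Classical

open WithZero WeierstrassCurve IsDedekindDomain NumberField NumberField.Units Pool.Agent.H10
  Pool.Agent.H11 H55T3 H86IK H86T3

namespace H86D

section

variable {L B : Type} [Field L] [NumberField L] [Field B] [NumberField B] [Algebra L B]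

/-- `u / σ u` for units -/
noncomputable def mu (σ : B ≃ₐ[L] B) : (𝓞 B)ˣ →* (𝓞 B)ˣ where
  toFun u := u / Units.map (RingOfIntegers.mapRingEquiv (σ : B ≃+* B) : 𝓞 B →* 𝓞 B) u
  map_one' := by rw [map_one, div_one]
  map_mul' x y := by rw [map_mul, mul_div_mul_comm]

lemma unit_ne (u : (𝓞 B)ˣ) : ((u : 𝓞 B) : B) ≠ 0 := by
  intro h0
  have : (u : 𝓞 B) = 0 := by exact_mod_cast h0
  exact u.ne_zero this

lemma coe_div (x y : (𝓞 B)ˣ) : (((x / y : (𝓞 B)ˣ) : 𝓞 B) : B) =
    ((x : 𝓞 B) : B) / ((y : 𝓞 B) : B) := by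
  rw [eq_div_iff (unit_ne y), ← map_mul, ← Units.val_mul, div_mul_cancel]

lemma coe_mu (σ : B ≃ₐ[L] B) (u : (𝓞 B)ˣ) :
    (((mu σ u : (𝓞 B)ˣ) : 𝓞 B) : B) = mm σ ((u : 𝓞 B) : B) := by
  change (((u / Units.map (RingOfIntegers.mapRingEquiv (σ : B ≃+* B) : 𝓞 B →* 𝓞 B) u :
    (𝓞 B)ˣ) : 𝓞 B) : B) = _
  rw [coe_div]
  rfl

variable {D : L} {s : B} {σ : B ≃ₐ[L] B}

lemma QD.inv (hQ : QD D s σ) (x : B) : σ (σ x) = x := by
  have hfin : Module.Finite L B := Module.finite_of_finrank_pos (by rw [hQ.rk]; norm_num)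
  have hcard : Nat.card (B ≃ₐ[L] B) ≤ 2 := by
    rw [Nat.card_eq_fintype_card, ← hQ.rk]
    exact AlgEquiv.card_le
  have h1 : σ ≠ 1 := by
    intro h0
    have h2 := hQ.neg
    rw [h0] at h2
    have h3 : (2 : B) * s = 0 := by
      have h4 : s = -s := h2
      linear_combination h4
    rcases mul_eq_zero.1 h3 with h5 | h5
    · exact two_ne_zero h5
    · exact hQ.s0 h5
  have h2 : σ ^ 2 = 1 := by
    by_contra h3
    have h4 : σ ^ 2 ≠ σ := by
      intro h5
      apply h1
      have : σ * σ = σ * 1 := by rw [← pow_two, h5, mul_one]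
      exact mul_left_cancel this
    have h5 : ({1, σ, σ ^ 2} : Finset (B ≃ₐ[L] B)).card = 3 := by
      rw [Finset.card_eq_three]
      exact ⟨1, σ, σ ^ 2, h1.symm, Ne.symm h3, h4.symm, rfl⟩
    have h6 := Finset.card_le_univ ({1, σ, σ ^ 2} : Finset (B ≃ₐ[L] B))
    rw [h5, ← Nat.card_eq_fintype_card] at h6
    omega
  have h3 := DFunLike.congr_fun h2 x
  rw [pow_two] at h3
  exact h3

lemma QD.mm_norm (hQ : QD D s σ) {x : B} (hx : x ≠ 0) : mm σ x * σ (mm σ x) = 1 := by
  have h1 : σ x ≠ 0 := (map_ne_zero_iff σ σ.injective).2 hx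
  unfold mm
  rw [map_div₀, hQ.inv]
  field_simp

end

/-- The bad places above three. -/
def BadW {L : Type} [Field L] [NumberField L] (w : HeightOneSpectrum (𝓞 L)) (D a b : L) : Prop :=
  (w.valuation L D = 1 ∧ BadAt (w.valuation L) a b) ∨
    (w.valuation L D = exp (-1 : ℤ) ∧ BadR (w.valuation L) (3 * a) (9 * b + 4 * D * a ^ 3))

section

variable {L B : Type} [Field L] [NumberField L] [Field B] [NumberField B] [Algebra L B]
  {D : L} {s : B} {σ : B ≃ₐ[L] B}

/-- transport of the local condition -/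
theorem loc_sw (hQ : QD D s σ) {a b : L} {m : B} (hm : m * σ m = 1)
    (w : HeightOneSpectrum (𝓞 B))
    (H : LocSol 1 (algebraMap B (w.adicCompletion B) (s * algebraMap L B a))
      (algebraMap B (w.adicCompletion B) (s * algebraMap L B (9 * b + 4 * D * a ^ 3)))
      (algebraMap B (w.adicCompletion B) m)) :
    LocSol 1 (algebraMap B ((sw σ w).adicCompletion B) (s * algebraMap L B a))
      (algebraMap B ((sw σ w).adicCompletion B) (s * algebraMap L B (9 * b + 4 * D * a ^ 3)))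
      (algebraMap B ((sw σ w).adicCompletion B) m) := by
  obtain ⟨κ, hκ, -⟩ := exists_kappa σ w
  have h1 := locSol_map κ H
  have e1 : ∀ x : L, σ (s * algebraMap L B x) = -(s * algebraMap L B x) := by
    intro x
    rw [map_mul, hQ.neg, σ.commutes, neg_mul]
  rw [map_one, hκ, hκ, hκ, e1, e1, map_neg, map_neg] at h1
  have hm0 : m ≠ 0 := left_ne_zero_of_mul_eq_one hm
  have h2 : σ m = m⁻¹ := eq_inv_of_mul_eq_one_right hm
  rw [h2, map_inv₀] at h1
  exact (locSol_neg_inv (by rw [Ne, map_eq_zero]; exact hm0)).1 h1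

lemma sq_one {x : WithZero (Multiplicative ℤ)} (h : x ^ 2 = 1) : x = 1 := by
  rcases lt_trichotomy x 1 with h1 | h1 | h1
  · exact absurd h (pow_lt_one₀ zero_le h1 two_ne_zero).ne
  · exact h1
  · exact absurd h (one_lt_pow₀ h1 two_ne_zero).ne'

/-- Index at a place. -/
theorem index_w (hQ : QD D s σ) {a b : L} {sO : 𝓞 B} {a' b' : 𝓞 B} (hs : (sO : B) = s)
    (ha' : (a' : B) = s * algebraMap L B a) (hb' : (b' : B) = s * algebraMap L B b)
    (hb0 : b' ≠ 0) (hc0 : 9 * b' + 4 * a' ^ 3 ≠ 0)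
    (w : HeightOneSpectrum (𝓞 L)) (w' : HeightOneSpectrum (𝓞 B)) (hov : Over w w')
    (hunr : (3 : 𝓞 L) ∈ w.asIdeal → (3 : 𝓞 L) ∉ w.asIdeal ^ 2)
    (hD : (3 : 𝓞 L) ∈ w.asIdeal → w.valuation L D = 1 ∨ w.valuation L D = exp (-1 : ℤ)) :
    Finite ((𝓞 B)ˣ ⧸ (G3 hb0 hc0 w').comap (mu σ)) ∧
      Nat.card ((𝓞 B)ˣ ⧸ (G3 hb0 hc0 w').comap (mu σ)) ≤
        9 * (if (3 : 𝓞 L) ∈ w.asIdeal ∧ ¬ BadW w D a b then Ideal.absNorm w.asIdeal else 1) := by
  have hN1 : 1 ≤ Ideal.absNorm w.asIdeal := by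
    rw [Nat.one_le_iff_ne_zero, Ne, Ideal.absNorm_eq_zero_iff]
    exact w.ne_bot
  have hm : ∀ u : (𝓞 B)ˣ, ii w' ((mu σ u : (𝓞 B)ˣ) : 𝓞 B) =
      algebraMap B (w'.adicCompletion B) (mm σ ((u : 𝓞 B) : B)) := by
    intro u
    rw [ii, coe_mu]
  have hmem : ∀ x y : (𝓞 B)ˣ, (∃ t, ii w' ((mu σ x / mu σ y : (𝓞 B)ˣ) : 𝓞 B) = t ^ 3) →
      x / y ∈ (G3 hb0 hc0 w').comap (mu σ) := by
    rintro x y ⟨t, ht⟩
    rw [Subgroup.mem_comap, map_div, mem_G3]
    exact Or.inl ⟨t, ht⟩
  have h3iff : (3 : 𝓞 L) ∈ w.asIdeal ↔ (3 : 𝓞 B) ∈ w'.asIdeal := by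
    constructor
    · intro h
      have := hov _ h
      rwa [map_ofNat] at this
    · intro h
      by_contra h0
      have := hov.not_mem h0
      rw [map_ofNat] at this
      exact this h
  by_cases h3 : (3 : 𝓞 L) ∈ w.asIdeal
  swap
  · -- not above three
    have hif : (if (3 : 𝓞 L) ∈ w.asIdeal ∧ ¬ BadW w D a b then Ideal.absNorm w.asIdeal else 1) = 1 :=
      if_neg fun h => h3 h.1
    rw [hif]
    obtain ⟨f1, f2⟩ := index_of_pigeon3 ((G3 hb0 hc0 w').comap (mu σ)) (n := 3) (by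
      intro u
      obtain ⟨i, j, hij, ht⟩ := unit_tame3 w' (fun h => h3 (h3iff.2 h)) (fun i => mu σ (u i))
      exact ⟨i, j, hij, hmem _ _ ht⟩)
    exact ⟨f1, f2.trans (by norm_num)⟩
  have hv3 : w.valuation L 3 = exp (-1 : ℤ) := H68TK.val_three_of_unram h3 (hunr h3)
  rcases hD h3 with hD1 | hD1
  · -- unramified
    obtain ⟨hu1, hu2⟩ := unram_two hQ w w' hov hv3 hD1
    by_cases hbad : BadW w D a b
    · have hif : (if (3 : 𝓞 L) ∈ w.asIdeal ∧ ¬ BadW w D a b then Ideal.absNorm w.asIdeal else 1)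
        = 1 := if_neg fun h => h.2 hbad
      rw [hif]
      have hbad' : BadAt (w.valuation L) a b := by
        rcases hbad with h | h
        · exact h.2
        · exfalso
          rw [hD1, ← exp_zero, exp_inj] at h
          exact absurd h.1 (by norm_num)
      have vs : w'.valuation B s = 1 := by
        have h1 := congrArg (w'.valuation B) hQ.sq
        rw [map_pow, hu2, hD1] at h1
        exact sq_one h1
      have hb2 : BadAt (Valued.v : Valuation (w'.adicCompletion B)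
          (WithZero (Multiplicative ℤ))) (ii w' a') (ii w' b') := by
        obtain ⟨i, g1, g2⟩ := hbad'
        have va : Valued.v (ii w' a') = w.valuation L a := by
          rw [ii_val, ha', map_mul, vs, one_mul, hu2]
        have vb : Valued.v (ii w' b') = w.valuation L b := by
          rw [ii_val, hb', map_mul, vs, one_mul, hu2]
        exact ⟨i, by rw [va]; exact g1, by rw [vb]; exact g2⟩
      obtain ⟨f1, f2⟩ := index_of_pigeon3 ((G3 hb0 hc0 w').comap (mu σ)) (n := 3) (by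
        intro u
        obtain ⟨i, j, hij, H⟩ := unit_bad3 w' hb0 hc0 hb2 (h3iff.1 h3) hu1 (fun i => mu σ (u i))
        refine ⟨i, j, hij, ?_⟩
        rw [Subgroup.mem_comap, map_div, mem_G3]
        exact H)
      exact ⟨f1, f2.trans (by norm_num)⟩
    · have hif : (if (3 : 𝓞 L) ∈ w.asIdeal ∧ ¬ BadW w D a b then Ideal.absNorm w.asIdeal else 1)
        = Ideal.absNorm w.asIdeal := if_pos ⟨h3, hbad⟩
      rw [hif]
      obtain ⟨f1, f2⟩ := index_of_pigeon3 ((G3 hb0 hc0 w').comap (mu σ))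
        (n := Ideal.absNorm w.asIdeal) (by
        intro u
        obtain ⟨i, j, hij, t, ht⟩ := wild_minus hQ w w' hov (h3iff.1 h3) hu1 u
        refine ⟨i, j, hij, hmem _ _ ⟨t, ?_⟩⟩
        rw [ii_div, hm, hm, ← map_div₀]
        exact ht)
      exact ⟨f1, f2.trans (by omega)⟩
  · -- ramified
    obtain ⟨hr1, hr2, hr3, κ, hR, hκ⟩ := ram_two hQ w w' hov hv3 hD1
    obtain ⟨k, _, _, ρ, hρs, hρ⟩ := exists_resid w'
    have hk := card_resid w' hρs hρ
    have hnorm : ∀ u : (𝓞 B)ˣ, ii w' ((mu σ u : (𝓞 B)ˣ) : 𝓞 B) *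
        κ (ii w' ((mu σ u : (𝓞 B)ˣ) : 𝓞 B)) = 1 := by
      intro u
      rw [hm, hκ, ← map_mul, hQ.mm_norm (unit_ne u), map_one]
    by_cases hbad : BadW w D a b
    · have hif : (if (3 : 𝓞 L) ∈ w.asIdeal ∧ ¬ BadW w D a b then Ideal.absNorm w.asIdeal else 1)
        = 1 := if_neg fun h => h.2 hbad
      rw [hif]
      have hbad' : BadR (w.valuation L) (3 * a) (9 * b + 4 * D * a ^ 3) := by
        rcases hbad with h | h
        · exfalso
          rw [hD1, ← exp_zero, exp_inj] at h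
          exact absurd h.1 (by norm_num)
        · exact h.2
      have hc1 : (9 * (b' : B) + 4 * (a' : B) ^ 3) =
          s * algebraMap L B (9 * b + 4 * D * a ^ 3) := by
        rw [ha', hb', map_add, map_mul, map_mul, map_mul, map_pow, map_ofNat, map_ofNat, ← hQ.sq]
        ring
      have hc2 : 9 * ii w' b' + 4 * ii w' a' ^ 3 = algebraMap B (w'.adicCompletion B) s *
          algebraMap B (w'.adicCompletion B) (algebraMap L B (9 * b + 4 * D * a ^ 3)) := by
        rw [← map_mul, ← hc1, map_add, map_mul, map_mul, map_pow, map_ofNat, map_ofNat]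
      have ha2 : 3 * ii w' a' = algebraMap B (w'.adicCompletion B) s *
          algebraMap B (w'.adicCompletion B) (algebraMap L B (3 * a)) := by
        rw [← map_mul, map_mul (algebraMap L B), map_ofNat, ii, ha', ← map_ofNat
          (algebraMap B (w'.adicCompletion B)) 3, ← map_mul]
        congr 1
        ring
      have hcne : (9 * b + 4 * D * a ^ 3) ≠ 0 := by
        intro h0
        rw [h0, map_zero, mul_zero] at hc1
        apply hc0
        apply FaithfulSMul.algebraMap_injective (𝓞 B) B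
        rw [map_zero, map_add, map_mul, map_mul, map_pow, map_ofNat, map_ofNat]
        exact hc1
      have hvB : ∀ x : L, Valued.v (algebraMap B (w'.adicCompletion B) (algebraMap L B x)) =
          w.valuation L x ^ 2 := by
        intro x
        rw [valued_algebraMap, hr3]
      have hfix : ∀ x : L, κ (algebraMap B (w'.adicCompletion B) (algebraMap L B x)) =
          algebraMap B (w'.adicCompletion B) (algebraMap L B x) := by
        intro x
        rw [hκ, σ.commutes]
      have hsq : ∀ n : ℤ, (exp n : WithZero (Multiplicative ℤ)) ^ 2 = exp (2 * n) := by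
        intro n
        rw [← exp_nsmul, nsmul_eq_mul]
        push_cast
        rfl
      obtain ⟨i, hi⟩ := hbad'
      have hi' : (Valued.v (algebraMap B (w'.adicCompletion B) (algebraMap L B (3 * a))) ≤
            exp (-(2 * (i : ℤ))) ∧
          Valued.v (algebraMap B (w'.adicCompletion B) (algebraMap L B
            (9 * b + 4 * D * a ^ 3))) = exp (-(6 * (i : ℤ)))) ∨
          (Valued.v (algebraMap B (w'.adicCompletion B) (algebraMap L B (3 * a))) =
            exp (-(2 * (i : ℤ))) ∧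
          Valued.v (algebraMap B (w'.adicCompletion B) (algebraMap L B
            (9 * b + 4 * D * a ^ 3))) ≤ exp (-(6 * (i : ℤ)))) := by
        rw [hvB, hvB]
        have e1 : (exp (-(2 * (i : ℤ))) : WithZero (Multiplicative ℤ)) = exp (-(i : ℤ)) ^ 2 := by
          rw [hsq]; congr 1; ring
        have e2 : (exp (-(6 * (i : ℤ))) : WithZero (Multiplicative ℤ)) =
            exp (-(3 * (i : ℤ))) ^ 2 := by
          rw [hsq]; congr 1; ring
        rw [e1, e2]
        rcases hi with ⟨g1, g2⟩ | ⟨g1, g2⟩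
        · exact Or.inl ⟨pow_le_pow_left₀ zero_le g1 2, by rw [g2]⟩
        · exact Or.inr ⟨by rw [g1], pow_le_pow_left₀ zero_le g2 2⟩
      obtain ⟨f1, f2⟩ := index_of_pigeon3 ((G3 hb0 hc0 w').comap (mu σ)) (n := 9) (by
        intro u
        obtain ⟨p, q, hpq, H⟩ := ram_bad' (ad_hens w') hR hρs hρ (ii_ne0 w' hb0)
          (c := algebraMap B (w'.adicCompletion B) (algebraMap L B (9 * b + 4 * D * a ^ 3)))
          (by rw [Ne, map_eq_zero, map_eq_zero]; exact hcne) ha2 hc2 (hfix _) (hfix _) hi'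
          (fun i => ii w' ((mu σ (u i) : (𝓞 B)ˣ) : 𝓞 B)) (fun i => hnorm (u i))
        refine ⟨p, q, hpq, ?_⟩
        rw [Subgroup.mem_comap, map_div, mem_G3, ii_div]
        exact H)
      exact ⟨f1, f2.trans (by norm_num)⟩
    · have hif : (if (3 : 𝓞 L) ∈ w.asIdeal ∧ ¬ BadW w D a b then Ideal.absNorm w.asIdeal else 1)
        = Ideal.absNorm w.asIdeal := if_pos ⟨h3, hbad⟩
      rw [hif]
      obtain ⟨f1, f2⟩ := index_of_pigeon3 ((G3 hb0 hc0 w').comap (mu σ))
        (n := 3 * Nat.card k) (by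
        intro u
        obtain ⟨i, j, hij, t, ht⟩ := ram_pigeon (ad_hens w') hR hρs hρ
          (fun i => ii w' ((mu σ (u i) : (𝓞 B)ˣ) : 𝓞 B)) (fun i => hnorm (u i))
        exact ⟨i, j, hij, hmem _ _ ⟨t, by rw [ii_div]; exact ht⟩⟩)
      rw [hk, hr2] at f2
      exact ⟨f1, f2.trans (by omega)⟩

end

end H86D
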