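import Pool.Agent.H86.T3D.GrwD

/-!
Growth of the three-Selmer group, twisted case (assembly over one field).
-/

set_option autoImplicit false
set_option linter.style.haveILetI false
open scoped Classical

open WithZero WeierstrassCurve IsDedekindDomain NumberField NumberField.Units Pool.Agent.H10
  Pool.Agent.H11 H55T3 H86IK H86T3

namespace H86D

section

variable {L B : Type} [Field L] [NumberField L] [Field B] [NumberField B] [Algebra L B]

theorem exists_up (w : HeightOneSpectrum (𝓞 L)) : ∃ w' : HeightOneSpectrum (𝓞 B), Over w w' := by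
  obtain ⟨Q, hQ, hQv⟩ := Ideal.exists_ideal_over_prime_of_isIntegral_of_isDomain (S := 𝓞 B)
    w.asIdeal (by
      rw [(RingHom.injective_iff_ker_eq_bot _).1
        (FaithfulSMul.algebraMap_injective (𝓞 L) (𝓞 B))]
      exact bot_le)
  refine ⟨⟨Q, hQ, ?_⟩, ?_⟩
  · rintro rfl
    apply w.ne_bot
    rw [← hQv]
    exact Ideal.comap_bot_of_injective _ (FaithfulSMul.algebraMap_injective (𝓞 L) (𝓞 B))
  · intro x hx
    rw [← hQv] at hx
    exact hx

/-- Growth of the three-Selmer group over one field. -/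
theorem growth_QD {D a b : 𝓞 L} {s : B} {σ : B ≃ₐ[L] B} (hQ : QD (D : L) s σ) (hb0 : b ≠ 0)
    (hc0 : 9 * b + 4 * D * a ^ 3 ≠ 0)
    (hunr : ∀ w : HeightOneSpectrum (𝓞 L), (3 : 𝓞 L) ∈ w.asIdeal → (3 : 𝓞 L) ∉ w.asIdeal ^ 2)
    (hD : ∀ w : HeightOneSpectrum (𝓞 L), (3 : 𝓞 L) ∈ w.asIdeal →
      w.valuation L (D : L) = 1 ∨ w.valuation L (D : L) = exp (-1 : ℤ))
    (𝔅 : Finset (HeightOneSpectrum (𝓞 L)))
    (h𝔅 : ∀ w, w ∈ 𝔅 ↔ 6 * D * b * (9 * b + 4 * D * a ^ 3) ∈ w.asIdeal)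
    {V : WeierstrassCurve L} (h : Is3 V (D : L) (a : L) (b : L))
    (P : Finset V.toAffine.Point) (hP : ∀ X : V.toAffine.Point, ∃ p ∈ P, ∃ S, X = p + 3 • S)
    (T : Finset (Coch L V))
    (hT : ∀ f, IsCocycle L V f → IsLocTriv L V f → IsCobound L V (fun σ => 3 • f σ) →
      ∃ t ∈ T, IsCobound L V (fun σ => f σ - t σ)) :
    3 ^ rank B ≤ 3 ^ (rank L + 1) * ((9 ^ 𝔅.card * ∏ w ∈ 𝔅,
      (if (3 : 𝓞 L) ∈ w.asIdeal ∧ ¬ BadW w (D : L) (a : L) (b : L) then
        Ideal.absNorm w.asIdeal else 1)) * (3 * (P.card * T.card))) := by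
  have hinj : Function.Injective (algebraMap (𝓞 L) (𝓞 B)) :=
    FaithfulSMul.algebraMap_injective (𝓞 L) (𝓞 B)
  have hsI : _root_.IsIntegral ℤ s := by
    have h1 : _root_.IsIntegral ℤ (s ^ 2) := by
      rw [hQ.sq]
      exact (algebraMap (𝓞 L) (𝓞 B) D).isIntegral_coe
    exact h1.of_pow (by norm_num)
  let sO : 𝓞 B := ⟨s, hsI⟩
  have hsO : (sO : B) = s := rfl
  have hsO2 : sO ^ 2 = algebraMap (𝓞 L) (𝓞 B) D := by
    apply RingOfIntegers.ext
    change s ^ 2 = _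
    rw [hQ.sq]
    rfl
  have hs0 : sO ≠ 0 := fun h0 => hQ.s0 (by rw [← hsO, h0]; rfl)
  let a' : 𝓞 B := sO * algebraMap (𝓞 L) (𝓞 B) a
  let b' : 𝓞 B := sO * algebraMap (𝓞 L) (𝓞 B) b
  have ha' : (a' : B) = s * algebraMap L B (a : L) := by
    change algebraMap (𝓞 B) B (sO * algebraMap (𝓞 L) (𝓞 B) a) = _
    rw [map_mul]
    rfl
  have hb' : (b' : B) = s * algebraMap L B (b : L) := by
    change algebraMap (𝓞 B) B (sO * algebraMap (𝓞 L) (𝓞 B) b) = _
    rw [map_mul]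
    rfl
  have hb0' : b' ≠ 0 := mul_ne_zero hs0 (by rw [Ne, map_eq_zero_iff _ hinj]; exact hb0)
  have ec : 9 * b' + 4 * a' ^ 3 = sO * algebraMap (𝓞 L) (𝓞 B) (9 * b + 4 * D * a ^ 3) := by
    rw [map_add, map_mul, map_mul, map_mul, map_pow, map_ofNat, map_ofNat, ← hsO2]
    ring
  have hc0' : 9 * b' + 4 * a' ^ 3 ≠ 0 := by
    rw [ec]
    exact mul_ne_zero hs0 (by rw [Ne, map_eq_zero_iff _ hinj]; exact hc0)
  have ez : 6 * b' * (9 * b' + 4 * a' ^ 3) =
      algebraMap (𝓞 L) (𝓞 B) (6 * D * b * (9 * b + 4 * D * a ^ 3)) := by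
    rw [ec, map_mul, map_mul, map_mul, map_ofNat, ← hsO2]
    change 6 * (sO * algebraMap (𝓞 L) (𝓞 B) b) * _ = _
    ring
  choose up hup using fun w => exists_up (L := L) (B := B) w
  let G : HeightOneSpectrum (𝓞 L) → Subgroup (𝓞 B)ˣ := fun w =>
    (G3 hb0' hc0' (up w)).comap (mu σ)
  let N : HeightOneSpectrum (𝓞 L) → ℕ := fun w =>
    if (3 : 𝓞 L) ∈ w.asIdeal ∧ ¬ BadW w (D : L) (a : L) (b : L) then
        Ideal.absNorm w.asIdeal else 1
  have hG : ∀ w, Finite ((𝓞 B)ˣ ⧸ G w) ∧ Nat.card ((𝓞 B)ˣ ⧸ G w) ≤ 9 * N w := fun w =>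
    index_w hQ hsO ha' hb' hb0' hc0' w (up w) (hup w) (hunr w) (hD w)
  obtain ⟨m, v, hm, hv⟩ := exists_minus hQ
  haveI : ∀ w : 𝔅, Finite ((𝓞 B)ˣ ⧸ G w.1) := fun w => (hG w.1).1
  haveI : Fintype ((w : 𝔅) → ((𝓞 B)ˣ ⧸ G w.1)) := Fintype.ofFinite _
  let φ : (𝓞 B)ˣ → ((w : 𝔅) → ((𝓞 B)ˣ ⧸ G w.1)) := fun u w => (u : (𝓞 B)ˣ ⧸ G w.1)
  have hfib : ∀ q ∈ Finset.univ.image (fun i => φ (v i)),
      (Finset.univ.filter fun i => φ (v i) = q).card ≤ 3 * (P.card * T.card) := by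
    intro q hq
    rw [Finset.mem_image] at hq
    obtain ⟨i₀, -, hi₀⟩ := hq
    have hsame : ∀ i, φ (v i) = q → ∀ w ∈ 𝔅, v i / v i₀ ∈ G w := by
      intro i hi w hw
      have e1 : (v i₀ : (𝓞 B)ˣ ⧸ G w) = v i := by
        have e2 := congrFun (hi₀.trans hi.symm) ⟨w, hw⟩
        exact e2
      rw [QuotientGroup.eq] at e1
      rw [div_eq_mul_inv, mul_comm]
      exact e1
    have hFS : ∀ u : (𝓞 B)ˣ, (∀ w ∈ 𝔅, u ∈ G w) →
        FS s (a : L) (b : L) (mm σ ((u : 𝓞 B) : B)) := by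
      intro u hu w''
      have e1 : algebraMap B (w''.adicCompletion B)
          (9 * (s * algebraMap L B (b : L)) + 4 * (s * algebraMap L B (a : L)) ^ 3) =
          9 * ii w'' b' + 4 * ii w'' a' ^ 3 := by
        rw [← ha', ← hb', map_add, map_mul, map_mul, map_pow, map_ofNat, map_ofNat]
      rw [map_one, e1, ← ha', ← coe_mu]
      by_cases hw : 6 * b' * (9 * b' + 4 * a' ^ 3) ∈ w''.asIdeal
      swap
      · exact unit_good3 w'' hw _
      · rw [ez] at hw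
        set w := H73IS.below L w'' with hwd
        have hov : Over w w'' := fun x hx => (H73IS.mem_below w'' x).1 hx
        have hwB : w ∈ 𝔅 := (h𝔅 w).2 ((H73IS.mem_below w'' _).2 hw)
        have h1 := hu w hwB
        rw [Subgroup.mem_comap, mem_G3] at h1
        rcases sw_of_under hQ w (up w) w'' (hup w) hov with h2 | h2
        · rw [h2]
          exact h1
        · rw [h2]
          have e2 : ∀ w' : HeightOneSpectrum (𝓞 B), 9 * ii w' b' + 4 * ii w' a' ^ 3 =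
              algebraMap B (w'.adicCompletion B)
                (s * algebraMap L B (9 * (b : L) + 4 * (D : L) * (a : L) ^ 3)) := by
            intro w'
            rw [← ii_cc, ec, ii]
            congr 1
          rw [e2] at h1 ⊢
          have h3 := loc_sw hQ (a := (a : L)) (b := (b : L))
            (m := mm σ ((u : 𝓞 B) : B)) (hQ.mm_norm (unit_ne u)) (up w) (by
              rw [← coe_mu, ← ha']
              exact h1)
          rw [← coe_mu, ← ha'] at h3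
          exact h3
    have hc := count_minus hQ (V' := V.map (algebraMap L B)) rfl h (ι := {i // φ (v i) = q})
      (fun i => mm σ (((v i.1 / v i₀ : (𝓞 B)ˣ) : 𝓞 B) : B))
      (fun i => hQ.mm_norm (unit_ne _))
      (fun i => hFS _ (hsame i.1 i.2))
      (by
        rintro i j ⟨t, ht⟩
        apply Subtype.ext
        apply hv
        refine ⟨t, ?_⟩
        rw [← ht, coe_div, coe_div]
        have n1 := unit_ne (v i₀)
        have n2 : σ ((v i₀ : 𝓞 B) : B) ≠ 0 := (map_ne_zero_iff σ σ.injective).2 n1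
        have n3 := unit_ne (v j.1)
        have n4 : σ ((v j.1 : 𝓞 B) : B) ≠ 0 := (map_ne_zero_iff σ σ.injective).2 n3
        have n5 := unit_ne (v i.1)
        have n6 : σ ((v i.1 : 𝓞 B) : B) ≠ 0 := (map_ne_zero_iff σ σ.injective).2 n5
        unfold mm
        rw [map_div₀, map_div₀]
        field_simp)
      P hP T hT
    rw [← Fintype.card_subtype]
    exact hc
  have h1 := Finset.card_le_mul_card_image (f := fun i => φ (v i)) Finset.univ
    (3 * (P.card * T.card)) hfib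
  rw [Finset.card_univ, Fintype.card_fin] at h1
  have h2 : (Finset.univ.image (fun i => φ (v i))).card ≤ 9 ^ 𝔅.card * ∏ w ∈ 𝔅, N w := by
    refine (Finset.card_le_univ _).trans ?_
    rw [← Nat.card_eq_fintype_card, Nat.card_pi]
    have h3 : ∏ w : 𝔅, Nat.card ((𝓞 B)ˣ ⧸ G w.1) ≤ ∏ w : 𝔅, 9 * N w.1 :=
      Finset.prod_le_prod' fun w _ => (hG w.1).2
    refine h3.trans (le_of_eq ?_)
    rw [Finset.prod_mul_distrib, Finset.prod_const, Finset.card_univ, Fintype.card_coe,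
      Finset.prod_coe_sort 𝔅 N]
  calc 3 ^ rank B ≤ m * 3 ^ (rank L + 1) := hm
    _ ≤ (3 * (P.card * T.card) * (9 ^ 𝔅.card * ∏ w ∈ 𝔅, N w)) * 3 ^ (rank L + 1) :=
        Nat.mul_le_mul_right _ (h1.trans (Nat.mul_le_mul_left _ h2))
    _ = _ := by ring

end

end H86D
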