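import Pool.Agent.H86.T3D.Df

/-!
Row Ra (about 220 lines): units modulo cubes, ramified case.

Setting: `V 3 = exp (-2)`, `V s = exp (-1)` (structure Ram), Hens3 V, `ρ : V.integer →+* k` surjective with kernel the maximal ideal, `k` finite (of characteristic three as `V 3 < 1`: every element of `k` is a cube).
PROOF of exists_t: as exists_h in H86/T3G/Kap.lean: `z` integral with `ρ z ^ 3 = ρ u`, `V z = 1`, `u / z^3 = 1 + s t` with `V t ≤ 1` (elements of the maximal ideal are `s` times integral elements: `V x < 1 → V x ≤ exp (-1) = V s`).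
PROOF of cube_four (`V x ≤ exp (-4)` ⇒ `1 + x` is a cube): look for `(1 + s^2 Y)^3 = 1 + 3 s^2 Y + 3 s^4 Y^2 + s^6 Y^3`; with `X := x / (3 s^2)` (`V X ≤ 1`): `Y + s^2 Y^2 + (s^4 / 3) Y^3 = X`, `V (s^4 / 3) = exp (-2)`; `Y = X + y`: Hens3 (as hens_aff in H86/T3G/Ps3.lean / cube_wild in Hen.lean).
PROOF of t_unique: `z^3 (1 + s t) = z'^3 (1 + s t')`: `(z/z')^3 = (1 + s t')/(1 + s t)` has residue 1, so `z/z' = 1 + s x`, `(z/z')^3 = 1 + 3 s x + 3 s^2 x^2 + s^3 x^3 ≡ 1` modulo `s^3`: so `s (t' - t) ≡ 0 mod s^2`, `V (t - t') < 1`.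
PROOF of minus_three: `e` with `e * ι e = 1`, `e = z^3 (1 + s t)`, `V t < 1`: `t = s t'`, `V t' ≤ 1`. `1 = e ι e = (z ι z)^3 (1 + s^2 t')(1 + s^2 ι t')` (`ι (s^2) = s^2`), so `c := 1/(z ι z)` has `c^3 ≡ 1 mod s^2`, `c ≡ 1 mod s`, `c^3 ≡ 1 mod s^3`, hence `s^2 (t' + ι t') ≡ 0 mod s^3`, `2 t' ≡ 0` (Ram.res), `V t' < 1`, `t = s^2 y`.
PROOF of cube_three: `(1 + s^3 y)/(1 + s^3 y')` with `V (y - y' - (x^3 + ε x)) < 1`, `ε := 3 / s^2` (`V ε = 1`), is a cube: `(1 + s x)^3 = 1 + 3 s x + 3 s^2 x^2 + s^3 x^3 = 1 + s^3 (x^3 + ε x) + (valuation ≤ exp (-4))`; so `(1 + s^3 y) / ((1 + s^3 y')(1 + s x)^3) = 1 + (valuation ≤ exp (-4))`: cube_four.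
PROOF of three_pigeon: among four `y i` (integral) two have `ρ (y i - y j) ∈ {x^3 + ρ(ε) x | x ∈ k}` because this additive subgroup has index at most three: index_three (H86/T3G/Ix3.lean) with `A = ρ ε`, `B = 1`, `Γ = 0`, `M` = the range of the additive map `x ↦ x^3 + ρ(ε) x`. Then cube_three.
-/

set_option autoImplicit false
open scoped Classical

open WithZero H55T3 H86T3

namespace H86D

variable {F : Type*} [Field F] {V : Valuation F (WithZero (Multiplicative ℤ))} {k : Type*}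
  [Field k] {ρ : V.integer →+* k} {s : F} {ι : F →+* F}

lemma Ra_s0 (hR : Ram V s ι) : s ≠ 0 := by
  intro h
  have h1 := hR.unif
  rw [h, map_zero] at h1
  exact exp_ne_zero h1.symm

lemma Ra_three0 (hR : Ram V s ι) : (3 : F) ≠ 0 := by
  intro h
  have h1 := hR.three
  rw [h, map_zero] at h1
  exact exp_ne_zero h1.symm

lemma Ra_s1 (hR : Ram V s ι) : V s < 1 := by
  rw [hR.unif]
  exact Pool.Agent.H10.exp_neg_lt_one

lemma Ra_three1 (hR : Ram V s ι) : V 3 < 1 := by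
  rw [hR.three, ← exp_zero, exp_lt_exp]
  norm_num

lemma Ra_mul {x y : F} (hx : V x < 1) (hy : V y ≤ 1) : V (x * y) < 1 := by
  rw [map_mul]
  exact (mul_le_of_le_one_right' hy).trans_lt hx

lemma Ra_two (hR : Ram V s ι) : V 2 = 1 := by
  have h : (2 : F) = -1 + 3 := by norm_num
  rw [h, Valuation.map_add_eq_of_lt_left V (by rw [Valuation.map_neg, map_one]; exact Ra_three1 hR),
    Valuation.map_neg, map_one]

lemma Ra_sn (hR : Ram V s ι) (n : ℕ) : V (s ^ n) = exp (-(n : ℤ)) := by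
  rw [map_pow, hR.unif, ← exp_nsmul]
  congr 1
  simp

lemma Ra_div (hR : Ram V s ι) (n : ℕ) {x : F} (hx : V x ≤ exp (-(n : ℤ))) :
    ∃ y, V y ≤ 1 ∧ x = s ^ n * y := by
  have h0 : s ^ n ≠ 0 := pow_ne_zero _ (Ra_s0 hR)
  refine ⟨x / s ^ n, ?_, by field_simp⟩
  rw [map_div₀, Ra_sn hR, div_le_one₀ (zero_lt_iff.mpr exp_ne_zero)]
  exact hx

lemma Ra_lt (hR : Ram V s ι) {x : F} (hx : V x < 1) : ∃ y, V y ≤ 1 ∧ x = s * y := by
  obtain ⟨y, hy, e⟩ := Ra_div hR 1 (x := x) (by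
    push_cast
    exact Pool.Agent.H10.le_exp_neg_one hx)
  exact ⟨y, hy, by rw [e, pow_one]⟩

lemma Ra_mk (hR : Ram V s ι) (n : ℕ) {y : F} (hy : V y ≤ 1) : V (s ^ n * y) ≤ exp (-(n : ℤ)) := by
  rw [map_mul, Ra_sn hR]
  exact mul_le_of_le_one_right' hy

lemma Ra_unit {x : F} (hx : V x < 1) : V (1 + x) = 1 := by
  have h := Valuation.map_add_eq_of_lt_left V (x := 1) (y := x) (by rw [map_one]; exact hx)
  rw [h, map_one]

lemma Ra_eps (hR : Ram V s ι) : V (3 / s ^ 2) = 1 := by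
  rw [map_div₀, Ra_sn hR, hR.three]
  push_cast
  exact div_self exp_ne_zero

lemma Ra_pow {t : F} (h : V (t ^ 3) < 1) : V t < 1 := by
  rw [map_pow] at h
  by_contra h1
  have h2 := one_le_pow₀ (not_lt.mp h1) (n := 3)
  exact absurd h (not_lt.mpr h2)

lemma Ra_pow_one {t : F} (h : V (t ^ 3) = 1) : V t = 1 := by
  rw [map_pow] at h
  exact (pow_eq_one_iff.mp h).resolve_right (by norm_num)

/-- units whose cube is one modulo the maximal ideal -/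
lemma Ra_cube (hR : Ram V s ι) {r : F} (h : V (r ^ 3 - 1) < 1) :
    ∃ x, V x ≤ 1 ∧ r = 1 + s * x := by
  have h1 : V (r ^ 3) = 1 := by
    have e : r ^ 3 = 1 + (r ^ 3 - 1) := by ring
    rw [e]
    exact Ra_unit h
  have hr := Ra_pow_one h1
  have h2 : V (r - 1) ≤ 1 := by
    refine (Valuation.map_sub _ _ _).trans (max_le hr.le (by rw [map_one]))
  have h3 : V ((r - 1) ^ 3) < 1 := by
    have e : (r - 1) ^ 3 = (r ^ 3 - 1) - 3 * (r * (r - 1)) := by ring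
    rw [e]
    refine (Valuation.map_sub _ _ _).trans_lt (max_lt h (Ra_mul (Ra_three1 hR) ?_))
    rw [map_mul, hr, one_mul]
    exact h2
  obtain ⟨x, hx, e⟩ := Ra_lt hR (Ra_pow h3)
  exact ⟨x, hx, by rw [← e]; ring⟩

lemma Ra_cube_eq (hR : Ram V s ι) (x : F) :
    (1 + s * x) ^ 3 = 1 + s ^ 3 * (x ^ 3 + 3 / s ^ 2 * x + s * (3 / s ^ 2 * x ^ 2)) := by
  have h0 := Ra_s0 hR
  field_simp
  ring

lemma Ra_w (hR : Ram V s ι) {x : F} (hx : V x ≤ 1) :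
    V (x ^ 3 + 3 / s ^ 2 * x + s * (3 / s ^ 2 * x ^ 2)) ≤ 1 := by
  have h1 : ∀ n : ℕ, V (x ^ n) ≤ 1 := fun n => by rw [map_pow]; exact pow_le_one' hx n
  refine (Valuation.map_add _ _ _).trans (max_le ((Valuation.map_add _ _ _).trans
    (max_le (h1 3) ?_)) ?_)
  · rw [map_mul, Ra_eps hR, one_mul]
    exact hx
  · refine (Ra_mul (Ra_s1 hR) ?_).le
    rw [map_mul, Ra_eps hR, one_mul]
    exact h1 2

theorem Ra_charP (hR : Ram V s ι) (hρ : ∀ x : V.integer, ρ x = 0 ↔ V x < 1) :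
    CharP k 3 := by
  have h : ρ 3 = 0 := by
    rw [hρ]
    have h1 : (((3 : V.integer) : F)) = 3 := rfl
    rw [h1]
    exact Ra_three1 hR
  rw [map_ofNat] at h
  rw [CharP.charP_iff_prime_eq_zero Nat.prime_three]
  exact_mod_cast h

theorem exists_t [Finite k] (hR : Ram V s ι) (hρs : Function.Surjective ρ)
    (hρ : ∀ x : V.integer, ρ x = 0 ↔ V x < 1) {u : F} (hu : V u = 1) :
    ∃ z t : F, V z = 1 ∧ V t ≤ 1 ∧ u = z ^ 3 * (1 + s * t) := by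
  have hch := Ra_charP hR hρ
  have hp : Fact (Nat.Prime 3) := ⟨Nat.prime_three⟩
  obtain ⟨U, hU⟩ : ∃ U : V.integer, (U : F) = u := ⟨⟨u, hu.le⟩, rfl⟩
  obtain ⟨r, hr⟩ := surjective_frobenius k 3 (ρ U)
  obtain ⟨z, rfl⟩ := hρs r
  have h1 : V ((U - z ^ 3 : V.integer) : F) < 1 := by
    rw [← hρ, map_sub, map_pow, ← hr, frobenius_def, sub_self]
  have h2 : V (u - (z : F) ^ 3) < 1 := by
    rw [← hU]
    exact h1
  obtain ⟨m, hm, e⟩ := Ra_lt hR h2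
  have e2 : u = (z : F) ^ 3 + s * m := by rw [← e]; ring
  have hz3 : V ((z : F) ^ 3) = 1 := by
    have e3 : (z : F) ^ 3 = u - s * m := by rw [e2]; ring
    rw [e3, Valuation.map_sub_eq_of_lt_left V (by rw [hu]; exact Ra_mul (Ra_s1 hR) hm), hu]
  have hz1 : V (z : F) = 1 := Ra_pow_one hz3
  have hz0 := Pool.Agent.H10.ne_zero_of_V hz1
  refine ⟨z, m / (z : F) ^ 3, hz1, ?_, ?_⟩
  · rw [map_div₀, map_pow, hz1, one_pow, div_one]
    exact hm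
  · rw [e2]
    field_simp

theorem cube_four (hV : Hens3 V) (hR : Ram V s ι) {x : F} (hx : V x ≤ exp (-4 : ℤ)) :
    ∃ t, V t = 1 ∧ 1 + x = t ^ 3 := by
  have hs0 := Ra_s0 hR
  have h30 := Ra_three0 hR
  obtain ⟨X, hX⟩ : ∃ X : F, X = x / (3 * s ^ 2) := ⟨_, rfl⟩
  obtain ⟨c, hc⟩ : ∃ c : F, c = s ^ 4 / 3 := ⟨_, rfl⟩
  have hXv : V X ≤ 1 := by
    rw [hX, map_div₀, map_mul, hR.three, Ra_sn hR, ← exp_add,
      div_le_one₀ (zero_lt_iff.mpr exp_ne_zero)]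
    refine hx.trans (le_of_eq ?_)
    congr 1
  have hcv : V c < 1 := by
    rw [hc, map_div₀, hR.three, Ra_sn hR, ← exp_sub, ← exp_zero, exp_lt_exp]
    norm_num
  have hx' : x = 3 * s ^ 2 * X := by rw [hX]; field_simp
  have h3c : 3 * c = s ^ 4 := by rw [hc]; field_simp
  have hp : ∀ n : ℕ, V (X ^ n) ≤ 1 := fun n => by rw [map_pow]; exact pow_le_one' hXv n
  have hs2 : V (s ^ 2) < 1 := by
    rw [pow_two]
    exact Ra_mul (Ra_s1 hR) (Ra_s1 hR).le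
  have hs4 : V (s ^ 4) < 1 := by
    have e : s ^ 4 = s ^ 2 * s ^ 2 := by ring
    rw [e]
    exact Ra_mul hs2 hs2.le
  have g0 : V (s ^ 2 * X ^ 2 + c * X ^ 3) < 1 :=
    (Valuation.map_add _ _ _).trans_lt (max_lt (Ra_mul hs2 (hp 2)) (Ra_mul hcv (hp 3)))
  have g1 : V (1 + (s ^ 2 * (2 * X) + s ^ 4 * X ^ 2)) = 1 := by
    apply Ra_unit
    refine (Valuation.map_add _ _ _).trans_lt (max_lt (Ra_mul hs2 ?_) (Ra_mul hs4 (hp 2)))
    rw [map_mul, Ra_two hR, one_mul]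
    exact hXv
  have g2 : V (s ^ 2 + s ^ 4 * X) ≤ 1 :=
    ((Valuation.map_add _ _ _).trans_lt (max_lt hs2 (Ra_mul hs4 hXv))).le
  obtain ⟨y, hy1, hy⟩ := hV _ _ _ c g0 g1 g2 hcv.le
  have hXy : V (X + y) ≤ 1 := (Valuation.map_add _ _ _).trans (max_le hXv hy1.le)
  refine ⟨1 + s ^ 2 * (X + y), Ra_unit (Ra_mul hs2 hXy), ?_⟩
  rw [hx']
  linear_combination (-3 * s ^ 2) * hy +
    (s ^ 2 * (X ^ 3 + y ^ 3)) * h3c
  
theorem t_unique (hR : Ram V s ι) {z t z' t' : F} (hz : V z = 1) (hz' : V z' = 1) (ht : V t ≤ 1)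
    (ht' : V t' ≤ 1) (h : z ^ 3 * (1 + s * t) = z' ^ 3 * (1 + s * t')) : V (t - t') < 1 := by
  have hs0 := Ra_s0 hR
  have hz0 := Pool.Agent.H10.ne_zero_of_V hz
  have hz'0 := Pool.Agent.H10.ne_zero_of_V hz'
  have hu : V (1 + s * t) = 1 := Ra_unit (Ra_mul (Ra_s1 hR) ht)
  have hu0 := Pool.Agent.H10.ne_zero_of_V hu
  obtain ⟨r, hr⟩ : ∃ r : F, r = z / z' := ⟨_, rfl⟩
  have h1 : r ^ 3 * (1 + s * t) = 1 + s * t' := by
    rw [hr, div_pow]
    field_simp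
    exact h
  have h2 : V (r ^ 3 - 1) < 1 := by
    have e : r ^ 3 - 1 = s * ((t' - t) / (1 + s * t)) := by
      field_simp
      linear_combination h1
    rw [e]
    refine Ra_mul (Ra_s1 hR) ?_
    rw [map_div₀, hu, div_one]
    exact (Valuation.map_sub _ _ _).trans (max_le ht' ht)
  obtain ⟨x, hx, e⟩ := Ra_cube hR h2
  rw [e, Ra_cube_eq hR] at h1
  have hw := Ra_w hR hx
  set w := x ^ 3 + 3 / s ^ 2 * x + s * (3 / s ^ 2 * x ^ 2)
  have h3 : t - t' = s * (-(s * (w * (1 + s * t)))) := by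
    have h4 : s * (t - t') = s * (s * (-(s * (w * (1 + s * t))))) := by
      linear_combination h1
    exact mul_left_cancel₀ hs0 h4
  rw [h3]
  refine Ra_mul (Ra_s1 hR) ?_
  rw [Valuation.map_neg]
  refine (Ra_mul (Ra_s1 hR) ?_).le
  rw [map_mul, hu, mul_one]
  exact hw

theorem minus_three (hR : Ram V s ι) {z t : F} (hz : V z = 1) (ht : V t < 1)
    (he : (z ^ 3 * (1 + s * t)) * ι (z ^ 3 * (1 + s * t)) = 1) :
    ∃ y, V y ≤ 1 ∧ t = s ^ 2 * y := by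
  have hs0 := Ra_s0 hR
  obtain ⟨t₁, ht₁, rfl⟩ := Ra_lt hR ht
  have hιt : V (ι t₁) ≤ 1 := by rw [hR.val]; exact ht₁
  obtain ⟨c, hc⟩ : ∃ c : F, c = 1 / (z * ι z) := ⟨_, rfl⟩
  have hz0 := Pool.Agent.H10.ne_zero_of_V hz
  have hιz0 : ι z ≠ 0 := (map_ne_zero ι).mpr hz0
  have h1 : c ^ 3 = 1 + s ^ 2 * (t₁ + ι t₁ + s * (s * (t₁ * ι t₁))) := by
    rw [map_mul, map_pow, map_add, map_one, map_mul, map_mul, hR.neg] at he
    rw [hc, div_pow, one_pow, div_eq_iff (pow_ne_zero 3 (mul_ne_zero hz0 hιz0))]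
    linear_combination (-1 : F) * he
  have hs2 : V (s ^ 2) < 1 := by
    rw [pow_two]
    exact Ra_mul (Ra_s1 hR) (Ra_s1 hR).le
  have hq : V (s * (s * (t₁ * ι t₁))) < 1 := by
    refine Ra_mul (Ra_s1 hR) (Ra_mul (Ra_s1 hR) ?_).le
    rw [map_mul]
    exact mul_le_one' ht₁ hιt
  have h2 : V (c ^ 3 - 1) < 1 := by
    rw [h1, add_sub_cancel_left]
    refine Ra_mul hs2 ?_
    exact (Valuation.map_add _ _ _).trans (max_le ((Valuation.map_add _ _ _).trans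
      (max_le ht₁ hιt)) hq.le)
  obtain ⟨x, hx, e⟩ := Ra_cube hR h2
  rw [e, Ra_cube_eq hR] at h1
  have hw := Ra_w hR hx
  set w := x ^ 3 + 3 / s ^ 2 * x + s * (3 / s ^ 2 * x ^ 2)
  have h3 : t₁ + ι t₁ = s * w - s * (s * (t₁ * ι t₁)) := by
    have h4 : s ^ 2 * (t₁ + ι t₁) = s ^ 2 * (s * w - s * (s * (t₁ * ι t₁))) := by
      linear_combination (-1 : F) * h1
    exact mul_left_cancel₀ (pow_ne_zero 2 hs0) h4
  have h4 : V (t₁ + ι t₁) < 1 := by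
    rw [h3]
    exact (Valuation.map_sub _ _ _).trans_lt (max_lt (Ra_mul (Ra_s1 hR) hw) hq)
  have h5 : V (2 * t₁) < 1 := by
    have e5 : 2 * t₁ = (t₁ + ι t₁) - (ι t₁ - t₁) := by ring
    rw [e5]
    exact (Valuation.map_sub _ _ _).trans_lt (max_lt h4 (hR.res t₁ ht₁))
  rw [map_mul, Ra_two hR, one_mul] at h5
  obtain ⟨y, hy, ey⟩ := Ra_lt hR h5
  exact ⟨y, hy, by rw [ey]; ring⟩

/-- the cube criterion for units which are one modulo the third power of the maximal ideal -/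
theorem Ra_cube_three (hV : Hens3 V) (hR : Ram V s ι) {x y y' : F} (hx : V x ≤ 1) (hy' : V y' ≤ 1)
    (h : V (y - y' - (x ^ 3 + 3 / s ^ 2 * x)) < 1) :
    ∃ t, (1 + s ^ 3 * y) / (1 + s ^ 3 * y') = t ^ 3 := by
  have hs0 := Ra_s0 hR
  have hw := Ra_w hR hx
  have hs3 : V (s ^ 3) < 1 := by
    have e : s ^ 3 = s * (s * s) := by ring
    rw [e]
    exact Ra_mul (Ra_s1 hR) (Ra_mul (Ra_s1 hR) (Ra_s1 hR).le).le
  have hC := Ra_cube_eq hR x
  have hw2 : V (x ^ 3 + 3 / s ^ 2 * x + s * (3 / s ^ 2 * x ^ 2) - (x ^ 3 + 3 / s ^ 2 * x)) < 1 := by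
    rw [add_sub_cancel_left]
    refine Ra_mul (Ra_s1 hR) ?_
    rw [map_mul, Ra_eps hR, one_mul, map_pow]
    exact pow_le_one' hx 2
  set w := x ^ 3 + 3 / s ^ 2 * x + s * (3 / s ^ 2 * x ^ 2)
  have hB : V (1 + s ^ 3 * y') = 1 := Ra_unit (Ra_mul hs3 hy')
  have hCv : V ((1 + s * x) ^ 3) = 1 := by
    rw [hC]
    exact Ra_unit (Ra_mul hs3 hw)
  have hB0 := Pool.Agent.H10.ne_zero_of_V hB
  have hC0 := Pool.Agent.H10.ne_zero_of_V hCv
  obtain ⟨q, hq⟩ : ∃ q : F, q = y - y' - w - s ^ 3 * (y' * w) := ⟨_, rfl⟩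
  have hqv : V q < 1 := by
    have e : q = (y - y' - (x ^ 3 + 3 / s ^ 2 * x)) - (w - (x ^ 3 + 3 / s ^ 2 * x)) -
        s ^ 3 * (y' * w) := by rw [hq]; ring
    rw [e]
    refine (Valuation.map_sub _ _ _).trans_lt (max_lt ((Valuation.map_sub _ _ _).trans_lt
      (max_lt h hw2)) (Ra_mul hs3 ?_))
    rw [map_mul]
    exact mul_le_one' hy' hw
  obtain ⟨q', hq', rfl⟩ := Ra_lt hR hqv
  obtain ⟨t, -, ht⟩ := cube_four hV hR
    (x := s ^ 4 * q' / ((1 + s ^ 3 * y') * (1 + s * x) ^ 3)) (by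
      rw [map_div₀, map_mul V (1 + s ^ 3 * y'), hB, hCv, one_mul, div_one]
      exact Ra_mk hR 4 hq')
  refine ⟨(1 + s * x) * t, ?_⟩
  rw [mul_pow, ← ht, div_eq_iff hB0]
  have h6 : (1 + s * x) ^ 3 * (1 + s ^ 4 * q' / ((1 + s ^ 3 * y') * (1 + s * x) ^ 3)) *
      (1 + s ^ 3 * y') = (1 + s * x) ^ 3 * (1 + s ^ 3 * y') + s ^ 4 * q' := by
    have hC1 : 1 + s * x ≠ 0 := fun h0 => hC0 (by rw [h0]; ring)
    field_simp
  rw [h6, hC]
  linear_combination (-s ^ 3 : F) * hq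

theorem three_pigeon [Finite k] (hV : Hens3 V) (hR : Ram V s ι) (hρs : Function.Surjective ρ)
    (hρ : ∀ x : V.integer, ρ x = 0 ↔ V x < 1) (y : Fin 4 → F) (hy : ∀ i, V (y i) ≤ 1) :
    ∃ i j, i ≠ j ∧ ∃ t, (1 + s ^ 3 * y i) / (1 + s ^ 3 * y j) = t ^ 3 := by
  have hch := Ra_charP hR hρ
  obtain ⟨E, hE⟩ : ∃ E : V.integer, (E : F) = 3 / s ^ 2 := ⟨⟨3 / s ^ 2, (Ra_eps hR).le⟩, rfl⟩
  let φ : k →+ k := AddMonoidHom.mk' (fun x => ρ E * x + 1 * x ^ 3) (by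
    intro a b
    have h3 : (3 : k) = 0 := by exact_mod_cast CharP.cast_eq_zero k 3
    linear_combination (a ^ 2 * b + a * b ^ 2) * h3)
  have hφ : ∀ x, φ x = ρ E * x + 1 * x ^ 3 := fun x => rfl
  obtain ⟨i, j, hij, hM⟩ := index_three φ.range (A := ρ E) (B := 1) (Γ := 0) (Or.inr one_ne_zero)
    (fun x _ => ⟨x, hφ x⟩) (fun i => ρ (⟨y i, hy i⟩ : V.integer))
  obtain ⟨x, hx⟩ := hM
  obtain ⟨X, rfl⟩ := hρs x
  refine ⟨i, j, hij, ?_⟩
  refine Ra_cube_three hV hR (x := (X : F)) X.2 (hy j) ?_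
  have h1 : V (((⟨y i, hy i⟩ - ⟨y j, hy j⟩ - (X ^ 3 + E * X) : V.integer) : F)) < 1 := by
    rw [← hρ, map_sub, map_sub, map_add, map_pow, map_mul, ← hx, hφ]
    ring
  rw [← hE]
  exact h1

end H86D
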