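import Pool.Agent.H86.T3D.Ra

/-!
Row Rb (about 200 lines): pigeonhole in the ramified case, general bound.

PROOF of four_cube: `e : Fin 4 → F` of norm one (`e * ι e = 1`, so `V e = 1` by Ram.val), `e i = z_i^3 (1 + s t_i)` with all `t_i` congruent: then two quotients are cubes. `f i := e i / e 0`: `f i * ι (f i) = 1`, `f i = (z_i/z_0)^3 (1 + s t_i)/(1 + s t_0) = (z_i/z_0)^3 (1 + s (t_i - t_0)/(1 + s t_0))`, the new `t` has `V < 1`: minus_three: `f i = z'^3 (1 + s^3 y_i)`.
 three_pigeon: `i ≠ j` with `(1 + s^3 y_i)/(1 + s^3 y_j)` a cube, so `e i / e j = f i / f j` is a cube.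
PROOF of ram_pigeon: `3 q + 1` elements (`q = Nat.card k`), `ρ (t_i)` takes at most `q` values: some value is taken at least four times (Finset.exists_lt_card_fiber_of_mul_lt_card_of_maps_to with `3`), an injection `Fin 4 → ` that fibre, four_cube.
-/

set_option autoImplicit false
open scoped Classical

open WithZero H55T3 H86T3

namespace H86D

variable {F : Type*} [Field F] {V : Valuation F (WithZero (Multiplicative ℤ))} {k : Type*}
  [Field k] [Finite k] {ρ : V.integer →+* k} {s : F} {ι : F →+* F}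

theorem four_cube (hV : Hens3 V) (hR : Ram V s ι) (hρs : Function.Surjective ρ)
    (hρ : ∀ x : V.integer, ρ x = 0 ↔ V x < 1) (e z t : Fin 4 → F) (he : ∀ i, e i * ι (e i) = 1)
    (hz : ∀ i, V (z i) = 1) (ht : ∀ i, V (t i) ≤ 1) (h : ∀ i, e i = z i ^ 3 * (1 + s * t i))
    (hc : ∀ i j, V (t i - t j) < 1) : ∃ i j, i ≠ j ∧ ∃ x, e i / e j = x ^ 3 := by
  have hz0 : ∀ i, z i ≠ 0 := by
    intro i h0
    have h1 := hz i
    rw [h0, map_zero] at h1
    exact zero_ne_one h1
  have he0 : ∀ i, e i ≠ 0 := by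
    intro i h0
    have h1 := he i
    rw [h0, zero_mul] at h1
    exact zero_ne_one h1
  have hs1 : V s < 1 := by
    rw [hR.unif, ← exp_zero, exp_lt_exp]
    norm_num
  have hv : V (1 + s * t 0) = 1 := by
    rw [Valuation.map_one_add_of_lt]
    rw [map_mul]
    exact mul_lt_one_of_lt_of_le hs1 (ht 0)
  have hn0 : 1 + s * t 0 ≠ 0 := by
    intro h0
    rw [h0, map_zero] at hv
    exact zero_ne_one hv
  have key : ∀ i, ∃ y, V y ≤ 1 ∧ e i / e 0 = (z i / z 0) ^ 3 * (1 + s ^ 3 * y) := by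
    intro i
    have h1 : e i / e 0 = (z i / z 0) ^ 3 * (1 + s * ((t i - t 0) / (1 + s * t 0))) := by
      have hz00 := hz0 0
      rw [h i, h 0]
      field_simp
      ring
    have h2 : V (z i / z 0) = 1 := by
      rw [map_div₀, hz, hz, div_one]
    have h3 : V ((t i - t 0) / (1 + s * t 0)) < 1 := by
      rw [map_div₀, hv, div_one]
      exact hc i 0
    have h4 : (e i / e 0) * ι (e i / e 0) = 1 := by
      rw [map_div₀, div_mul_div_comm, he, he, div_one]
    rw [h1] at h4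
    obtain ⟨y, hy1, hy2⟩ := minus_three hR h2 h3 h4
    refine ⟨y, hy1, ?_⟩
    rw [h1, hy2]
    ring
  choose y hy1 hy2 using key
  obtain ⟨i, j, hij, x, hx⟩ := three_pigeon hV hR hρs hρ y hy1
  refine ⟨i, j, hij, (z i / z 0) / (z j / z 0) * x, ?_⟩
  have h5 : e i / e j = (e i / e 0) / (e j / e 0) := by
    rw [div_div_div_cancel_right₀ (he0 0)]
  rw [h5, hy2, hy2, mul_div_mul_comm, hx, mul_pow, div_pow (z i / z 0)]

theorem ram_pigeon (hV : Hens3 V) (hR : Ram V s ι) (hρs : Function.Surjective ρ)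
    (hρ : ∀ x : V.integer, ρ x = 0 ↔ V x < 1) (e : Fin (3 * Nat.card k + 1) → F)
    (he : ∀ i, e i * ι (e i) = 1) : ∃ i j, i ≠ j ∧ ∃ x, e i / e j = x ^ 3 := by
  have hu : ∀ i, V (e i) = 1 := by
    intro i
    have h1 := congrArg V (he i)
    rw [map_mul, hR.val, map_one, ← pow_two] at h1
    exact (pow_left_inj₀ zero_le' zero_le' two_ne_zero).1 (h1.trans (one_pow 2).symm)
  choose z t hz ht h using fun i => exists_t hR hρs hρ (hu i)
  have hfin : Fintype k := Fintype.ofFinite k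
  have hcard : Fintype.card k * 3 < Fintype.card (Fin (3 * Nat.card k + 1)) := by
    rw [Fintype.card_fin, Nat.card_eq_fintype_card]
    omega
  obtain ⟨c, hc⟩ := Fintype.exists_lt_card_fiber_of_mul_lt_card
    (fun i => ρ ⟨t i, ht i⟩) hcard
  obtain ⟨S, hS, hS4⟩ := Finset.exists_subset_card_eq (Nat.succ_le_of_lt hc)
  obtain ⟨i, j, hij, x, hx⟩ := four_cube hV hR hρs hρ (fun i => e (S.orderEmbOfFin hS4 i))
    (fun i => z (S.orderEmbOfFin hS4 i)) (fun i => t (S.orderEmbOfFin hS4 i)) (fun i => he _)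
    (fun i => hz _) (fun i => ht _) (fun i => h _) (fun i j => by
      have h1 := (Finset.mem_filter.1 (hS (S.orderEmbOfFin_mem hS4 i))).2
      have h2 := (Finset.mem_filter.1 (hS (S.orderEmbOfFin_mem hS4 j))).2
      have h3 : ρ (⟨t (S.orderEmbOfFin hS4 i), ht _⟩ - ⟨t (S.orderEmbOfFin hS4 j), ht _⟩) = 0 := by
        rw [map_sub, h1, h2, sub_self]
      exact (hρ _).1 h3)
  exact ⟨_, _, fun h1 => hij ((S.orderEmbOfFin hS4).injective h1), x, hx⟩

end H86D
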