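import Pool.Agent.H86.T3D.Df

/-!
Row Rs (about 100 lines): a cocycle killed by three which is locally trivial over an extension of degree two is locally trivial.

PROOF. Here `L ⊂ B` (number fields, degree 2), `V.map = V'`. `g := corF hV (resF hV f)` is locally trivial: isCocycle_res (H10/Func5), isLocTriv_cor (H10/Func6). `g σ - 2 • f σ` is a coboundary (corF_resF, finrank = 2; isCobound_iff), and coboundaries are locally trivial (cob_locTriv in H11/ShaN, or `shaB_le` in H10/Func7), so
 `2 • f` is locally trivial (locTriv_sub of H11/ShaN: `2 • f = g - (g - 2 • f)`; or work in the group `ShaZ` of H10/Func7), and `f = 3 • f - 2 • f = - (2 • f)` is locally trivial (locTriv_nsmul: `f = 2 • (2 • f)` because `3 • f σ = 0`).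
-/

set_option autoImplicit false
open scoped Classical

open WeierstrassCurve IsDedekindDomain NumberField Pool.Agent.H10 Pool.Agent.H11 H55T3 H86T3

namespace H86D

theorem locTriv_of_res {L B : Type} [Field L] [NumberField L] [Field B] [NumberField B]
    [Algebra L B] (h2 : Module.finrank L B = 2) {V : WeierstrassCurve L} {V' : WeierstrassCurve B}
    (hV : V.map (algebraMap L B) = V') {f : Coch L V} (hf : IsCocycle L V f)
    (h3 : ∀ σ, 3 • f σ = 0) (hl : IsLocTriv B V' (resF hV f)) : IsLocTriv L V f := by
  have k1 : IsCocycle B V' (resF hV f) := isCocycle_res hV hf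
  have k2 : IsLocTriv L V (corF hV (resF hV f)) := isLocTriv_cor hV k1 hl
  obtain ⟨Q, hQ⟩ := corF_resF hV hf
  have k3 : IsLocTriv L V (fun σ ↦ corF hV (resF hV f) σ - cob V Q σ) :=
    locTriv_sub V k2 (cob_locTriv V Q)
  have k4 := locTriv_nsmul V k3 2
  have e : (fun σ ↦ 2 • (corF hV (resF hV f) σ - cob V Q σ)) = f := by
    funext σ
    have e0 : corF hV (resF hV f) σ - Module.finrank L B • f σ = cob V Q σ := hQ σ
    rw [h2] at e0
    have e1 : corF hV (resF hV f) σ - cob V Q σ = 2 • f σ := by
      rw [← e0]; abel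
    rw [e1, smul_smul]
    have e2 : (2 * 2 : ℕ) = 3 + 1 := rfl
    rw [e2, add_smul, h3 σ, zero_add, one_smul]
  rwa [e] at k4

end H86D
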